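import Pool.Agent.W_MP_09e4ca_co.Defs
import Pool.Agent.W_MP_09e4ca_h33.Basic

/-!
# MP_09e4ca_co, prime powers: definitions

`hfold A h = hA`, `restr A h` is the restricted sumset (see `W_MP_09e4ca_co/Defs.lean`), and
`delta q m h` is the defect (see `W_MP_09e4ca_h33/Basic.lean`). In the combinatorial files we write
`a = h`, `b = m - h`, so `m = a + b`, and `d = p ^ t`.
-/

namespace W09h1

open Finset

/-- The number of pairs `y < x` with `y ∉ S`, `x ∈ S` and `P ∣ x - y`. (If `S` is read as a
partition, `inv 1 S` is its size and `inv P S` the number of hooks of length divisible by `P`.) -/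
def inv (P : ℕ) (S : Finset ℕ) : ℕ := ∑ x ∈ S, #{y ∈ range x | y ∉ S ∧ P ∣ x - y}

/-- There is an `a`-element subset `S` of `[0, a + b)` with `inv (p ^ s) S = ⌊N / p ^ s⌋` for all
`s`; in particular `inv 1 S = N`. -/
def R (p a b N : ℕ) : Prop :=
  ∃ S : Finset ℕ, S ⊆ range (a + b) ∧ #S = a ∧ ∀ s, inv (p ^ s) S = N / p ^ s

/-- The same for `s ≤ t` only. -/
def G (p t a b N : ℕ) : Prop :=
  ∃ S : Finset ℕ, S ⊆ range (a + b) ∧ #S = a ∧ ∀ s, s ≤ t → inv (p ^ s) S = N / p ^ s

/-- The quotient: `a b = d * Mf d a b + cx d a b * cy d a b`. -/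
def Mf (d a b : ℕ) : ℕ :=
  a / d * (b / d) * d + a / d * (b % d) + b / d * (a % d) + (a % d + b % d - d)

/-- First component of the core. -/
def cx (d a b : ℕ) : ℕ := if a % d + b % d < d then a % d else d - b % d

/-- Second component of the core. -/
def cy (d a b : ℕ) : ℕ := if a % d + b % d < d then b % d else d - a % d

end W09h1
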