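import Pool.Agent.W_09e4ca_h1.Defs

/-!
# The defect of the core
-/

namespace W09h1

open Finset W09h33

/-- `δ` in terms of `α = a % P`, `β = b % P`: `P - 1` if `α = β = 0`; else `α β - (P - 1)` if
`α + β < P`, and `(P - α) (P - β) - (P - 1)` if `α + β ≥ P` (truncated differences). -/
theorem delta_eq {P : ℕ} (hP : 0 < P) (a b : ℕ) :
    delta P (a + b) a = if a % P = 0 ∧ b % P = 0 then P - 1
      else if a % P + b % P < P then a % P * (b % P) - (P - 1)
      else (P - a % P) * (P - b % P) - (P - 1) := by
  have hα := Nat.mod_lt a hP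
  have hβ := Nat.mod_lt b hP
  have hm : (a + b) % P = if a % P + b % P < P then a % P + b % P else a % P + b % P - P := by
    rw [Nat.add_mod]
    split_ifs with h
    · exact Nat.mod_eq_of_lt h
    · rw [Nat.mod_eq_sub_mod (by omega), Nat.mod_eq_of_lt (by omega)]
  unfold delta rho
  generalize a % P = α at *
  generalize b % P = β at *
  rw [hm]
  by_cases h0 : α = 0 ∧ β = 0
  · obtain ⟨rfl, rfl⟩ := h0
    simp [hP]
  · by_cases h1 : α + β < P
    · simp only [if_pos h1, if_neg h0]
      rw [if_neg (by omega), if_pos (by omega), Nat.add_sub_cancel_left]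
    · simp only [if_neg h1, if_neg h0]
      rw [if_neg (by omega), if_neg (by omega), show α - (α + β - P) = P - β by omega]

/-- The core has the same defect: if the core is `(a % d, b % d)` the residues modulo `P` are the
same; otherwise it is `(d - b % d, d - a % d)`, whose residues modulo `P` are those of `-b`, `-a`,
and the formula `delta_eq` is invariant under `(a, b) → (-b, -a)` (if `a % P = 0`, `b % P ≠ 0`, both
sides are `0`). -/
theorem delta_core {P d : ℕ} (hP : 0 < P) (hd0 : 0 < d) (hd : P ∣ d) (a b : ℕ) :
    delta P (a + b) a = delta P (cx d a b + cy d a b) (cx d a b) := by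
  have hα := Nat.mod_lt a hP
  have hβ := Nat.mod_lt b hP
  have had := Nat.mod_lt a hd0
  have hbd := Nat.mod_lt b hd0
  rw [delta_eq hP, delta_eq hP]
  have ha : a % d % P = a % P := Nat.mod_mod_of_dvd a hd
  have hb : b % d % P = b % P := Nat.mod_mod_of_dvd b hd
  unfold cx cy
  by_cases h : a % d + b % d < d
  · simp only [if_pos h, ha, hb]
  · simp only [if_neg h]
    have key : ∀ x, x < d → (d - x) % P = if x % P = 0 then 0 else P - x % P := by
      intro x hx
      obtain ⟨c, rfl⟩ := hd
      have hxP := Nat.mod_lt x hP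
      have hdiv := Nat.div_add_mod x P
      have hlt : x / P < c := Nat.div_lt_of_lt_mul hx
      obtain ⟨e, he⟩ : ∃ e, c = x / P + 1 + e := ⟨c - (x / P + 1), by omega⟩
      have h1 : P * c - x = P * e + (P - x % P) := by
        rw [he, Nat.mul_add, Nat.mul_add, Nat.mul_one]
        omega
      rw [h1, Nat.mul_add_mod]
      split_ifs with h0
      · rw [h0, Nat.sub_zero, Nat.mod_self]
      · exact Nat.mod_eq_of_lt (by omega)
    rw [key _ hbd, key _ had, ha, hb]
    generalize a % P = α at *
    generalize b % P = β at *
    by_cases hα0 : α = 0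
    · subst hα0
      by_cases hβ0 : β = 0
      · subst hβ0
        simp
      · rw [if_neg hβ0, if_pos (rfl : (0 : ℕ) = 0), if_neg (show ¬ (0 = 0 ∧ β = 0) by omega),
          if_pos (show 0 + β < P by omega), if_neg (show ¬ (P - β = 0 ∧ 0 = 0) by omega),
          if_pos (show P - β + 0 < P by omega)]
        simp
    · by_cases hβ0 : β = 0
      · subst hβ0
        rw [if_neg hα0, if_pos (rfl : (0 : ℕ) = 0), if_neg (show ¬ (α = 0 ∧ 0 = 0) by omega),
          if_pos (show α + 0 < P by omega), if_neg (show ¬ (0 = 0 ∧ P - α = 0) by omega),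
          if_pos (show 0 + (P - α) < P by omega)]
        simp
      · rw [if_neg hα0, if_neg hβ0, if_neg (show ¬ (α = 0 ∧ β = 0) by omega),
          if_neg (show ¬ (P - β = 0 ∧ P - α = 0) by omega)]
        rcases lt_trichotomy (α + β) P with h1 | h1 | h1
        · rw [if_pos h1, if_neg (show ¬ (P - β + (P - α) < P) by omega),
            show P - (P - β) = β by omega, show P - (P - α) = α by omega, Nat.mul_comm]
        · rw [if_neg (show ¬ (α + β < P) by omega), if_neg (show ¬ (P - β + (P - α) < P) by omega),
            show P - (P - β) = P - α by omega, show P - (P - α) = P - β by omega]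
        · rw [if_neg (show ¬ (α + β < P) by omega), if_pos (show P - β + (P - α) < P by omega),
            Nat.mul_comm]

/-- For `a, b ≥ 1` and `a + b ≤ P`. -/
theorem delta_big {P a b : ℕ} (ha : 1 ≤ a) (hb : 1 ≤ b) (hab : a + b ≤ P) :
    delta P (a + b) a = a * b - (P - 1) := by
  rw [delta_eq (by omega), Nat.mod_eq_of_lt (show a < P by omega),
    Nat.mod_eq_of_lt (show b < P by omega), if_neg (by omega)]
  by_cases h : a + b < P
  · rw [if_pos h]
  · rw [if_neg h, show P - a = b by omega, show P - b = a by omega, Nat.mul_comm]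

theorem delta_one (m h : ℕ) : delta 1 m h = 0 := by
  unfold delta
  simp [Nat.mod_one]

end W09h1
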