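import Pool.Agent.W_09e4ca_h1.Defs

/-!
# The minimum size of unrestricted sumsets
-/

namespace W09h1

open Finset MvPolynomial W_MP_09e4ca_co

private lemma PU2_nu : ∀ (h c t : ℕ), t ≤ h * c →
    ∃ nu : Fin h → ℕ, (∀ i, nu i ≤ c) ∧ ∑ i, nu i = t := by
  intro h
  induction h with
  | zero =>
    intro c t ht
    refine ⟨fun i => 0, fun i => Nat.zero_le _, ?_⟩
    simp at ht
    simp [ht]
  | succ h ih =>
    intro c t ht
    obtain ⟨nu, h1, h2⟩ := ih c (min t (h * c)) (min_le_right _ _)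
    refine ⟨Fin.cons (t - min t (h * c)) nu, ?_, ?_⟩
    · intro i
      refine Fin.cases ?_ ?_ i
      · rw [Fin.cons_zero]
        have : (h + 1) * c = h * c + c := by ring
        omega
      · intro i
        rw [Fin.cons_succ]
        exact h1 i
    · rw [Fin.sum_univ_succ]
      simp only [Fin.cons_zero, Fin.cons_succ]
      rw [h2]
      omega

private lemma PU2_mod {p h K : ℕ} (hp : 0 < p) (hd : ∀ j, h * (K / p ^ j % p) < p) (u : ℕ) :
    h * (K % p ^ u) < p ^ u := by
  induction u with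
  | zero => simp [Nat.mod_one]
  | succ u ih =>
    rw [Nat.mod_pow_succ, mul_add, pow_succ]
    have h1 := hd u
    have h2 : h * (p ^ u * (K / p ^ u % p)) = p ^ u * (h * (K / p ^ u % p)) := by ring
    rw [h2]
    have h3 : p ^ u * (h * (K / p ^ u % p)) ≤ p ^ u * (p - 1) := Nat.mul_le_mul_left _ (by omega)
    have h4 : p ^ u * (p - 1) + p ^ u = p ^ u * p := by
      rw [← Nat.mul_succ]
      congr 1
      omega
    omega

private lemma PU2_div {p h K : ℕ} (hp : 0 < p) (hd : ∀ j, h * (K / p ^ j % p) < p) (u : ℕ) :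
    h * K / p ^ u = h * (K / p ^ u) := by
  have h1 := PU2_mod hp hd u
  have h2 : 0 < p ^ u := pow_pos hp u
  have h3 : h * K = h * (K % p ^ u) + p ^ u * (h * (K / p ^ u)) := by
    conv_lhs => rw [← Nat.mod_add_div K (p ^ u)]
    ring
  rw [h3, Nat.add_mul_div_left _ _ h2, Nat.div_eq_of_lt h1, zero_add]

private lemma PU2_N_ge {p X s j : ℕ} (hp : 0 < p) (hj : s ≤ j) :
    ((X + 1) * p ^ s - 1) / p ^ j = X / p ^ (j - s) := by
  have h2 : 0 < p ^ s := pow_pos hp s
  have h3 : (X + 1) * p ^ s - 1 = (p ^ s - 1) + p ^ s * X := by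
    have : (X + 1) * p ^ s = p ^ s * X + p ^ s := by ring
    omega
  have h4 : p ^ j = p ^ s * p ^ (j - s) := by rw [← pow_add]; congr 1; omega
  have h5 : p ^ s - 1 < p ^ s := by omega
  rw [h4, ← Nat.div_div_eq_div_mul, h3, Nat.add_mul_div_left _ _ h2,
    Nat.div_eq_of_lt h5, zero_add]

private lemma PU2_pred {Y Z : ℕ} (hY : 0 < Y) (hZ : 0 < Z) : (Y * Z - 1) / Z = Y - 1 := by
  obtain ⟨y, rfl⟩ : ∃ y, Y = y + 1 := ⟨Y - 1, by omega⟩
  have h3 : (y + 1) * Z - 1 = (Z - 1) + Z * y := by
    have : (y + 1) * Z = Z * y + Z := by ring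
    omega
  rw [h3, Nat.add_mul_div_left _ _ hZ, Nat.div_eq_of_lt (by omega)]
  omega

private lemma PU2_N_lt {p X s j : ℕ} (hp : 0 < p) (hj : j ≤ s) :
    ((X + 1) * p ^ s - 1) / p ^ j = (X + 1) * p ^ (s - j) - 1 := by
  have h4 : p ^ s = p ^ (s - j) * p ^ j := by rw [← pow_add]; congr 1; omega
  rw [h4, ← mul_assoc]
  exact PU2_pred (Nat.mul_pos (Nat.succ_pos _) (pow_pos hp _)) (pow_pos hp _)

/-- The exponents. Let `M = m - 1` and `s` be maximal with `h * (M / p ^ (s - 1) % p) ≥ p` (`s = 0` if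
there is no such digit), `K = M / p ^ s`, `N + 1 = (h K + 1) p ^ s`. If `s = 0` take `lam i = M`. If
`s ≥ 1`, the digit `c = M / p ^ (s - 1) % p` satisfies `h c ≥ p`; choose `nu i ≤ c` with
`∑ nu i = p - 1` and `nu i₀ < c` for some `i₀`, and
`lam i = K p ^ s + nu i p ^ (s - 1) + [i = i₀] (p ^ (s - 1) - 1)`. For all `j`,
`∑ ⌊lam i / p ^ j⌋ = ⌊N / p ^ j⌋`: for `j ≥ s` both sides are `h ⌊K / p ^ (j - s)⌋`, as
`h (K % p ^ (j - s)) < p ^ (j - s)` (all digits `c'` of `K` have `h c' ≤ p - 1`); for `j < s` both are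
`h K p ^ (s - j) + p ^ (s - j) - 1`. -/
theorem exists_exps {p h m k : ℕ} (hp : p.Prime) (hh : 1 ≤ h) (hm : 1 ≤ m) (hmk : m ≤ p ^ k) :
    ∃ s ≤ k, ∃ lam : Fin h → ℕ, (∀ i, lam i < m) ∧
      ∀ j, ∑ i, lam i / p ^ j = ((h * ((m - 1) / p ^ s) + 1) * p ^ s - 1) / p ^ j := by
  classical
  have hp0 : 0 < p := hp.pos
  obtain ⟨M, hM⟩ : ∃ M, M = m - 1 := ⟨_, rfl⟩
  have hMk : M < p ^ k := by omega
  rw [← hM]
  obtain ⟨s, hs⟩ : ∃ s, s = Nat.findGreatest (fun s => 1 ≤ s ∧ p ≤ h * (M / p ^ (s - 1) % p)) k :=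
    ⟨_, rfl⟩
  have hsk : s ≤ k := by rw [hs]; exact Nat.findGreatest_le k
  have hdig : ∀ j, s ≤ j → h * (M / p ^ j % p) < p := by
    intro j hj
    rcases Nat.lt_or_ge j k with hjk | hjk
    · by_contra hcon
      have h1 : j + 1 ≤ s := by
        rw [hs]
        refine Nat.le_findGreatest (by omega) ⟨by omega, ?_⟩
        rw [Nat.add_sub_cancel]
        omega
      omega
    · have h1 : M / p ^ j = 0 := by
        apply Nat.div_eq_of_lt
        exact lt_of_lt_of_le hMk (Nat.pow_le_pow_right hp0 hjk)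
      rw [h1]
      simpa using hp0
  have hd : ∀ j, h * (M / p ^ s / p ^ j % p) < p := by
    intro j
    rw [Nat.div_div_eq_div_mul, ← pow_add]
    exact hdig (s + j) (by omega)
  refine ⟨s, hsk, ?_⟩
  obtain ⟨K, hK⟩ : ∃ K, K = M / p ^ s := ⟨_, rfl⟩
  rw [← hK] at hd ⊢
  rcases Nat.eq_zero_or_pos s with hs0 | hs0
  · refine ⟨fun _ => M, fun i => by simp only; omega, ?_⟩
    intro j
    rw [sum_const, card_univ, Fintype.card_fin, smul_eq_mul, PU2_N_ge hp0 (by omega),
      PU2_div hp0 hd]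
    rw [hs0] at hK ⊢
    rw [pow_zero, Nat.div_one] at hK
    rw [hK, Nat.sub_zero]
  · have hspec : 1 ≤ s ∧ p ≤ h * (M / p ^ (s - 1) % p) := by
      have := Nat.findGreatest_of_ne_zero hs.symm (by omega)
      exact this
    obtain ⟨t, rfl⟩ : ∃ t, s = t + 1 := ⟨s - 1, by omega⟩
    rw [Nat.add_sub_cancel] at hspec
    obtain ⟨c, hc⟩ : ∃ c, c = M / p ^ t % p := ⟨_, rfl⟩
    rw [← hc] at hspec
    have hcp : c < p := by rw [hc]; exact Nat.mod_lt _ hp0
    have hpt : 0 < p ^ t := pow_pos hp0 t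
    have hMeq : K * p ^ (t + 1) + c * p ^ t ≤ M := by
      have h1 : M / p ^ t = p * K + c := by
        rw [hK, pow_succ, ← Nat.div_div_eq_div_mul, hc]
        exact (Nat.div_add_mod _ _).symm
      have h2 : K * p ^ (t + 1) + c * p ^ t = (M / p ^ t) * p ^ t := by
        rw [h1]; ring
      rw [h2]
      exact Nat.div_mul_le_self _ _
    obtain ⟨nu, hnu1, hnu2⟩ := PU2_nu h c (p - 1) (by omega)
    obtain ⟨i0, hi0⟩ : ∃ i0, nu i0 < c := by
      by_contra hcon
      push Not at hcon
      have h1 : ∑ i : Fin h, c ≤ ∑ i, nu i := sum_le_sum fun i _ => hcon i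
      rw [sum_const, card_univ, Fintype.card_fin, smul_eq_mul, hnu2] at h1
      omega
    refine ⟨fun i => K * p ^ (t + 1) + nu i * p ^ t + if i = i0 then p ^ t - 1 else 0, ?_, ?_⟩
    · intro i
      simp only
      split_ifs with hi
      · subst hi
        have h1 : nu i * p ^ t + p ^ t ≤ c * p ^ t := by
          have : nu i * p ^ t + p ^ t = (nu i + 1) * p ^ t := by ring
          rw [this]
          exact Nat.mul_le_mul_right _ hi0
        omega
      · have h1 : nu i * p ^ t ≤ c * p ^ t := Nat.mul_le_mul_right _ (hnu1 i)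
        omega
    · intro j
      rcases Nat.lt_or_ge j (t + 1) with hj | hj
      · rw [PU2_N_lt hp0 (by omega)]
        have hpj : 0 < p ^ j := pow_pos hp0 j
        have h4 : p ^ (t + 1) = p ^ (t + 1 - j) * p ^ j := by
          rw [← pow_add]; congr 1; omega
        have h5 : p ^ t = p ^ (t - j) * p ^ j := by
          rw [← pow_add]; congr 1; omega
        have h6 : ∀ i, (K * p ^ (t + 1) + nu i * p ^ t + if i = i0 then p ^ t - 1 else 0) / p ^ j =
            K * p ^ (t + 1 - j) + nu i * p ^ (t - j) + if i = i0 then p ^ (t - j) - 1 else 0 := by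
          intro i
          have h7 : K * p ^ (t + 1) + nu i * p ^ t + (if i = i0 then p ^ t - 1 else 0) =
              (if i = i0 then p ^ t - 1 else 0) +
                p ^ j * (K * p ^ (t + 1 - j) + nu i * p ^ (t - j)) := by
            rw [h4]
            conv_lhs => rw [h5]
            conv_rhs => rw [h5]
            ring
          rw [h7, Nat.add_mul_div_left _ _ hpj]
          split_ifs with hi
          · rw [h5, PU2_pred (pow_pos hp0 _) hpj]
            ring
          · rw [Nat.zero_div]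
            ring
        rw [sum_congr rfl fun i _ => h6 i, sum_add_distrib, sum_add_distrib, sum_const, card_univ,
          Fintype.card_fin, smul_eq_mul, ← sum_mul, hnu2, sum_ite_eq', if_pos (mem_univ _)]
        have h8 : p ^ (t + 1 - j) = p * p ^ (t - j) := by
          rw [← pow_succ']; congr 1; omega
        have h9 : 0 < p ^ (t - j) := pow_pos hp0 _
        rw [h8]
        obtain ⟨x, hx⟩ : ∃ x, p = x + 1 := ⟨p - 1, by omega⟩
        have h10 : (p - 1) * p ^ (t - j) + p ^ (t - j) = p * p ^ (t - j) := by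
          have : p - 1 = x := by omega
          rw [this]
          conv_rhs => rw [hx]
          rw [add_mul, one_mul, ← hx]
        have h11 : (h * K + 1) * (p * p ^ (t - j)) = h * (K * (p * p ^ (t - j))) +
            p * p ^ (t - j) := by ring
        rw [h11]
        omega
      · rw [PU2_N_ge hp0 hj, PU2_div hp0 hd]
        have h6 : ∀ i, (K * p ^ (t + 1) + nu i * p ^ t + if i = i0 then p ^ t - 1 else 0) / p ^ j =
            K / p ^ (j - (t + 1)) := by
          intro i
          have h4 : p ^ j = p ^ (t + 1) * p ^ (j - (t + 1)) := by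
            rw [← pow_add]; congr 1; omega
          have h7 : K * p ^ (t + 1) + nu i * p ^ t + (if i = i0 then p ^ t - 1 else 0) =
              (nu i * p ^ t + (if i = i0 then p ^ t - 1 else 0)) + p ^ (t + 1) * K := by ring
          have h8 : nu i * p ^ t + (if i = i0 then p ^ t - 1 else 0) < p ^ (t + 1) := by
            have h9 : (nu i + 1) * p ^ t ≤ p * p ^ t :=
              Nat.mul_le_mul_right _ (by have := hnu1 i; omega)
            have h10 : (nu i + 1) * p ^ t = nu i * p ^ t + p ^ t := by ring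
            have h11 : p * p ^ t = p ^ (t + 1) := by rw [pow_succ']
            split_ifs <;> omega
          rw [h4, ← Nat.div_div_eq_div_mul, h7, Nat.add_mul_div_left _ _ (pow_pos hp0 _),
            Nat.div_eq_of_lt h8, zero_add]
        rw [sum_congr rfl fun i _ => h6 i, sum_const, card_univ, Fintype.card_fin, smul_eq_mul]

end W09h1
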