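import Pool.Agent.W_09e4ca_h1.PU1
import Pool.Agent.W_09e4ca_h1.PU2

/-!
# The minimum size of unrestricted sumsets
-/

namespace W09h1

open Finset MvPolynomial W_MP_09e4ca_co

/-- `coeff_hfold`, `coeff_graded` with `W = 1`, `exists_exps`, `coeff_multinomial`. -/
theorem hfold_lower {p k h : ℕ} (hp : p.Prime) (hh : 1 ≤ h) (A : Finset (ZMod (p ^ k)))
    (hA : 1 ≤ #A) : ∃ s ≤ k, (h * ((#A - 1) / p ^ s) + 1) * p ^ s ≤ #(hfold A h) := by
  have hne : NeZero (p ^ k) := ⟨(pow_pos hp.pos k).ne'⟩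
  have hAk : #A ≤ p ^ k := by
    have := card_le_univ A
    rwa [ZMod.card] at this
  obtain ⟨s, hs, lam, hlam, hsum⟩ := exists_exps (h := h) (k := k) hp hh hA hAk
  refine ⟨s, hs, ?_⟩
  by_contra hcon
  push Not at hcon
  have hN : #(hfold A h) ≤ (h * ((#A - 1) / p ^ s) + 1) * p ^ s - 1 := by omega
  have h1 := coeff_hfold hp A hN (Finsupp.equivFunOnFinite.symm lam) (fun i => hlam i)
  have hs0 := hsum 0
  simp only [pow_zero, Nat.div_one] at hs0
  have h2 := coeff_graded (F := ZMod p) (N := (h * ((#A - 1) / p ^ s) + 1) * p ^ s - 1) (w := 0) 1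
    (isHomogeneous_one _ _) (Finsupp.equivFunOnFinite.symm lam) (by
      rw [add_zero]
      exact hs0)
  rw [mul_one, mul_one, h1] at h2
  exact coeff_multinomial hp (Finsupp.equivFunOnFinite.symm lam) (fun j => hsum j) h2.symm

end W09h1
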