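import Pool.Agent.W_09e4ca_h1.Defs
import Pool.Agent.W_MP_09e4ca_h33.Lev
import Pool.Agent.W_MP_09e4ca_h33.LevA
import Pool.Agent.W_MP_09e4ca_h33.UpA

/-!
# Upper bounds in `ZMod n` for the divisors of `n`

The file `W_MP_09e4ca_h33/UpD.lean` proves the same in `ZMod p × ZMod q` (with `m ≤ p`); it only uses
that the first coordinate is additive and that `x ↦ (x.1.val, x.2.val)` is a bijection onto
`[0, p) × [0, q)`. Here `n = N * q`, the level of `x : ZMod n` is `x.val % N` (additive modulo `N`), and
the second coordinate is `x.val / N`.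
-/

namespace W09h1

open Finset W09h33 W_MP_09e4ca_co

/-- the level. -/
def lv (N : ℕ) {n : ℕ} (x : ZMod n) : ℕ := x.val % N

/-- the full levels `0, …, c - 1` and `k` elements of level `c`. -/
def lvA (N n c k : ℕ) [NeZero n] : Finset (ZMod n) :=
  univ.filter fun x => lv N x < c ∨ (lv N x = c ∧ x.val / N < k)

private lemma Up_pos {N q n : ℕ} [NeZero n] (hn : n = N * q) : 0 < N ∧ 0 < q := by
  have h0 : 0 < n := Nat.pos_of_ne_zero (NeZero.ne n)
  rw [hn] at h0
  exact ⟨Nat.pos_of_mul_pos_right h0, Nat.pos_of_mul_pos_left h0⟩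

private lemma Up_div_lt {N q n : ℕ} [NeZero n] (hn : n = N * q) (x : ZMod n) : x.val / N < q := by
  have h1 := ZMod.val_lt x
  rw [Nat.div_lt_iff_lt_mul (Up_pos hn).1, mul_comm q N, ← hn]
  exact h1

theorem card_lev {N q n j : ℕ} [NeZero n] (hn : n = N * q) (hj : j < N) (k : ℕ) (hk : k ≤ q) :
    #{x : ZMod n | lv N x = j ∧ x.val / N < k} = k := by
  classical
  have hN := (Up_pos hn).1
  have h1 : ({x : ZMod n | lv N x = j ∧ x.val / N < k} : Finset (ZMod n)).image ZMod.val
      = (range k).image fun i => j + N * i := by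
    ext y
    simp only [mem_image, mem_filter, mem_univ, true_and, mem_range, lv]
    constructor
    · rintro ⟨x, ⟨hx1, hx2⟩, rfl⟩
      refine ⟨x.val / N, hx2, ?_⟩
      rw [← hx1]
      exact Nat.mod_add_div _ _
    · rintro ⟨i, hi, rfl⟩
      have hlt : j + N * i < n := by
        rw [hn]
        calc j + N * i < N + N * i := by omega
          _ = N * (i + 1) := by ring
          _ ≤ N * q := Nat.mul_le_mul_left N (by omega)
      refine ⟨((j + N * i : ℕ) : ZMod n), ?_, ZMod.val_cast_of_lt hlt⟩
      rw [ZMod.val_cast_of_lt hlt]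
      constructor
      · rw [Nat.add_mul_mod_self_left, Nat.mod_eq_of_lt hj]
      · rw [Nat.add_mul_div_left _ _ hN, Nat.div_eq_of_lt hj]
        omega
  rw [← card_image_of_injective _ (ZMod.val_injective n), h1, card_image_of_injective, card_range]
  intro a b hab
  simp only at hab
  have : N * a = N * b := by omega
  exact Nat.eq_of_mul_eq_mul_left hN this

/-- The sum of the levels determines the level of the sum modulo `N`. -/
theorem lv_sum {N q n : ℕ} [NeZero n] (hn : n = N * q) (S : Finset (ZMod n)) :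
    lv N (∑ x ∈ S, x) = (∑ x ∈ S, lv N x) % N := by
  classical
  have hd : N ∣ n := ⟨q, hn⟩
  unfold lv
  induction S using Finset.induction_on with
  | empty => simp
  | insert a s ha ih =>
    rw [sum_insert ha, sum_insert ha, ZMod.val_add, Nat.mod_mod_of_dvd _ hd, Nat.add_mod, ih,
      Nat.add_mod_mod]

private lemma Up_card_lv {N q n : ℕ} [NeZero n] (hn : n = N * q) (j : ℕ) :
    #{x : ZMod n | lv N x = j} ≤ q := by
  rcases Nat.lt_or_ge j N with hj | hj
  · have h1 := card_lev hn hj q le_rfl
    have h2 : (univ.filter fun x : ZMod n => lv N x = j) =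
        univ.filter fun x : ZMod n => lv N x = j ∧ x.val / N < q := by
      refine filter_congr fun x _ => ?_
      exact ⟨fun h => ⟨h, Up_div_lt hn x⟩, fun h => h.1⟩
    rw [h2, h1]
  · have h2 : ({x : ZMod n | lv N x = j} : Finset (ZMod n)) = ∅ := by
      rw [filter_eq_empty_iff]
      intro x _ hx
      have : lv N x < N := Nat.mod_lt _ (Up_pos hn).1
      omega
    rw [h2]
    simp

/-- The elements whose level is in a set of `w` residues. -/
theorem card_lv_mem {N q n : ℕ} [NeZero n] (hn : n = N * q) (T : Finset ℕ) :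
    #{x : ZMod n | lv N x ∈ T} ≤ #T * q := by
  classical
  have h1 : ({x : ZMod n | lv N x ∈ T} : Finset (ZMod n)) =
      T.biUnion fun j => {x : ZMod n | lv N x = j} := by
    ext x
    simp
  rw [h1]
  exact card_biUnion_le_card_mul _ _ _ fun j _ => Up_card_lv hn j

private lemma Up_mem_lvA {N n c k : ℕ} [NeZero n] {x : ZMod n} :
    x ∈ lvA N n c k ↔ (lv N x < c ∨ (lv N x = c ∧ x.val / N < k)) := by
  simp [lvA]

private lemma Up_card_lev_lt {N q n c k : ℕ} [NeZero n] (hn : n = N * q) (hc : c ≤ N) {j : ℕ}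
    (hj : j < c) : ((lvA N n c k).filter fun x => lv N x = j).card = q := by
  classical
  rw [← card_lev hn (lt_of_lt_of_le hj hc) q le_rfl]
  congr 1
  ext x
  simp only [mem_filter, Up_mem_lvA, mem_univ, true_and]
  constructor
  · rintro ⟨-, h⟩
    exact ⟨h, Up_div_lt hn x⟩
  · rintro ⟨h, -⟩
    exact ⟨Or.inl (by omega), h⟩

private lemma Up_card_lev_eq {N q n c k : ℕ} [NeZero n] (hn : n = N * q)
    (hc : c < N ∨ (c = N ∧ k = 0)) (hk : k ≤ q) :
    ((lvA N n c k).filter fun x => lv N x = c).card = k := by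
  classical
  rcases hc with hc | ⟨-, rfl⟩
  · conv_rhs => rw [← card_lev hn hc k hk]
    congr 1
    ext x
    simp only [mem_filter, Up_mem_lvA, mem_univ, true_and]
    constructor
    · rintro ⟨h1 | h1, h⟩
      · omega
      · exact h1
    · rintro h
      exact ⟨Or.inr h, h.1⟩
  · rw [card_eq_zero, filter_eq_empty_iff]
    intro x hx h
    rcases Up_mem_lvA.1 hx with h1 | h1
    · omega
    · exact absurd h1.2 (Nat.not_lt_zero _)

private lemma Up_lev_le {N n c k : ℕ} [NeZero n] {x : ZMod n}
    (hx : x ∈ lvA N n c k) : lv N x ≤ c := by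
  rcases Up_mem_lvA.1 hx with h | h
  · exact h.le
  · exact h.1.le

private lemma Up_card_lev_gt {N n c k : ℕ} [NeZero n] {j : ℕ} (hj : c < j) :
    ((lvA N n c k).filter fun x => lv N x = j).card = 0 := by
  rw [card_eq_zero, filter_eq_empty_iff]
  intro x hx h
  have := Up_lev_le hx
  omega

private lemma Up_card_lev_le {N q n c k : ℕ} [NeZero n] (hn : n = N * q)
    (hc : c < N ∨ (c = N ∧ k = 0)) (hk : k ≤ q) (j : ℕ) :
    ((lvA N n c k).filter fun x => lv N x = j).card ≤ q := by
  rcases lt_trichotomy j c with h | h | h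
  · exact (Up_card_lev_lt hn (by omega) h).le
  · subst h
    rw [Up_card_lev_eq hn hc hk]; exact hk
  · rw [Up_card_lev_gt h]; exact Nat.zero_le _

private lemma Up_card_lvA {N q n c k : ℕ} [NeZero n] (hn : n = N * q)
    (hc : c < N ∨ (c = N ∧ k = 0)) (hk : k ≤ q) :
    (lvA N n c k).card = q * c + k := by
  classical
  rw [card_eq_sum_card_fiberwise (f := fun x : ZMod n => lv N x) (t := range (c + 1))]
  · rw [sum_range_succ, Up_card_lev_eq hn hc hk]
    rw [sum_congr rfl (fun j hj => Up_card_lev_lt hn (by omega) (mem_range.1 hj))]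
    rw [sum_const, card_range, smul_eq_mul, mul_comm]
  · intro x hx
    have := Up_lev_le (mem_coe.1 hx)
    simp only [coe_range, Set.mem_Iio]
    omega

private lemma Up_two_tri (q e : ℕ) : 2 * ∑ j ∈ range e, q * (e - j) = q * (e * (e + 1)) := by
  rw [← mul_sum]
  have h1 : ∑ j ∈ range e, (e - j) = ∑ j ∈ range e, (j + 1) := by
    rw [← sum_range_reflect (fun j => j + 1) e]
    refine sum_congr rfl fun j hj => ?_
    have := mem_range.1 hj
    omega
  have h2 : 2 * ∑ j ∈ range e, (j + 1) = e * (e + 1) := by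
    clear h1
    induction e with
    | zero => simp
    | succ n ih =>
      rw [sum_range_succ, mul_add, ih]
      ring
  rw [h1, mul_left_comm, h2]

private lemma Up_two_tri_k (q k e : ℕ) :
    2 * ∑ j ∈ range e, (if j = 0 then k else q) * (e - j) = 2 * (k * e) + q * (e * (e - 1)) := by
  cases e with
  | zero => simp
  | succ n =>
    rw [sum_range_succ', mul_add]
    have h1 : ∑ j ∈ range n, (if j + 1 = 0 then k else q) * (n + 1 - (j + 1))
        = ∑ j ∈ range n, q * (n - j) := by
      refine sum_congr rfl fun j _ => ?_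
      rw [if_neg (Nat.succ_ne_zero j)]
      congr 1
      omega
    rw [h1, Up_two_tri]
    simp only [if_true, Nat.sub_zero, Nat.add_sub_cancel]
    ring

/-- The upper bound with the defect, `q ∣ n`. If `delta = 0` use `W09h33.upper_ap`. If `m = n` then
`#(restr A h) ≤ n` and the claim is an inequality between numbers (or the proof of the case `m < n`
works as well). Otherwise see `W09h33.upper_delta`. -/
theorem upper_delta {n q : ℕ} [NeZero n] (hq : q ∣ n) (m h : ℕ) (h1 : 1 ≤ h) (h2 : h < m)
    (h3 : m ≤ n) :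
    ∃ A : Finset (ZMod n), #A = m ∧ #(restr A h) + delta q m h ≤ h * (m - h) + 1 := by
  classical
  rcases Nat.eq_zero_or_pos (delta q m h) with hd0 | hd
  · obtain ⟨A, hA1, hA2⟩ := upper_ap n m h h3 h2.le
    refine ⟨A, hA1, ?_⟩
    rw [hd0, add_zero]
    exact hA2
  obtain ⟨N, hn'⟩ := hq
  have hn : n = N * q := by rw [hn', mul_comm]
  have hq0 : 0 < q := (Up_pos hn).2
  suffices hsuff : ∃ A : Finset (ZMod n), A.card = m ∧ (rs A h).card + delta q m h ≤
      h * (m - h) + 1 from hsuff
  obtain ⟨c, hcdef⟩ : ∃ c, c = m / q := ⟨_, rfl⟩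
  obtain ⟨k, hkdef⟩ : ∃ k, k = m % q := ⟨_, rfl⟩
  obtain ⟨c', hc'def⟩ : ∃ c', c' = h / q := ⟨_, rfl⟩
  obtain ⟨r, hrdef⟩ : ∃ r, r = h % q := ⟨_, rfl⟩
  have hm : m = q * c + k := by rw [hcdef, hkdef]; exact (Nat.div_add_mod m q).symm
  have hh : h = q * c' + r := by rw [hc'def, hrdef]; exact (Nat.div_add_mod h q).symm
  have hk : k < q := by rw [hkdef]; exact Nat.mod_lt _ hq0
  have hr : r < q := by rw [hrdef]; exact Nat.mod_lt _ hq0
  have hcN : c ≤ N := by
    have h4 : q * c ≤ q * N := by
      rw [mul_comm q N, ← hn]; omega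
    exact Nat.le_of_mul_le_mul_left h4 hq0
  have hcp : c < N ∨ (c = N ∧ k = 0) := by
    rcases Nat.lt_or_ge c N with h4 | h4
    · exact Or.inl h4
    · right
      have h5 : c = N := le_antisymm hcN h4
      refine ⟨h5, ?_⟩
      rw [h5, mul_comm q N, ← hn] at hm
      omega
  obtain ⟨e, he⟩ : ∃ e, (r ≤ k ∧ e = c') ∨ (k < r ∧ e = c' + 1) := by
    rcases le_or_gt r k with h4 | h4
    · exact ⟨c', Or.inl ⟨h4, rfl⟩⟩
    · exact ⟨c' + 1, Or.inr ⟨h4, rfl⟩⟩
  obtain ⟨hec, W, hW1, hW2⟩ := levels_arith q m h c k c' r e hq0 hk hr hm hh h2.le he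
  set A := lvA N n c k with hA
  have hcard : A.card = m := by rw [hA, Up_card_lvA hn hcp hk.le, hm]
  obtain ⟨T1, hT1⟩ : ∃ T1, T1 = ∑ j ∈ range c', q * (c' - j) := ⟨_, rfl⟩
  obtain ⟨T2, hT2⟩ : ∃ T2, T2 = ∑ j ∈ range e, (if j = 0 then k else q) * (e - j) := ⟨_, rfl⟩
  have hT1' : 2 * T1 = q * (c' * (c' + 1)) := by rw [hT1, Up_two_tri]
  have hT2' : 2 * T2 = 2 * (k * e) + q * (e * (e - 1)) := by rw [hT2, Up_two_tri_k]
  have hWT : h * (c - e) + T2 + T1 = W + h * c' := by
    have h4 : 2 * (h * (c - e) + k * e) = 2 * (h * (c - e)) + 2 * (k * e) := by ring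
    omega
  -- bounds for the level sums
  have hlow : ∀ S ⊆ A, S.card = h → h * c' ≤ ∑ x ∈ S, lv N x + T1 := by
    intro S hS hSh
    have h4 := levels_lower A (fun x : ZMod n => lv N x) (fun _ => q)
      (fun j => Up_card_lev_le hn hcp hk.le j) S hS c'
    rw [hSh, ← hT1] at h4
    exact h4
  have hup : ∀ S ⊆ A, S.card = h → ∑ x ∈ S, lv N x ≤ h * (c - e) + T2 := by
    intro S hS hSh
    have h4 := levels_lower A (fun x : ZMod n => c - lv N x)
      (fun j => if j = 0 then k else q) ?_ S hS e
    · rw [hSh, ← hT2] at h4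
      have h5 : ∑ x ∈ S, (c - lv N x) + ∑ x ∈ S, lv N x = h * c := by
        rw [← sum_add_distrib, ← hSh, ← smul_eq_mul, ← sum_const]
        refine sum_congr rfl fun x hx => ?_
        exact Nat.sub_add_cancel (Up_lev_le (hS hx))
      have h6 : h * c = h * (c - e) + h * e := by
        rw [← mul_add, Nat.sub_add_cancel hec]
      omega
    · intro j
      by_cases hj : j = 0
      · subst hj
        rw [if_pos rfl]
        have h5 : (A.filter fun x => c - lv N x = 0) = A.filter fun x => lv N x = c := by
          refine filter_congr fun x hx => ?_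
          have := Up_lev_le hx
          omega
        rw [h5, hA, Up_card_lev_eq hn hcp hk.le]
      · rw [if_neg hj]
        refine le_trans (card_le_card ?_) (Up_card_lev_le (c := c) (k := k) hn hcp hk.le (c - j))
        intro x hx
        rw [mem_filter] at hx ⊢
        refine ⟨hx.1, ?_⟩
        have := Up_lev_le hx.1
        omega
  have hTle : T1 ≤ h * c' := by
    -- from the lower bound for some set of `h` elements
    obtain ⟨S, hS, hSh⟩ := exists_subset_card_eq (s := A) (n := h) (by rw [hcard]; exact h2.le)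
    have h4 : 2 * T1 ≤ 2 * (h * c') := by
      rw [hT1', hh]
      rcases Nat.eq_zero_or_pos c' with h5 | h5
      · subst h5; simp
      · have h6 : c' + 1 ≤ 2 * c' := by omega
        calc q * (c' * (c' + 1)) ≤ q * (c' * (2 * c')) := by gcongr
          _ ≤ 2 * ((q * c' + r) * c') := by
            have : q * (c' * (2 * c')) = 2 * ((q * c') * c') := by ring
            rw [this]
            gcongr
            omega
    omega
  obtain ⟨M, hM⟩ : ∃ M, M + T1 = h * c' := ⟨h * c' - T1, Nat.sub_add_cancel hTle⟩
  have hlow' : ∀ S ⊆ A, S.card = h → M ≤ ∑ x ∈ S, lv N x := by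
    intro S hS hSh
    have := hlow S hS hSh
    omega
  have hup' : ∀ S ⊆ A, S.card = h → ∑ x ∈ S, lv N x ≤ M + W := by
    intro S hS hSh
    have := hup S hS hSh
    omega
  refine ⟨A, hcard, ?_⟩
  by_cases hkr : k = 0 ∧ r = 0
  · -- case (2)
    obtain ⟨hk0, hr0⟩ := hkr
    have hdel : delta q m h = q - 1 := by
      unfold delta
      rw [if_pos ⟨hkdef ▸ hk0, hrdef ▸ hr0⟩]
    have hrho : rho q m h = 0 := by
      unfold rho
      rw [← hkdef, ← hrdef, hk0, hr0]
      simp
    have hec' : e = c' := by
      rcases he with h4 | h4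
      · exact h4.2
      · omega
    subst hk0
    subst hr0
    subst hec'
    rw [hrho, add_zero] at hW2
    have hWpos : 1 ≤ W := by
      by_contra hcon
      have h4 : W = 0 := by omega
      rw [h4, mul_zero] at hW2
      have h5 : 0 < h * (m - h) := Nat.mul_pos (by omega) (by omega)
      omega
    have hhe : h = q * e := by omega
    have he1 : 1 ≤ e := by
      by_contra hcon
      have h4 : e = 0 := by omega
      rw [h4, mul_zero] at hhe
      omega
    have hT12 : T1 = T2 + h := by
      have h4 : q * (e * (e + 1)) = q * (e * (e - 1)) + 2 * h := by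
        obtain ⟨x, rfl⟩ := Nat.exists_eq_add_of_le he1
        rw [hhe]
        have h5 : 1 + x - 1 = x := by omega
        rw [h5]; ring
      omega
    have hlc : ∀ x ∈ A, lv N x + 1 ≤ c := by
      intro x hx
      rcases Up_mem_lvA.1 hx with h4 | h4
      · exact h4
      · exact absurd h4.2 (Nat.not_lt_zero _)
    have hE1 : ∀ S ⊆ A, S.card = h → ∑ x ∈ S, lv N x = M → S = A.filter fun x => lv N x < e := by
      intro S hS hSh hL
      apply levels_eq A (fun x : ZMod n => lv N x) q e
      · intro j hj
        exact Up_card_lev_lt hn hcN (lt_of_lt_of_le hj hec)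
      · exact hS
      · rw [hSh, hhe]
      · rw [hSh, hL, ← hT1]
        exact hM.symm
    have hE2 : ∀ S ⊆ A, S.card = h → ∑ x ∈ S, lv N x = M + W →
        S = A.filter fun x => c - 1 - lv N x < e := by
      intro S hS hSh hL
      apply levels_eq A (fun x : ZMod n => c - 1 - lv N x) q e
      · intro j hj
        have h4 : (A.filter fun x => c - 1 - lv N x = j)
            = A.filter fun x => lv N x = c - 1 - j := by
          refine filter_congr fun x hx => ?_
          have := hlc x hx
          omega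
        rw [h4]
        exact Up_card_lev_lt hn hcN (by omega)
      · exact hS
      · rw [hSh, hhe]
      · rw [hSh, ← hT1]
        have h5 : ∑ x ∈ S, (c - 1 - lv N x) + ∑ x ∈ S, lv N x = h * (c - 1) := by
          rw [← sum_add_distrib, ← hSh, ← smul_eq_mul, ← sum_const]
          refine sum_congr rfl fun x hx => ?_
          have := hlc x (hS hx)
          omega
        have h6 : h * (c - 1) + h = h * (c - e) + h * e := by
          rw [← mul_add, Nat.sub_add_cancel hec]
          have h7 : c = (c - 1) + 1 := by omega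
          conv_rhs => rw [h7]
          ring
        omega
    set T : Finset ℕ := (range (W - 1)).image fun j => (M + 1 + j) % N with hT
    have hsub : rs A h ⊆ {∑ x ∈ A.filter (fun x => lv N x < e), x,
        ∑ x ∈ A.filter (fun x => c - 1 - lv N x < e), x} ∪ (univ.filter fun x : ZMod n => lv N x ∈ T) := by
      intro y hy
      obtain ⟨S, hS, hSh, rfl⟩ := mem_rs.1 hy
      have h4 := hlow' S hS hSh
      have h5 := hup' S hS hSh
      rw [mem_union, mem_insert, mem_singleton]
      by_cases h6 : ∑ x ∈ S, lv N x = M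
      · left; left
        conv_lhs => rw [hE1 S hS hSh h6]
      by_cases h7 : ∑ x ∈ S, lv N x = M + W
      · left; right
        conv_lhs => rw [hE2 S hS hSh h7]
      right
      rw [mem_filter]
      refine ⟨mem_univ _, ?_⟩
      rw [hT, mem_image]
      refine ⟨∑ x ∈ S, lv N x - (M + 1), ?_, ?_⟩
      · rw [mem_range]; omega
      · rw [lv_sum hn]
        congr 1
        omega
    have hc1 := card_le_card hsub
    have hc2 : T.card ≤ W - 1 := by
      refine le_trans card_image_le ?_
      rw [card_range]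
    have hc3 : (({∑ x ∈ A.filter (fun x => lv N x < e), x,
        ∑ x ∈ A.filter (fun x => c - 1 - lv N x < e), x} : Finset (ZMod n)) ∪
        (univ.filter fun x : ZMod n => lv N x ∈ T)).card ≤ 2 + (W - 1) * q := by
      refine le_trans (card_union_le _ _) ?_
      refine Nat.add_le_add card_le_two ?_
      exact (card_lv_mem hn T).trans (Nat.mul_le_mul_right q hc2)
    have hc4 : (W - 1) * q + q = h * (m - h) := by
      rw [← hW2]
      obtain ⟨x, rfl⟩ := Nat.exists_eq_add_of_le hWpos
      have h5 : 1 + x - 1 = x := by omega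
      rw [h5]; ring
    rw [hdel]
    omega
  · -- case (1)
    have hdel : delta q m h = rho q m h - (q - 1) := by
      unfold delta
      rw [if_neg]
      rw [← hkdef, ← hrdef]
      exact hkr
    set T : Finset ℕ := (range (W + 1)).image fun j => (M + j) % N with hT
    have hsub : rs A h ⊆ ({x : ZMod n | lv N x ∈ T} : Finset (ZMod n)) := by
      intro y hy
      obtain ⟨S, hS, hSh, rfl⟩ := mem_rs.1 hy
      have h4 := hlow' S hS hSh
      have h5 := hup' S hS hSh
      rw [mem_filter]
      refine ⟨mem_univ _, ?_⟩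
      rw [hT, mem_image]
      refine ⟨∑ x ∈ S, lv N x - M, ?_, ?_⟩
      · rw [mem_range]; omega
      · rw [lv_sum hn]
        congr 1
        omega
    have hc1 := card_le_card hsub
    have hc2 : T.card ≤ W + 1 := by
      refine le_trans card_image_le ?_
      rw [card_range]
    have hc3 : ({x : ZMod n | lv N x ∈ T} : Finset (ZMod n)).card ≤ (W + 1) * q := by
      exact (card_lv_mem hn T).trans (Nat.mul_le_mul_right q hc2)
    have hc4 : (W + 1) * q = q * W + q := by ring
    rw [hdel] at hd ⊢
    omega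

end W09h1
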