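import Pool.Agent.W_09e4ca_h1.Defs

/-!
# Upper bound for the unrestricted sumset, `q ∣ n`
-/

namespace W09h1

open Finset W_MP_09e4ca_co

/-- `n = N q`, `C = (m - 1) / q + 1 ≤ N`, `A ⊆ {x : x.val % N < C}` with `m` elements (the latter set
has `C q ≥ m` elements). Then `hfold A h ⊆ {x : x.val % N ∈ {j % N : j ≤ h (C - 1)}}`. Compare
`W_MP_09e4ca_h33/UpC.lean` (`upper_us`) for the case `ZMod p × ZMod q`. -/
theorem hfold_upper {n q : ℕ} [NeZero n] (hq : q ∣ n) (m h : ℕ) (hm : 1 ≤ m) (hmn : m ≤ n) :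
    ∃ A : Finset (ZMod n), #A = m ∧ #(hfold A h) ≤ (h * ((m - 1) / q) + 1) * q := by
  obtain ⟨N, hN⟩ := hq
  have hn0 : n ≠ 0 := NeZero.ne n
  have hq0 : 0 < q := by
    rcases Nat.eq_zero_or_pos q with h0 | h0
    · rw [h0, zero_mul] at hN; exact absurd hN hn0
    · exact h0
  obtain ⟨c, hc⟩ : ∃ c, c = (m - 1) / q := ⟨_, rfl⟩
  rw [← hc]
  have hcN : c < N := by
    rw [hc]
    exact Nat.div_lt_of_lt_mul (by rw [← hN]; omega)
  have hmC : m ≤ (c + 1) * q := by
    have h1 := Nat.div_add_mod (m - 1) q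
    have h2 := Nat.mod_lt (m - 1) hq0
    rw [← hc] at h1
    have h3 : (c + 1) * q = q * c + q := by ring
    omega
  let f : ℕ × ℕ → ZMod n := fun p => ((p.1 + N * p.2 : ℕ) : ZMod n)
  have hlt : ∀ p ∈ range (c + 1) ×ˢ range q, p.1 < N ∧ p.1 + N * p.2 < n := by
    intro p hp
    rw [mem_product, mem_range, mem_range] at hp
    have h1 : p.1 < N := by omega
    refine ⟨h1, ?_⟩
    have h2 : N * (p.2 + 1) ≤ N * q := Nat.mul_le_mul_left _ hp.2
    rw [hN, mul_comm q N]
    rw [mul_add, mul_one] at h2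
    omega
  have hinj : Set.InjOn f (range (c + 1) ×ˢ range q : Finset (ℕ × ℕ)) := by
    intro p hp p' hp' hpp
    have h1 := hlt p (mem_coe.1 hp)
    have h2 := hlt p' (mem_coe.1 hp')
    have h3 := (ZMod.natCast_eq_natCast_iff' _ _ n).1 hpp
    rw [Nat.mod_eq_of_lt h1.2, Nat.mod_eq_of_lt h2.2] at h3
    have h4 : p.1 = p'.1 := by
      have h5 := congrArg (fun x => x % N) h3
      simp only [Nat.add_mul_mod_self_left] at h5
      rwa [Nat.mod_eq_of_lt h1.1, Nat.mod_eq_of_lt h2.1] at h5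
    have hN0 : 0 < N := by omega
    have h6 : N * p.2 = N * p'.2 := by omega
    exact Prod.ext h4 (Nat.eq_of_mul_eq_mul_left hN0 h6)
  have hLc : #((range (c + 1) ×ˢ range q).image f) = (c + 1) * q := by
    rw [card_image_of_injOn hinj, card_product, card_range, card_range]
  obtain ⟨A, hA, hAc⟩ := Finset.exists_subset_card_eq
    (s := (range (c + 1) ×ˢ range q).image f) (n := m) (by rw [hLc]; exact hmC)
  refine ⟨A, hAc, ?_⟩
  have hsub : hfold A h ⊆ (range (h * c + 1) ×ˢ range q).image f := by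
    intro x hx
    obtain ⟨a, ha, rfl⟩ := mem_hfold.1 hx
    have h0 : ∀ i, ∃ p ∈ range (c + 1) ×ˢ range q, f p = a i := fun i => by
      have h1 := hA (ha i)
      rw [mem_image] at h1
      exact h1
    choose p hp1 hp2 using h0
    refine mem_image.2 ⟨(∑ i, (p i).1, (∑ i, (p i).2) % q), ?_, ?_⟩
    · rw [mem_product, mem_range, mem_range]
      refine ⟨?_, Nat.mod_lt _ hq0⟩
      have h1 : ∑ i, (p i).1 ≤ ∑ _i : Fin h, c := sum_le_sum fun i _ => by
        have := (mem_product.1 (hp1 i)).1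
        rw [mem_range] at this
        omega
      rw [sum_const, card_univ, Fintype.card_fin, smul_eq_mul] at h1
      simp only
      omega
    · have h1 : ∑ i, a i = ((∑ i, (p i).1 + N * ∑ i, (p i).2 : ℕ) : ZMod n) := by
        have h2 : ∀ i, a i = (((p i).1 + N * (p i).2 : ℕ) : ZMod n) := fun i => (hp2 i).symm
        rw [sum_congr rfl fun i _ => h2 i]
        push_cast
        rw [sum_add_distrib, mul_sum]
      rw [h1]
      change ((∑ i, (p i).1 + N * ((∑ i, (p i).2) % q) : ℕ) : ZMod n) = _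
      rw [ZMod.natCast_eq_natCast_iff]
      refine Nat.ModEq.add_left _ ?_
      rw [hN, mul_comm q N]
      exact Nat.ModEq.mul_left' N (Nat.mod_modEq _ _)
  refine (card_le_card hsub).trans (card_image_le.trans ?_)
  rw [card_product, card_range, card_range]

/-- `restr A h ⊆ hfold A h`. -/
theorem restr_subset_hfold {n : ℕ} (A : Finset (ZMod n)) (h : ℕ) : restr A h ⊆ hfold A h := by
  intro x hx
  obtain ⟨s, hs, hsc, rfl⟩ := mem_restr.1 hx
  subst hsc
  refine mem_hfold.2 ⟨fun i => (s.equivFin.symm i : ZMod n), fun i => hs (s.equivFin.symm i).2, ?_⟩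
  rw [Equiv.sum_comp s.equivFin.symm (fun x : s => (x : ZMod n))]
  exact Finset.sum_coe_sort s (fun x => x)

end W09h1
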