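import Pool.Agent.W_09e4ca_h1.Low
import Pool.Agent.W_09e4ca_h1.PU
import Pool.Agent.W_09e4ca_h1.Up
import Pool.Agent.W_09e4ca_h1.UpU

/-!
# The values for prime powers
-/

namespace W09h1

open Finset W_MP_09e4ca_co W09h33

theorem uh_upper {p k m h s : ℕ} (hp : p.Prime) (h1 : 1 ≤ h) (h2 : h < m) (h3 : m ≤ p ^ k)
    (hs : s ≤ k) : uh (p ^ k) m h + delta (p ^ s) m h ≤ h * (m - h) + 1 := by
  have : NeZero (p ^ k) := ⟨(pow_pos hp.pos k).ne'⟩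
  obtain ⟨A, hA, hc⟩ := upper_delta (n := p ^ k) (q := p ^ s) (pow_dvd_pow p hs) m h h1 h2 h3
  have := uh_le (h := h) A hA
  omega

theorem uh_lower {p k m h : ℕ} (hp : p.Prime) (h1 : 1 ≤ h) (h2 : h < m) (h3 : m ≤ p ^ k) :
    ∃ s ≤ k, h * (m - h) + 1 ≤ uh (p ^ k) m h + delta (p ^ s) m h := by
  have : NeZero (p ^ k) := ⟨(pow_pos hp.pos k).ne'⟩
  obtain ⟨A, hA, hu⟩ := exists_uh (h := h) h3
  obtain ⟨s, hs, hl⟩ := restr_lower hp A h1 (by omega)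
  refine ⟨s, hs, ?_⟩
  rw [hA] at hl
  rw [← hu]
  exact hl

theorem u_upper {p k m h s : ℕ} (hp : p.Prime) (h1 : 1 ≤ h) (h2 : h < m) (h3 : m ≤ p ^ k)
    (hs : s ≤ k) : u (p ^ k) m h ≤ (h * ((m - 1) / p ^ s) + 1) * p ^ s := by
  have : NeZero (p ^ k) := ⟨(pow_pos hp.pos k).ne'⟩
  obtain ⟨A, hA, hc⟩ := hfold_upper (n := p ^ k) (q := p ^ s) (pow_dvd_pow p hs) m h (by omega) h3
  have hle : u (p ^ k) m h ≤ #(hfold A h) := Nat.sInf_le ⟨A, hA, rfl⟩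
  exact hle.trans hc

theorem u_lower {p k m h : ℕ} (hp : p.Prime) (h1 : 1 ≤ h) (h2 : h < m) (h3 : m ≤ p ^ k) :
    ∃ s ≤ k, (h * ((m - 1) / p ^ s) + 1) * p ^ s ≤ u (p ^ k) m h := by
  have : NeZero (p ^ k) := ⟨(pow_pos hp.pos k).ne'⟩
  obtain ⟨A, hA, hu⟩ := exists_u (h := h) h3
  obtain ⟨s, hs, hl⟩ := hfold_lower hp h1 A (by omega)
  refine ⟨s, hs, ?_⟩
  rw [hA] at hl
  rw [← hu]
  exact hl

theorem fval {m h : ℕ} (h2 : h < m) : h * m - h ^ 2 + 1 = h * (m - h) + 1 := by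
  obtain ⟨x, rfl⟩ := Nat.exists_eq_add_of_lt h2
  have e1 : h * (h + x + 1) = h ^ 2 + h * (x + 1) := by ring
  have e2 : h + x + 1 - h = x + 1 := by omega
  rw [e1, e2]
  omega

/-- The criterion. -/
theorem exc_iff {p k m h : ℕ} (hp : p.Prime) (h1 : 1 ≤ h) (h2 : h < m) (h3 : m ≤ p ^ k) :
    Exceptional (p ^ k) m h ↔ ∃ s ≤ k, 0 < delta (p ^ s) m h ∧
      ∀ j ≤ k, h * (m - h) + 1 - delta (p ^ s) m h < (h * ((m - 1) / p ^ j) + 1) * p ^ j := by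
  unfold Exceptional
  rw [fval h2, lt_min_iff]
  constructor
  · rintro ⟨hu, hf⟩
    obtain ⟨s, hs, hl⟩ := uh_lower hp h1 h2 h3
    refine ⟨s, hs, by omega, fun j hj => ?_⟩
    have := u_upper hp h1 h2 h3 hj
    omega
  · rintro ⟨s, hs, hd, hj⟩
    have hup := uh_upper hp h1 h2 h3 hs
    obtain ⟨j, hjk, hl⟩ := u_lower hp h1 h2 h3
    have := hj j hjk
    omega

/-- No exceptional triples for powers of two. -/
theorem not_exc_two {k m h : ℕ} (h1 : 1 ≤ h) (h2 : h < m) (h3 : m ≤ 2 ^ k) :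
    ¬ Exceptional (2 ^ k) m h := by
  unfold Exceptional
  rw [fval h2, lt_min_iff]
  rintro ⟨hu, hf⟩
  have : NeZero (2 ^ k) := ⟨(pow_pos (by norm_num) k).ne'⟩
  obtain ⟨A, hA, huh⟩ := exists_uh (h := h) h3
  -- `2 ^ t < m ≤ 2 ^ (t + 1)`
  obtain ⟨t, ht1, ht2⟩ : ∃ t, 2 ^ t < m ∧ m ≤ 2 ^ (t + 1) := by
    have hex : ∃ t, m ≤ 2 ^ (t + 1) := ⟨m, by
      have := @Nat.lt_two_pow_self m
      rw [pow_succ]
      omega⟩
    classical
    refine ⟨Nat.find hex, ?_, Nat.find_spec hex⟩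
    rcases Nat.eq_zero_or_pos (Nat.find hex) with h0 | h0
    · rw [h0]
      simp only [pow_zero]
      omega
    · have := Nat.find_min hex (m := Nat.find hex - 1) (by omega)
      rw [Nat.sub_add_cancel h0] at this
      omega
  have hl := two_all k A h t (by omega) (by omega)
  rw [hA, huh] at hl
  have htk : t + 1 ≤ k := by
    by_contra hcon
    have h5 : k ≤ t := by omega
    have h6 : 2 ^ k ≤ 2 ^ t := Nat.pow_le_pow_right (by norm_num) h5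
    omega
  have hup := u_upper (p := 2) (s := t + 1) Nat.prime_two h1 h2 h3 htk
  have h0 : (m - 1) / 2 ^ (t + 1) = 0 := Nat.div_eq_of_lt (by omega)
  rw [h0, mul_zero, zero_add, one_mul] at hup
  rcases min_le_iff.1 hl with h7 | h7
  · omega
  · omega

end W09h1
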