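import Pool.Agent.W_09e4ca_h1.OpC

/-!
# The full value, and the combinatorial main theorem
-/

namespace W09h1

open Finset W09h33

/-- The special boxes. -/
def Special (p a b : ℕ) : Prop := ∃ t, 1 ≤ t ∧ ((a = p ∧ b = p ^ t) ∨ (a = p ^ t ∧ b = p))

/-- For odd `p` a special box is not a core of a box with quotient `< p`. Let `d = p ^ t`, the core
`(p, p ^ τ)` or `(p ^ τ, p)`, `τ ≥ 1`, so `p + p ^ τ ≤ d` and `t ≥ 2`, `τ < t`. If the core is
`(a % d, b % d)`, then, as `a + b > d`, `a / d ≥ 1` or `b / d ≥ 1`, and `Mf ≥ b % d ≥ p` or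
`Mf ≥ a % d ≥ p`. Otherwise `Mf ≥ a % d + b % d - d = d - p - p ^ τ ≥ (p - 1) p ^ (t - 1) - p ≥ p`. -/
theorem core_not_special {p t a b : ℕ} (hp : p.Prime) (hp2 : p ≠ 2) (h1 : p ^ t < a + b)
    (hM : Mf (p ^ t) a b < p) : ¬ Special p (cx (p ^ t) a b) (cy (p ^ t) a b) := by
  rintro ⟨τ, hτ, hsp⟩
  have hp2' : 2 ≤ p := hp.two_le
  have hp3 : 3 ≤ p := by omega
  have hpτ : p ≤ p ^ τ := by
    calc p = p ^ 1 := (pow_one p).symm
      _ ≤ p ^ τ := Nat.pow_le_pow_right hp.pos hτ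
  have hd0 : 0 < p ^ t := Nat.pow_pos hp.pos
  unfold Mf at hM
  unfold cx cy at hsp
  have ha := Nat.div_add_mod a (p ^ t)
  have hb := Nat.div_add_mod b (p ^ t)
  have hα := Nat.mod_lt a hd0
  have hβ := Nat.mod_lt b hd0
  by_cases hc : a % p ^ t + b % p ^ t < p ^ t
  · rw [if_pos hc, if_pos hc] at hsp
    have hα' : p ≤ a % p ^ t := by
      rcases hsp with ⟨h2, _⟩ | ⟨h2, _⟩ <;> omega
    have hβ' : p ≤ b % p ^ t := by
      rcases hsp with ⟨_, h2⟩ | ⟨_, h2⟩ <;> omega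
    have hq : 1 ≤ a / p ^ t ∨ 1 ≤ b / p ^ t := by
      by_contra hcon
      push Not at hcon
      have e1 : a / p ^ t = 0 := Nat.lt_one_iff.mp hcon.1
      have e2 : b / p ^ t = 0 := Nat.lt_one_iff.mp hcon.2
      rw [e1, mul_zero, zero_add] at ha
      rw [e2, mul_zero, zero_add] at hb
      omega
    rcases hq with hq | hq
    · have := Nat.mul_le_mul hq hβ'
      omega
    · have := Nat.mul_le_mul hq hα'
      omega
  · rw [if_neg hc, if_neg hc] at hsp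
    have hsum : p + p ^ τ + (a % p ^ t + b % p ^ t) = 2 * p ^ t := by
      rcases hsp with ⟨h2, h3⟩ | ⟨h2, h3⟩ <;> omega
    have hle : p + p ^ τ ≤ p ^ t := by omega
    have hlt : p ^ τ < p ^ t := by omega
    have hτt : τ < t := (Nat.pow_lt_pow_iff_right hp.one_lt).mp hlt
    have h3 : 3 * p ^ τ ≤ p ^ t := by
      calc 3 * p ^ τ ≤ p * p ^ τ := Nat.mul_le_mul_right _ hp3
        _ = p ^ (τ + 1) := by rw [pow_succ, mul_comm]
        _ ≤ p ^ t := Nat.pow_le_pow_right hp.pos hτt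
    omega

end W09h1
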