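import Pool.Agent.W_09e4ca_h1.Full1
import Pool.Agent.W_09e4ca_h1.Full2
import Pool.Agent.W_09e4ca_h1.Del

/-!
# The full value, and the combinatorial main theorem
-/

namespace W09h1

open Finset W09h33

/-- Induction on `T`. If `a + b ≤ p ^ T` use the induction hypothesis. Otherwise let `t = T`,
`d = p ^ t`. If `Mf d a b ≥ p` and `(a, b)` is not special: `N = p ^ (t + 1) - 1` by `full`,
`s = t + 1`, `delta_big` and `a b ≥ Mf d a b * d ≥ p d`. If `Mf d a b < p`: let `(x, y)` be the core; if
`x = 0` or `y = 0`, then `R_zero`, `R_lift`, `s = 0`; else the induction hypothesis for `(x, y)`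
(not special by `core_not_special`), `lt_of_R`, `R_lift`, `delta_core` and `Mf_eq`. (For `t = 0`,
`d = 1` the core is `(0, 0)`.) -/
theorem comb_main {p : ℕ} (hp : p.Prime) (hp2 : p ≠ 2) (T a b : ℕ) (ha : 1 ≤ a) (hb : 1 ≤ b)
    (hab : a + b ≤ p ^ T) :
    Special p a b ∨ ∃ s ≤ T, ∃ N, R p a b N ∧ N + delta (p ^ s) (a + b) a = a * b := by
  induction T generalizing a b with
  | zero =>
    rw [pow_zero] at hab
    omega
  | succ t IH =>
    rcases Nat.lt_or_ge (p ^ t) (a + b) with hlt | hge
    · have hd0 : 0 < p ^ t := pow_pos hp.pos _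
      have hpw : p ^ (t + 1) = p * p ^ t := by rw [pow_succ, mul_comm]
      have hMeq := Mf_eq hd0 a b
      rcases Nat.lt_or_ge (Mf (p ^ t) a b) p with hM | hM
      · -- small quotient
        right
        have hxy := cx_add_cy_le hd0 a b
        by_cases h0 : cx (p ^ t) a b = 0 ∨ cy (p ^ t) a b = 0
        · refine ⟨0, Nat.zero_le _, Mf (p ^ t) a b * p ^ t, ?_, ?_⟩
          · have := R_lift hp.two_le (R_zero p (cx (p ^ t) a b) (cy (p ^ t) a b)) hd0 hM hab
            rwa [zero_add] at this
          · rw [pow_zero, delta_one, add_zero, hMeq]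
            rcases h0 with h0 | h0
            · rw [h0, zero_mul, add_zero]
            · rw [h0, mul_zero, add_zero]
        · push Not at h0
          rcases IH (cx (p ^ t) a b) (cy (p ^ t) a b) (Nat.one_le_iff_ne_zero.2 h0.1)
            (Nat.one_le_iff_ne_zero.2 h0.2) hxy with hsp | ⟨s, hs, e, hR, he⟩
          · exact absurd hsp (core_not_special hp hp2 hlt hM)
          · refine ⟨s, by omega, e + Mf (p ^ t) a b * p ^ t,
              R_lift hp.two_le hR (lt_of_R hp.two_le hR hxy) hM hab, ?_⟩
            rw [delta_core (pow_pos hp.pos s) hd0 (pow_dvd_pow p hs) a b, hMeq]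
            omega
      · -- large quotient
        by_cases hsp : 1 ≤ t ∧ ((a = p ∧ b = p ^ t) ∨ (a = p ^ t ∧ b = p))
        · exact Or.inl ⟨t, hsp.1, hsp.2⟩
        · right
          have hprod : p * p ^ t ≤ a * b := by
            calc p * p ^ t ≤ Mf (p ^ t) a b * p ^ t := Nat.mul_le_mul_right _ hM
              _ ≤ a * b := by omega
          have hfull : FullHyp p t a b := by
            rcases Nat.eq_zero_or_pos t with ht | ht
            · left
              subst ht
              rw [pow_zero, mul_one] at hprod
              exact ⟨rfl, by omega⟩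
            · right
              refine ⟨ht, hM, ?_, ?_⟩
              · intro h1
                exact hsp ⟨ht, Or.inl h1⟩
              · intro h1
                exact hsp ⟨ht, Or.inr h1⟩
          refine ⟨t + 1, le_rfl, p ^ (t + 1) - 1, full hp hp2 t a b ha hb hab hfull, ?_⟩
          rw [delta_big ha hb hab]
          omega
    · rcases IH a b ha hb hge with h | ⟨s, hs, N, h⟩
      · exact Or.inl h
      · exact Or.inr ⟨s, by omega, N, h⟩

end W09h1
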