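import Pool.Agent.W_09e4ca_h1.FullA

/-!
# The full value: the case `p < a ≤ b`, `t ≥ 2`

With `a' = max (p + 1) (d + p - b)` the box `(a', d + p - 1 - a')` has the quotient `p - 1` and the
core `(a' - p + 1, d - a')`.
-/

namespace W09h1

open Finset

/-- For `p < a'`, `2 a' ≤ d + p`, `p + 2 ≤ d`, the box `(a', d + p - 1 - a')`. Both numbers are smaller
than `d`, their sum is `d + p - 1 ≥ d`. -/
theorem fullC_core {p d a' : ℕ} (hp : 2 ≤ p) (h1 : p < a') (h2 : 2 * a' ≤ d + p) (h3 : p + 2 ≤ d) :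
    Mf d a' (d + p - 1 - a') = p - 1 ∧ cx d a' (d + p - 1 - a') = a' - p + 1 ∧
      cy d a' (d + p - 1 - a') = d - a' := by
  have e1 : a' / d = 0 := Nat.div_eq_of_lt (by omega)
  have e2 : (d + p - 1 - a') / d = 0 := Nat.div_eq_of_lt (by omega)
  have e3 : a' % d = a' := Nat.mod_eq_of_lt (by omega)
  have e4 : (d + p - 1 - a') % d = d + p - 1 - a' := Nat.mod_eq_of_lt (by omega)
  unfold Mf cx cy
  rw [e1, e2, e3, e4]
  have h4 : ¬ a' + (d + p - 1 - a') < d := by omega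
  rw [if_neg h4, if_neg h4]
  refine ⟨by omega, by omega, rfl⟩

/-- Quotients of boxes with sum `p d' - p + 1`, `d' = p ^ t`, `t ≥ 1`, `p ≥ 3`: if `x, y ≥ 2` then
`Mf d' x y ≥ p`. Write `x = q d' + α`, `y = Q d' + β`. Either `q + Q = p - 1`, `α + β = d' - p + 1`: if
`q, Q ≥ 1` then `Mf ≥ q Q d' ≥ d' ≥ p`; if `q = 0` then `Mf ≥ (p - 1) α ≥ 2 (p - 1) ≥ p`, the same
for `Q = 0`. Or `q + Q = p - 2`, `α + β = 2 d' - p + 1`, `α, β ≥ d' - p + 2` and
`Mf ≥ (p - 2) (d' - p + 2) + (d' - p + 1) ≥ 2 (p - 2) + 1 ≥ p`. -/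
theorem fullC_quot {p t x y : ℕ} (hp : 3 ≤ p) (ht : 1 ≤ t) (hx : 2 ≤ x) (hy : 2 ≤ y)
    (hxy : x + y + p = p ^ (t + 1) + 1) : p ≤ Mf (p ^ t) x y := by
  have hd : p ≤ p ^ t := Nat.le_self_pow (by omega) p
  rw [pow_succ] at hxy
  generalize p ^ t = d at *
  unfold Mf
  have hx1 := Nat.div_add_mod x d
  have hy1 := Nat.div_add_mod y d
  have hx2 := Nat.mod_lt x (show 0 < d by omega)
  have hy2 := Nat.mod_lt y (show 0 < d by omega)
  generalize x / d = q at *
  generalize y / d = Q at *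
  generalize x % d = α at *
  generalize y % d = β at *
  subst hx1
  subst hy1
  obtain ⟨r, rfl⟩ : ∃ r, p = r + 3 := ⟨p - 3, by omega⟩
  have h1 : q + Q ≤ r + 2 := by
    by_contra h
    have h2 : (r + 3) * d ≤ (q + Q) * d := Nat.mul_le_mul_right d (by omega)
    nlinarith
  have h2 : r + 1 ≤ q + Q := by
    by_contra h
    have h3 : (q + Q) * d ≤ r * d := Nat.mul_le_mul_right d (by omega)
    nlinarith
  rcases Nat.lt_or_ge (q + Q) (r + 2) with h3 | h3
  · have h4 : q + Q = r + 1 := by omega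
    have h5 : α + β + (r + 2) = 2 * d := by
      have : (q + Q) * d = (r + 1) * d := by rw [h4]
      nlinarith
    have h6 : 2 ≤ α := by omega
    have h7 : 2 ≤ β := by omega
    have h8 : q * 2 ≤ q * β := Nat.mul_le_mul_left q h7
    have h9 : Q * 2 ≤ Q * α := Nat.mul_le_mul_left Q h6
    omega
  · have h4 : q + Q = r + 2 := by omega
    have h5 : α + β + (r + 2) = d := by
      have : (q + Q) * d = (r + 2) * d := by rw [h4]
      nlinarith
    rcases Nat.eq_zero_or_pos q with hq | hq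
    · subst hq
      have h6 : 2 ≤ α := by simpa using hx
      have h7 : Q * 2 ≤ Q * α := Nat.mul_le_mul_left Q h6
      omega
    · rcases Nat.eq_zero_or_pos Q with hQ | hQ
      · subst hQ
        have h6 : 2 ≤ β := by simpa using hy
        have h7 : q * 2 ≤ q * β := Nat.mul_le_mul_left q h6
        omega
      · have h6 : 1 * d ≤ q * Q * d := Nat.mul_le_mul_right d (Nat.mul_pos hq hQ)
        omega

/-- The core satisfies the hypothesis at level `t`, `t ≥ 1`, `d = p ^ (t + 1)`. Not special: otherwise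
`p + p ^ t = p ^ (t + 1) - p + 1`, impossible modulo `p`. (`2 ≤ d - a'` as `2 a' ≤ d + p` and
`p + 4 ≤ d`: `p ^ 2 ≥ p + 6` for `p ≥ 3`.) -/
theorem fullC_hyp {p t a' : ℕ} (hp : p.Prime) (hp2 : p ≠ 2) (ht : 1 ≤ t) (h1 : p < a')
    (h2 : 2 * a' ≤ p ^ (t + 1) + p) : FullHyp p t (a' - p + 1) (p ^ (t + 1) - a') := by
  have hp3 : 3 ≤ p := by
    have := hp.two_le
    omega
  have hD : p * p ≤ p ^ (t + 1) := by
    rw [pow_succ]
    exact Nat.mul_le_mul_right p (Nat.le_self_pow (by omega) p)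
  have h3p : 3 * p ≤ p * p := Nat.mul_le_mul_right p hp3
  have hns : p + p ^ t + p ≠ p ^ (t + 1) + 1 := by
    intro h
    have d1 : p ∣ p ^ t := dvd_pow_self p (by omega)
    have d2 : p ∣ p ^ (t + 1) := dvd_pow_self p (by omega)
    have d3 : p ∣ p ^ (t + 1) + 1 := by
      rw [← h]
      exact dvd_add (dvd_add (dvd_refl p) d1) (dvd_refl p)
    have d4 : p ∣ 1 := (Nat.dvd_add_right d2).1 d3
    have := Nat.le_of_dvd one_pos d4
    omega
  right
  refine ⟨ht, fullC_quot hp3 ht (by omega) (by omega) (by omega), ?_, ?_⟩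
  · rintro ⟨h4, h5⟩
    apply hns
    omega
  · rintro ⟨h4, h5⟩
    apply hns
    omega

/-- Case `p < a ≤ b` at level `t + 1 ≥ 2`, given the theorem at level `t`. With `d = p ^ (t + 1)`:
`d + p ≤ a + b` (if `b < d` then `Mf d a b = a + b - d ≥ p`; if `b ≥ d`, then `a > p`), so
`a' = max (p + 1) (d + p - b) ≤ a`, `b' = d + p - 1 - a' ≤ b`, `2 a' ≤ d + p`. Then `fullC_core`,
`full_step`, `R_mono`. -/
theorem fullC {p t a b : ℕ} (hp : p.Prime) (hp2 : p ≠ 2) (ht : 1 ≤ t) (ha : p < a) (hab' : a ≤ b)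
    (hM : p ≤ Mf (p ^ (t + 1)) a b) (hab : a + b ≤ p ^ (t + 2))
    (IH : ∀ x y, 1 ≤ x → 1 ≤ y → x + y ≤ p ^ (t + 1) → FullHyp p t x y →
      R p x y (p ^ (t + 1) - 1)) : R p a b (p ^ (t + 2) - 1) := by
  have hp3 : 3 ≤ p := by
    have := hp.two_le
    omega
  have hD : p * p ≤ p ^ (t + 1) := by
    rw [pow_succ]
    exact Nat.mul_le_mul_right p (Nat.le_self_pow (by omega) p)
  have h3p : 3 * p ≤ p * p := Nat.mul_le_mul_right p hp3
  have hpD : p ^ (t + 2) = p ^ (t + 1) * p := pow_succ _ _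
  have hpD' : p ^ (t + 1) * 3 ≤ p ^ (t + 1) * p := Nat.mul_le_mul_left _ hp3
  have hsum : p ^ (t + 1) + p ≤ a + b := by
    rcases Nat.lt_or_ge b (p ^ (t + 1)) with hb | hb
    · unfold Mf at hM
      rw [Nat.div_eq_of_lt hb, Nat.div_eq_of_lt (lt_of_le_of_lt hab' hb), Nat.mod_eq_of_lt hb,
        Nat.mod_eq_of_lt (lt_of_le_of_lt hab' hb)] at hM
      omega
    · omega
  obtain ⟨a', ha'⟩ : ∃ a', a' = max (p + 1) (p ^ (t + 1) + p - b) := ⟨_, rfl⟩
  have h1 : p < a' := by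
    rw [ha']
    exact lt_of_lt_of_le (Nat.lt_succ_self p) (le_max_left _ _)
  have h2 : p ^ (t + 1) + p - b ≤ a' := by
    rw [ha']
    exact le_max_right _ _
  have h3 : a' ≤ a := by
    rw [ha']
    exact max_le (by omega) (by omega)
  have h4 : 2 * a' ≤ p ^ (t + 1) + p := by
    rcases le_total (p + 1) (p ^ (t + 1) + p - b) with h | h
    · rw [max_eq_right h] at ha'
      omega
    · rw [max_eq_left h] at ha'
      omega
  obtain ⟨c1, c2, c3⟩ := fullC_core (p := p) (d := p ^ (t + 1)) (a' := a') (by omega) h1 h4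
    (by omega)
  have hR : R p a' (p ^ (t + 1) + p - 1 - a') (p ^ (t + 1 + 1) - 1) := by
    apply full_step (by omega) _ c1
    · rw [c2, c3]
      apply IH _ _ (by omega) (by omega) (by omega)
      exact fullC_hyp hp hp2 ht h1 h4
    · change a' + (p ^ (t + 1) + p - 1 - a') ≤ p ^ (t + 2)
      omega
  exact R_mono hR h3 (by omega)

end W09h1
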