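import Pool.Agent.W_09e4ca_h1.FullB
import Pool.Agent.W_09e4ca_h1.FullC

/-!
# The full value, and the combinatorial main theorem
-/

namespace W09h1

open Finset W09h33

private theorem Full1_small {d a b : ℕ} (ha : a < d) (hb : b < d) : Mf d a b = a + b - d := by
  unfold Mf
  rw [Nat.div_eq_of_lt ha, Nat.div_eq_of_lt hb, Nat.mod_eq_of_lt ha, Nat.mod_eq_of_lt hb]
  simp

private theorem Full1_aux {p : ℕ} (hp : p.Prime) (hp2 : p ≠ 2) (t : ℕ)
    (IH : ∀ x y, 1 ≤ x → 1 ≤ y → x + y ≤ p ^ (t + 1) → FullHyp p t x y →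
      R p x y (p ^ (t + 1) - 1)) (a b : ℕ) (ha : 1 ≤ a) (hle : a ≤ b)
    (hab : a + b ≤ p ^ (t + 2)) (hM : p ≤ Mf (p ^ (t + 1)) a b)
    (hs : ¬ (a = p ∧ b = p ^ (t + 1))) : R p a b (p ^ (t + 2) - 1) := by
  have hp2' : 2 ≤ p := hp.two_le
  have hd0 : 0 < p ^ (t + 1) := pow_pos hp.pos _
  have hpd : p ≤ p ^ (t + 1) := by
    calc p = p ^ 1 := (pow_one p).symm
      _ ≤ p ^ (t + 1) := Nat.pow_le_pow_right hp.pos (by omega)
  have hpw : p ^ (t + 2) = p * p ^ (t + 1) := by rw [pow_succ p (t + 1), mul_comm]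
  rcases Nat.lt_or_ge a 2 with ha1 | ha2
  · -- `a = 1`
    exfalso
    have ha' : a = 1 := by omega
    subst ha'
    have h1 := Mf_eq hd0 1 b
    rw [one_mul] at h1
    have h2 : p * p ^ (t + 1) ≤ Mf (p ^ (t + 1)) 1 b * p ^ (t + 1) := Nat.mul_le_mul_right _ hM
    omega
  rcases lt_trichotomy a p with hap | hap | hap
  · exact fullB hp ha2 hap hM hab IH
  · rcases Nat.eq_zero_or_pos t with ht | ht
    · subst ht
      rw [zero_add, pow_one] at hs
      have hb : p + 1 ≤ b := by
        by_contra hcon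
        exact hs ⟨hap, by omega⟩
      have := R_mono (full_one hp2') (a' := a) (b' := b) (by omega) hb
      simpa using this
    · have hlt : p < p ^ (t + 1) := by
        calc p = p ^ 1 := (pow_one p).symm
          _ < p ^ (t + 1) := Nat.pow_lt_pow_right hp.one_lt (by omega)
      have hbd : p ^ (t + 1) ≤ b := by
        by_contra hcon
        have h1 := Full1_small (d := p ^ (t + 1)) (a := a) (b := b) (by omega) (by omega)
        rw [h1] at hM
        omega
      have hb : p ^ (t + 1) + 1 ≤ b := by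
        rcases Nat.lt_or_ge b (p ^ (t + 1) + 1) with h1 | h1
        · exact absurd ⟨hap, by omega⟩ hs
        · exact h1
      exact R_mono (full_explicit hp hp2 (t := t + 1) (by omega)) hap.ge hb
  · rcases Nat.eq_zero_or_pos t with ht | ht
    · subst ht
      have := R_mono (full_one hp2') (a' := a) (b' := b) (by omega) (by omega)
      simpa using this
    · exact fullC hp hp2 ht hap hle hM hab IH

/-- Induction on `t`. `t = 0`: `R_any` with `N = p - 1`. Step (level `t + 1`): by `R_symm`, `Mf_symm` we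
may assume `a ≤ b`. `a = 1`: with `d = p ^ (t + 1)`, `Mf d 1 b = b / d + (1 + b % d - d) ≥ p` and
`1 + b ≤ p d` give `b = p d - 1` and `R_one` applies (or: `a * b ≥ Mf d a b * d ≥ p d` by `Mf_eq`, a
contradiction to `b < p d`). `2 ≤ a < p`: `fullB`. `a = p`: if
`t + 1 = 1`, then `b ≠ p`, so `b ≥ p + 1`, `full_one` and `R_mono`; if `t + 1 ≥ 2`, then `b ≥ d`
(otherwise `Mf d p b = p + b - d < p`) and `b ≠ d`, so `full_explicit` and `R_mono`. `a > p`: if
`t + 1 = 1`, `full_one` and `R_mono`; otherwise `fullC`. -/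
theorem full {p : ℕ} (hp : p.Prime) (hp2 : p ≠ 2) (t a b : ℕ) (ha : 1 ≤ a) (hb : 1 ≤ b)
    (hab : a + b ≤ p ^ (t + 1)) (h : FullHyp p t a b) : R p a b (p ^ (t + 1) - 1) := by
  induction t generalizing a b with
  | zero =>
    rcases h with ⟨_, h⟩ | ⟨h, _⟩
    · rw [zero_add, pow_one] at hab ⊢
      exact R_any hp.pos hab (by omega) (by have := hp.pos; omega)
    · omega
  | succ t IH =>
    rcases h with ⟨h, _⟩ | ⟨_, hM, hs1, hs2⟩
    · omega
    · rcases le_total a b with hle | hle
      · exact Full1_aux hp hp2 t IH a b ha hle hab hM hs1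
      · have hab' : b + a ≤ p ^ (t + 2) := by
          rw [add_comm b a]
          exact hab
        refine R_symm (Full1_aux hp hp2 t IH b a hb hle hab' ?_ ?_)
        · rw [Mf_symm]
          exact hM
        · rintro ⟨h1, h2⟩
          exact hs2 ⟨h2, h1⟩

end W09h1
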