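import Pool.Agent.W_09e4ca_h1.OpC

/-!
# The full value `p ^ (t + 1) - 1`: the pieces

`p` is an odd prime, `d = p ^ t`.
-/

namespace W09h1

open Finset

private theorem FullA2_cnt {P : ℕ} (x : ℕ) : #{y ∈ range x | P ∣ x - y} = x / P := by
  rw [← Nat.card_multiples x P]
  refine card_bij (fun y _ => x - 1 - y) ?_ ?_ ?_
  · intro y hy
    rw [mem_filter, mem_range] at hy ⊢
    refine ⟨by omega, ?_⟩
    have h : x - 1 - y + 1 = x - y := by omega
    rw [h]
    exact hy.2
  · intro a ha b hb h
    rw [mem_filter, mem_range] at ha hb
    omega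
  · intro e he
    rw [mem_filter, mem_range] at he
    refine ⟨x - 1 - e, ?_, by omega⟩
    rw [mem_filter, mem_range]
    refine ⟨by omega, ?_⟩
    have h : x - (x - 1 - e) = e + 1 := by omega
    rw [h]
    exact he.2

private theorem FullA2_split {P : ℕ} (S : Finset ℕ) (x : ℕ) :
    #{y ∈ range x | y ∉ S ∧ P ∣ x - y} + #{y ∈ range x | y ∈ S ∧ P ∣ x - y} = x / P := by
  rw [← FullA2_cnt (P := P) x, ← card_union_of_disjoint]
  · congr 1
    ext y
    simp only [mem_union, mem_filter]
    tauto
  · rw [disjoint_left]
    intro y h1 h2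
    rw [mem_filter] at h1 h2
    exact h1.2.1 h2.2.1

/-- The set `S = {d - p} ∪ [d + 2, d + p]` for `(a, b) = (p, d + 1)`, `t ≥ 2`, `p` odd.
`inv 1 S = (d - p) + (p - 1) (d + 1) = p d - 1`. For `P = p ^ s`, `1 ≤ s ≤ t`: the element `d - p`
contributes `⌊(d - p) / P⌋ = d / P - 1`; the element `d + i`, `2 ≤ i ≤ p`, contributes
`⌊(d + i) / P⌋` minus the number of smaller elements of `S` congruent to it; this is `d / P`
(for `i = p`, `P = p` the quotient is `d / p + 1`, and `d - p` is congruent to `d + p`; in the
other cases the difference `p + i` is not a multiple of `P`, as `p + i ≤ 2 p < p ^ 2`, and the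
differences of the other elements are smaller than `p`). Total `p d / P - 1 = (p d - 1) / P`. For
`s > t` use `R_of_G`. -/
theorem full_explicit {p t : ℕ} (hp : p.Prime) (hp2 : p ≠ 2) (ht : 2 ≤ t) :
    R p p (p ^ t + 1) (p ^ (t + 1) - 1) := by
  have hp2' : 2 ≤ p := hp.two_le
  have hp3 : 3 ≤ p := by omega
  have hd2 : p ^ 2 ≤ p ^ t := Nat.pow_le_pow_right hp.pos ht
  have hd : 3 * p ≤ p ^ t := by
    refine le_trans ?_ hd2
    rw [pow_two]
    exact Nat.mul_le_mul_right p hp3
  have hpt : p ^ (t + 1) = p * p ^ t := by rw [pow_succ, mul_comm]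
  have h3d : 3 * p ^ t ≤ p ^ (t + 1) := by
    rw [hpt]
    exact Nat.mul_le_mul_right _ hp3
  set d := p ^ t with hdd
  set S : Finset ℕ := insert (d - p) (Icc (d + 2) (d + p)) with hS
  have hmS : ∀ y, y ∈ S ↔ y = d - p ∨ (d + 2 ≤ y ∧ y ≤ d + p) := by
    intro y
    rw [hS, mem_insert, mem_Icc]
  have hnot : d - p ∉ Icc (d + 2) (d + p) := by
    rw [mem_Icc]
    omega
  refine R_of_G (t := t) hp2' ⟨S, ?_, ?_, ?_⟩ (by omega) (by omega)
  · intro y hy
    rw [hmS] at hy
    rw [mem_range]
    omega
  · rw [hS, card_insert_of_notMem hnot, Nat.card_Icc]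
    omega
  · intro s hs
    unfold inv
    rw [hS, sum_insert hnot, ← hS]
    -- the contribution of the smallest element
    have t0 : #{y ∈ range (d - p) | y ∉ S ∧ p ^ s ∣ d - p - y} = (d - p) / p ^ s := by
      have h := FullA2_split (P := p ^ s) S (d - p)
      have h0 : #{y ∈ range (d - p) | y ∈ S ∧ p ^ s ∣ d - p - y} = 0 := by
        rw [card_eq_zero, filter_eq_empty_iff]
        intro y hy h1
        rw [mem_range] at hy
        have := (hmS y).mp h1.1
        omega
      omega
    rw [t0]
    rcases Nat.eq_zero_or_pos s with h0 | h0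
    · subst h0
      -- P = 1
      have t1 : ∀ x ∈ Icc (d + 2) (d + p), #{y ∈ range x | y ∉ S ∧ p ^ 0 ∣ x - y} = d + 1 := by
        intro x hx
        rw [mem_Icc] at hx
        have h := FullA2_split (P := p ^ 0) S x
        have h1 : {y ∈ range x | y ∈ S ∧ p ^ 0 ∣ x - y} = insert (d - p) (Ico (d + 2) x) := by
          ext y
          rw [mem_filter, mem_range, hmS, mem_insert, mem_Ico, pow_zero]
          constructor
          · rintro ⟨h2, h3, _⟩
            omega
          · intro h2
            refine ⟨by omega, by omega, one_dvd _⟩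
        have h2 : #{y ∈ range x | y ∈ S ∧ p ^ 0 ∣ x - y} = 1 + (x - (d + 2)) := by
          rw [h1, card_insert_of_notMem, Nat.card_Ico, add_comm]
          rw [mem_Ico]
          omega
        rw [h2, pow_zero, Nat.div_one] at h
        rw [pow_zero]
        omega
      rw [sum_congr rfl t1, sum_const, smul_eq_mul, Nat.card_Icc, pow_zero, Nat.div_one,
        Nat.div_one, hpt]
      have e1 : d + p + 1 - (d + 2) = p - 1 := by omega
      rw [e1]
      obtain ⟨r, rfl⟩ : ∃ r, p = r + 1 := ⟨p - 1, by omega⟩
      have e2 : r + 1 - 1 = r := rfl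
      rw [e2]
      have e3 : (r + 1) * d = r * d + d := by ring
      have e4 : r * (d + 1) = r * d + r := by ring
      rw [e3, e4]
      omega
    · -- P = p ^ s
      have hPp : p ≤ p ^ s := by
        calc p = p ^ 1 := (pow_one p).symm
          _ ≤ p ^ s := Nat.pow_le_pow_right hp.pos h0
      have hPpos : 0 < p ^ s := by omega
      have hdvd : p ^ s ∣ d := pow_dvd_pow p hs
      obtain ⟨e, he⟩ := hdvd
      have hepos : 0 < e := by
        rcases Nat.eq_zero_or_pos e with h | h
        · rw [h, mul_zero] at he
          omega
        · exact h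
      have e0 : d / p ^ s = e := by rw [he, Nat.mul_div_cancel_left _ hPpos]
      have e1 : (d - p) / p ^ s = e - 1 := by
        have h1 : d - p = p ^ s * (e - 1) + (p ^ s - p) := by
          obtain ⟨f, rfl⟩ : ∃ f, e = f + 1 := ⟨e - 1, by omega⟩
          rw [he, Nat.add_sub_cancel, mul_add, mul_one]
          omega
        rw [h1, Nat.mul_add_div hPpos, Nat.div_eq_of_lt (by omega), add_zero]
      have t1 : ∀ x ∈ Icc (d + 2) (d + p), #{y ∈ range x | y ∉ S ∧ p ^ s ∣ x - y} = e := by
        intro x hx
        rw [mem_Icc] at hx
        obtain ⟨i, rfl⟩ : ∃ i, x = d + i := ⟨x - d, by omega⟩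
        have hi2 : 2 ≤ i := by omega
        have hip : i ≤ p := by omega
        have h := FullA2_split (P := p ^ s) S (d + i)
        have hdiv : (d + i) / p ^ s = e + i / p ^ s := by
          rw [he, Nat.mul_add_div hPpos]
        rw [hdiv] at h
        -- divisibility by P of a number between 1 and p - 1 is impossible
        have hsm : ∀ y, y ∈ S → y < d + i → p ^ s ∣ d + i - y → y = d - p := by
          intro y hy hlt hdv
          rcases (hmS y).mp hy with h1 | h1
          · exact h1
          · exfalso
            have := Nat.le_of_dvd (by omega) hdv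
            omega
        by_cases hcase : s = 1 ∧ i = p
        · obtain ⟨rfl, rfl⟩ := hcase
          have h1 : {y ∈ range (d + i) | y ∈ S ∧ i ^ 1 ∣ d + i - y} = {d - i} := by
            ext y
            rw [mem_filter, mem_range, mem_singleton]
            constructor
            · rintro ⟨h2, h3, h4⟩
              exact hsm y h3 h2 h4
            · rintro rfl
              refine ⟨by omega, (hmS _).mpr (Or.inl rfl), ?_⟩
              have : d + i - (d - i) = i ^ 1 * 2 := by
                rw [pow_one]
                omega
              rw [this]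
              exact Dvd.intro _ rfl
          rw [h1, card_singleton, pow_one, Nat.div_self hp.pos] at h
          rw [pow_one]
          omega
        · have h1 : #{y ∈ range (d + i) | y ∈ S ∧ p ^ s ∣ d + i - y} = 0 := by
            rw [card_eq_zero, filter_eq_empty_iff]
            intro y hy h2
            rw [mem_range] at hy
            have h3 := hsm y h2.1 hy h2.2
            rw [h3] at h2
            have h4 : d + i - (d - p) = p + i := by omega
            rw [h4] at h2
            rcases Nat.lt_or_ge s 2 with h5 | h5
            · have hs1 : s = 1 := by omega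
              subst hs1
              rw [pow_one] at h2
              have h6 : p ∣ i := (Nat.dvd_add_right (dvd_refl p)).mp h2.2
              have h7 := Nat.le_of_dvd (by omega) h6
              exact hcase ⟨rfl, by omega⟩
            · have h6 : p ^ 2 ≤ p ^ s := Nat.pow_le_pow_right hp.pos h5
              have h7 := Nat.le_of_dvd (by omega) h2.2
              have h8 : 3 * p ≤ p ^ 2 := by
                rw [pow_two]
                exact Nat.mul_le_mul_right p hp3
              omega
          have h2 : i / p ^ s = 0 := by
            apply Nat.div_eq_of_lt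
            rcases Nat.lt_or_ge s 2 with h5 | h5
            · have hs1 : s = 1 := by omega
              subst hs1
              rw [pow_one]
              have : i ≠ p := fun h6 => hcase ⟨rfl, h6⟩
              omega
            · have h6 : p ^ 2 ≤ p ^ s := Nat.pow_le_pow_right hp.pos h5
              have h8 : 3 * p ≤ p ^ 2 := by
                rw [pow_two]
                exact Nat.mul_le_mul_right p hp3
              omega
          omega
      rw [sum_congr rfl t1, sum_const, smul_eq_mul, Nat.card_Icc, e1]
      have e2 : d + p + 1 - (d + 2) = p - 1 := by omega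
      rw [e2, hpt]
      have e3 : (p * d - 1) / p ^ s = p * e - 1 := by
        have h1 : p * d - 1 = p ^ s * (p * e - 1) + (p ^ s - 1) := by
          have h2 : 1 ≤ p * e := Nat.mul_pos hp.pos hepos
          obtain ⟨f, hf⟩ : ∃ f, p * e = f + 1 := ⟨p * e - 1, by omega⟩
          have h3 : p * d = p ^ s * (p * e) := by rw [he]; ring
          rw [h3, hf, Nat.add_sub_cancel, mul_add, mul_one]
          omega
        rw [h1, Nat.mul_add_div hPpos, Nat.div_eq_of_lt (by omega), add_zero]
      rw [e3]
      obtain ⟨r, rfl⟩ : ∃ r, p = r + 1 := ⟨p - 1, by omega⟩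
      have e4 : r + 1 - 1 = r := rfl
      rw [e4]
      have e5 : (r + 1) * e = r * e + e := by ring
      rw [e5]
      omega

end W09h1
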