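import Pool.Agent.W_09e4ca_h1.OpC

/-!
# The full value `p ^ (t + 1) - 1`: the pieces

`p` is an odd prime, `d = p ^ t`.
-/

namespace W09h1

open Finset

/-- The hypothesis for level `t`. -/
def FullHyp (p t a b : ℕ) : Prop :=
  (t = 0 ∧ p ≤ a * b + 1) ∨
  (1 ≤ t ∧ p ≤ Mf (p ^ t) a b ∧ ¬ (a = p ∧ b = p ^ t) ∧ ¬ (a = p ^ t ∧ b = p))

/-- If the quotient is `p - 1` and the core has the full value of level `t - 1`, i.e. `d - 1`, then
`(a, b)` has the full value of level `t`: `R_lift` with `e = d - 1`. -/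
theorem full_step {p t a b : ℕ} (hp : 2 ≤ p) (hab : a + b ≤ p ^ (t + 1))
    (hM : Mf (p ^ t) a b = p - 1)
    (h : R p (cx (p ^ t) a b) (cy (p ^ t) a b) (p ^ t - 1)) : R p a b (p ^ (t + 1) - 1) := by
  have hpos : 0 < p ^ t := pow_pos (by omega) t
  have h1 := R_lift hp h (by omega) (by omega) hab
  have h2 : p ^ t - 1 + Mf (p ^ t) a b * p ^ t = p ^ (t + 1) - 1 := by
    rw [hM]
    obtain ⟨q, rfl⟩ : ∃ q, p = q + 1 := ⟨p - 1, by omega⟩
    have h3 : (q + 1) ^ (t + 1) = q * (q + 1) ^ t + (q + 1) ^ t := by ring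
    rw [h3, Nat.add_sub_cancel]
    omega
  rwa [h2] at h1

/-- Level `1`: `(p - 1, p + 1)`: the quotient is `p - 1`, the core is `(p - 1, 1)`, and
`R p (p - 1) 1 (p - 1)` is `R_one` after `R_symm`. -/
theorem full_one {p : ℕ} (hp : 2 ≤ p) : R p (p - 1) (p + 1) (p ^ 2 - 1) := by
  have h1 : (p - 1) / p = 0 := Nat.div_eq_of_lt (by omega)
  have h2 : (p - 1) % p = p - 1 := Nat.mod_eq_of_lt (by omega)
  have h3 : (p + 1) / p = 1 := by
    rw [Nat.add_div_left 1 (by omega : 0 < p), Nat.div_eq_of_lt (by omega : 1 < p)]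
  have h4 : (p + 1) % p = 1 := by
    rw [Nat.add_mod_left, Nat.mod_eq_of_lt (by omega : 1 < p)]
  have hsum : p - 1 + 1 = p := by omega
  have hM : Mf (p ^ 1) (p - 1) (p + 1) = p - 1 := by
    rw [pow_one, Mf, h1, h2, h3, h4, hsum]
    simp
  have hx : cx (p ^ 1) (p - 1) (p + 1) = p - 1 := by
    rw [pow_one, cx, h2, h4, hsum]
    simp
  have hy : cy (p ^ 1) (p - 1) (p + 1) = 1 := by
    rw [pow_one, cy, h2, h4, hsum]
    simp only [lt_irrefl, if_false]
    omega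
  refine full_step (t := 1) hp ?_ hM ?_
  · have h5 : p - 1 + (p + 1) = 2 * p := by omega
    have h6 : p ^ (1 + 1) = p * p := by ring
    rw [h5, h6]
    exact Nat.mul_le_mul_right p hp
  · rw [hx, hy, pow_one]
    exact R_symm (R_one (by omega) _)

end W09h1
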