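import Pool.Agent.W_09e4ca_h1.FullA

/-!
# The full value: the case `2 ≤ a < p`

`p = Q₀ a + ρ₀`, `0 < ρ₀ < a`. The box `(a, b')` with `b' = Q₀ d + (d - a + ρ₀ - 1)` has the quotient
`p - 1` and the core `(a - ρ₀ + 1, d - a)`.
-/

namespace W09h1

open Finset

/-- The quotient and the core of `(a, b')`. `a % d = a`, `b' / d = Q₀`, `b' % d = d - a + ρ₀ - 1`,
the sum of the residues is `d + ρ₀ - 1 ≥ d`. -/
theorem fullB_core {p d a Q r : ℕ} (ha : 2 ≤ a) (had : a ≤ d) (hap : a < p) (hpd : p ≤ d)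
    (hr : 1 ≤ r) (hra : r < a) (hp : p = Q * a + r) :
    Mf d a (Q * d + (d - a + r - 1)) = p - 1 ∧ cx d a (Q * d + (d - a + r - 1)) = a - r + 1 ∧
      cy d a (Q * d + (d - a + r - 1)) = d - a := by
  have hlt : a < d := lt_of_lt_of_le hap hpd
  have hs : d - a + r - 1 < d := by omega
  have h1 : a / d = 0 := Nat.div_eq_of_lt hlt
  have h2 : a % d = a := Nat.mod_eq_of_lt hlt
  have hd0 : 0 < d := by omega
  have h3 : (Q * d + (d - a + r - 1)) / d = Q := by
    rw [Nat.add_comm, Nat.add_mul_div_right _ _ hd0, Nat.div_eq_of_lt hs, Nat.zero_add]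
  have h4 : (Q * d + (d - a + r - 1)) % d = d - a + r - 1 := by
    rw [Nat.add_comm, Nat.add_mul_mod_self_right, Nat.mod_eq_of_lt hs]
  refine ⟨?_, ?_, ?_⟩
  · unfold Mf
    rw [h1, h2, h3, h4]
    simp only [Nat.zero_mul, Nat.zero_add]
    omega
  · unfold cx
    rw [h2, h4, if_neg (by omega)]
    omega
  · unfold cy
    rw [h2, h4, if_neg (by omega)]

/-- The core satisfies the hypothesis at level `t - 1`. For `t = 1`: `d = p` and
`(a - r + 1) (p - a) ≥ p - 1`: if `Q ≥ 2`, then `p - a ≥ p / 2` and `a - r + 1 ≥ 2`; if `Q = 1`, then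
`p - a = r` and `(a - r + 1) r - (a + r - 1) = (r - 1) (a - r - 1) ≥ 0`. (`Q ≥ 1` as `a < p`.)
For `t ≥ 2`: with `d' = p ^ (t - 1)`, `d - a = (p - 1) d' + (d' - a)`, and the quotient is
`(p - 1) x` with `x = a - r + 1 ≥ 2` (`x % d' = x` as `x ≤ a < p ≤ d'`, the residues have the sum
`x + d' - a = d' - r + 1 ≤ d'`). It is not special: `x < p`, and `x = p ^ (t - 1) ≥ p` is
impossible. -/
theorem fullB_hyp {p t a Q r : ℕ} (hp : p.Prime) (ha : 2 ≤ a) (hap : a < p)
    (hr : 1 ≤ r) (hra : r < a) (hpQ : p = Q * a + r) :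
    FullHyp p t (a - r + 1) (p ^ (t + 1) - a) := by
  rcases Nat.eq_zero_or_pos t with ht | ht
  · subst ht
    left
    refine ⟨rfl, ?_⟩
    rw [Nat.zero_add, pow_one]
    obtain ⟨u, rfl⟩ : ∃ u, a = r + u := ⟨a - r, by omega⟩
    have hu : 1 ≤ u := by omega
    rcases Q with _ | Q'
    · omega
    · have e1 : r + u - r + 1 = u + 1 := by omega
      have e2 : p - (r + u) = Q' * (r + u) + r := by
        rw [hpQ, Nat.succ_mul]; omega
      rw [e1, e2]
      have e3 : p = Q' * (r + u) + r + (r + u) := by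
        rw [hpQ, Nat.succ_mul]; omega
      rw [e3]
      rcases Nat.eq_zero_or_pos Q' with h0 | h0
      · subst h0
        obtain ⟨u', rfl⟩ : ∃ u', u = u' + 1 := ⟨u - 1, by omega⟩
        obtain ⟨r', rfl⟩ : ∃ r', r = r' + 1 := ⟨r - 1, by omega⟩
        nlinarith [Nat.zero_le (u' * r')]
      · have h5 : r + u ≤ Q' * (r + u) := Nat.le_mul_of_pos_left _ h0
        have h6 : Q' * (r + u) + r ≤ u * (Q' * (r + u) + r) := Nat.le_mul_of_pos_left _ hu
        have h7 : (u + 1) * (Q' * (r + u) + r) = u * (Q' * (r + u) + r) + (Q' * (r + u) + r) := by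
          ring
        rw [h7]
        omega
  · right
    have hpd : p ≤ p ^ t := by
      calc p = p ^ 1 := (pow_one p).symm
        _ ≤ p ^ t := Nat.pow_le_pow_right hp.pos ht
    have hp2 := hp.two_le
    refine ⟨ht, ?_, ?_, ?_⟩
    · set d := p ^ t with hd
      have hy : p ^ (t + 1) - a = (p - 1) * d + (d - a) := by
        obtain ⟨p', hp'⟩ : ∃ p', p = p' + 1 := ⟨p - 1, by omega⟩
        have h8 : p ^ (t + 1) = (p' + 1) * d := by
          rw [pow_succ, ← hd, hp', Nat.mul_comm]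
        rw [h8, hp', Nat.add_sub_cancel, Nat.succ_mul]
        omega
      have hd0 : 0 < d := by omega
      have h1 : (a - r + 1) / d = 0 := Nat.div_eq_of_lt (by omega)
      have h2 : (a - r + 1) % d = a - r + 1 := Nat.mod_eq_of_lt (by omega)
      have hs : d - a < d := by omega
      have h3 : ((p - 1) * d + (d - a)) / d = p - 1 := by
        rw [Nat.add_comm, Nat.add_mul_div_right _ _ hd0, Nat.div_eq_of_lt hs, Nat.zero_add]
      have h4 : ((p - 1) * d + (d - a)) % d = d - a := by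
        rw [Nat.add_comm, Nat.add_mul_mod_self_right, Nat.mod_eq_of_lt hs]
      rw [hy]
      unfold Mf
      rw [h1, h2, h3, h4]
      simp only [Nat.zero_mul, Nat.zero_add]
      have h5 : (p - 1) * 2 ≤ (p - 1) * (a - r + 1) := Nat.mul_le_mul_left _ (by omega)
      omega
    · rintro ⟨h, -⟩
      omega
    · rintro ⟨h, -⟩
      omega

/-- Case `2 ≤ a < p`, `t + 1 ≥ 1`, given the theorem at level `t`. As `Mf` is monotone in `b` and
`Mf d a b ≥ p > Mf d a b' = p - 1`, we have `b' ≤ b`; use `R_mono`. -/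
theorem fullB {p t a b : ℕ} (hp : p.Prime) (ha : 2 ≤ a) (hap : a < p)
    (hM : p ≤ Mf (p ^ (t + 1)) a b) (hab : a + b ≤ p ^ (t + 2))
    (IH : ∀ x y, 1 ≤ x → 1 ≤ y → x + y ≤ p ^ (t + 1) → FullHyp p t x y →
      R p x y (p ^ (t + 1) - 1)) : R p a b (p ^ (t + 2) - 1) := by
  have hp2 := hp.two_le
  have hr : 1 ≤ p % a := by
    rcases Nat.eq_zero_or_pos (p % a) with h | h
    · exfalso
      have h1 : a ∣ p := Nat.dvd_of_mod_eq_zero h
      rcases (Nat.dvd_prime hp).1 h1 with h2 | h2 <;> omega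
    · exact h
  have hra : p % a < a := Nat.mod_lt _ (by omega)
  have hpQ : p = p / a * a + p % a := by
    rw [Nat.mul_comm]; exact (Nat.div_add_mod p a).symm
  have hpd : p ≤ p ^ (t + 1) := by
    calc p = p ^ 1 := (pow_one p).symm
      _ ≤ p ^ (t + 1) := Nat.pow_le_pow_right hp.pos (by omega)
  have hd0 : 0 < p ^ (t + 1) := by positivity
  obtain ⟨c1, c2, c3⟩ := fullB_core (p := p) (d := p ^ (t + 1)) (a := a) (Q := p / a) (r := p % a)
    ha (by omega) hap hpd hr hra hpQ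
  have hbb : p / a * p ^ (t + 1) + (p ^ (t + 1) - a + p % a - 1) ≤ b := by
    by_contra hcon
    have h1 := Mf_mono (a := a) hd0 (le_of_lt (not_le.1 hcon))
    omega
  refine R_mono (a := a) (b := p / a * p ^ (t + 1) + (p ^ (t + 1) - a + p % a - 1)) ?_ le_rfl hbb
  refine full_step (t := t + 1) hp2 (by
    have e : p ^ (t + 1 + 1) = p ^ (t + 2) := rfl
    rw [e]; omega) c1 ?_
  rw [c2, c3]
  exact IH _ _ (by omega) (by omega) (by omega) (fullB_hyp hp ha hap hr hra hpQ)

end W09h1
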