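import Pool.Agent.W_09e4ca_h1.PD

/-!
# The minimum size of unrestricted sumsets
-/

namespace W09h1

open Finset MvPolynomial W_MP_09e4ca_co

/-- Multinomial coefficients without carries: if `∑ ⌊lam i / p ^ s⌋ = ⌊N / p ^ s⌋` for all `s` (in
particular `∑ lam i = N`), the coefficient of `y ^ lam` in `(∑ y i) ^ N` is nonzero modulo `p`:
`∏ (lam i)!` times it is `N!` (`W09h33.coeff_sum_X_pow`), with equal `p`-adic valuations. -/
theorem coeff_multinomial {p h N : ℕ} (hp : p.Prime) (lam : Fin h →₀ ℕ)
    (hl : ∀ s, ∑ i, lam i / p ^ s = N / p ^ s) :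
    coeff lam ((∑ i : Fin h, (X i : MvPolynomial (Fin h) (ZMod p))) ^ N) ≠ 0 := by
  have : Fact p.Prime := ⟨hp⟩
  have hs : ∑ i, lam i = N := by
    have := hl 0
    simpa using this
  set u : MvPolynomial (Fin h) ℤ := (∑ i : Fin h, (X i : MvPolynomial (Fin h) ℤ)) ^ N with hu
  have h1 := W09h33.coeff_sum_X_pow (R := ℤ) h N lam hs
  have hmap : coeff lam ((∑ i : Fin h, (X i : MvPolynomial (Fin h) (ZMod p))) ^ N) =
      ((coeff lam u : ℤ) : ZMod p) := by
    have h2 : (∑ i : Fin h, (X i : MvPolynomial (Fin h) (ZMod p))) ^ N =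
        map (Int.castRingHom (ZMod p)) u := by
      rw [hu, map_pow, map_sum]
      simp only [map_X]
    rw [h2, coeff_map]
    rfl
  rw [hmap]
  intro h0
  rw [ZMod.intCast_zmod_eq_zero_iff_dvd] at h0
  -- valuations
  have hne : (coeff lam u).natAbs ≠ 0 := by
    intro h3
    rw [Int.natAbs_eq_zero] at h3
    rw [← hu, h3, mul_zero] at h1
    exact (Nat.factorial_ne_zero N) (by exact_mod_cast h1.symm)
  have hprod : (∏ i, (lam i).factorial) ≠ 0 :=
    prod_ne_zero_iff.2 fun i _ => Nat.factorial_ne_zero _
  have h4 : (∏ i, (lam i).factorial) * (coeff lam u).natAbs = N.factorial := by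
    have h5 := congrArg Int.natAbs h1
    rw [Int.natAbs_mul, Int.natAbs_natCast, Int.natAbs_natCast] at h5
    exact h5
  have h6 : padicValNat p (∏ i, (lam i).factorial) = padicValNat p N.factorial := by
    have h7 : ∀ n, n ≤ N → padicValNat p n.factorial =
        ∑ s ∈ Ico 1 (Nat.log p N + 1), n / p ^ s := by
      intro n hn
      exact padicValNat_factorial (Nat.lt_succ_of_le (Nat.log_mono_right hn))
    have h8 : padicValNat p (∏ i, (lam i).factorial) =
        ∑ i, padicValNat p (lam i).factorial := by
      have h9 : ∀ s : Finset (Fin h), padicValNat p (∏ i ∈ s, (lam i).factorial) =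
          ∑ i ∈ s, padicValNat p (lam i).factorial := by
        intro s
        induction s using Finset.induction_on with
        | empty => simp
        | insert a s ha ih =>
          rw [prod_insert ha, sum_insert ha, padicValNat.mul (Nat.factorial_ne_zero _)
            (prod_ne_zero_iff.2 fun i _ => Nat.factorial_ne_zero _), ih]
      exact h9 univ
    rw [h8, h7 N le_rfl]
    have h10 : ∀ i, padicValNat p (lam i).factorial =
        ∑ s ∈ Ico 1 (Nat.log p N + 1), lam i / p ^ s := by
      intro i
      refine h7 _ ?_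
      rw [← hs]
      exact single_le_sum (f := fun i => lam i) (fun _ _ => Nat.zero_le _) (mem_univ i)
    rw [sum_congr rfl fun i _ => h10 i, sum_comm]
    exact sum_congr rfl fun s _ => hl s
  have h11 := congrArg (padicValNat p) h4
  rw [padicValNat.mul hprod hne, h6] at h11
  have h12 : padicValNat p (coeff lam u).natAbs = 0 := by omega
  have h13 : p ∣ (coeff lam u).natAbs := Int.natCast_dvd.1 h0
  have h14 := one_le_padicValNat_of_dvd hne h13
  omega

end W09h1
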