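import Pool.Agent.W_09e4ca_h1.PE
import Pool.Agent.W_09e4ca_h1.PU1

/-!
# The lower bound for restricted sumsets from the combinatorial data
-/

namespace W09h1

open Finset MvPolynomial W_MP_09e4ca_co

private theorem PF2_nocarry {p t i j s : ℕ} (hp : 2 ≤ p) (hij : i + j = p ^ t - 1) :
    i / p ^ s + j / p ^ s = (p ^ t - 1) / p ^ s := by
  have hp0 : 0 < p := by omega
  have hs0 : 0 < p ^ s := pow_pos hp0 s
  have ht0 : 0 < p ^ t := pow_pos hp0 t
  rcases le_or_gt s t with hst | hst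
  · obtain ⟨r, rfl⟩ := Nat.exists_eq_add_of_le hst
    have hpw : p ^ (s + r) = p ^ s * p ^ r := pow_add p s r
    have hr0 : 0 < p ^ r := pow_pos hp0 r
    have e1 := Nat.div_add_mod i (p ^ s)
    have e2 := Nat.div_add_mod j (p ^ s)
    have l1 := Nat.mod_lt i hs0
    have l2 := Nat.mod_lt j hs0
    rw [← hij]
    rw [Nat.add_div hs0, if_neg]
    · rfl
    · intro hcon
      -- `i % P + j % P = 2 P - 1 - ...`
      have h1 : p ^ s * (i / p ^ s + j / p ^ s + 1) + (i % p ^ s + j % p ^ s + 1 - p ^ s) =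
          p ^ s * p ^ r := by
        rw [← hpw]
        have : p ^ s * (i / p ^ s + j / p ^ s + 1) =
            p ^ s * (i / p ^ s) + p ^ s * (j / p ^ s) + p ^ s := by ring
        rw [this]
        omega
      have h2 : p ^ s ∣ (i % p ^ s + j % p ^ s + 1 - p ^ s) := by
        have h3 : p ^ s ∣ p ^ s * (i / p ^ s + j / p ^ s + 1) +
            (i % p ^ s + j % p ^ s + 1 - p ^ s) := by
          rw [h1]
          exact dvd_mul_right _ _
        exact (Nat.dvd_add_right (dvd_mul_right _ _)).1 h3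
      have h4 := Nat.le_of_dvd (by omega) h2
      omega
  · have hlt : p ^ t < p ^ s := Nat.pow_lt_pow_right (by omega) hst
    rw [Nat.div_eq_of_lt (by omega), Nat.div_eq_of_lt (by omega), Nat.div_eq_of_lt (by omega)]

open scoped Pointwise in
/-- `coeff_pair` and `coeff_graded` (`W = 1`): take `i + j = p ^ t - 1`, `i < #A`, `j < #B`; the
coefficient of `x ^ i y ^ j` in `(x + y) ^ (p ^ t - 1)` is `(p ^ t - 1).choose i`, which is
`(-1) ^ i` modulo `p`. -/
theorem card_add_ge {p k t : ℕ} (hp : p.Prime) (A B : Finset (ZMod (p ^ k)))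
    (hA : A.Nonempty) (hB : B.Nonempty) (h : p ^ t < #A + #B) : p ^ t ≤ #(A + B) := by
  by_contra hcon
  push Not at hcon
  have hN : #(A + B) ≤ p ^ t - 1 := by omega
  have hA1 : 1 ≤ #A := card_pos.2 hA
  have hB1 : 1 ≤ #B := card_pos.2 hB
  have ht0 : 0 < p ^ t := pow_pos hp.pos t
  obtain ⟨i, j, hij, hi, hj⟩ : ∃ i j, i + j = p ^ t - 1 ∧ i < #A ∧ j < #B := by
    rcases Nat.lt_or_ge (p ^ t - 1) (#A) with h1 | h1
    · exact ⟨p ^ t - 1, 0, by omega, h1, by omega⟩
    · exact ⟨#A - 1, p ^ t - 1 - (#A - 1), by omega, by omega, by omega⟩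
  obtain ⟨lam, h0, h1⟩ : ∃ lam : Fin 2 →₀ ℕ, lam 0 = i ∧ lam 1 = j :=
    ⟨Finsupp.equivFunOnFinite.symm ![i, j], rfl, rfl⟩
  have h2 := coeff_pair hp A B hN lam (by rw [h0]; exact hi) (by rw [h1]; exact hj)
  have h3 := coeff_graded (F := ZMod p) (N := p ^ t - 1) (w := 0) 1 (isHomogeneous_one _ _) lam (by
    rw [Fin.sum_univ_two, h0, h1, hij, add_zero])
  rw [mul_one, mul_one, h2] at h3
  refine coeff_multinomial hp lam (fun s => ?_) h3.symm
  rw [Fin.sum_univ_two, h0, h1]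
  exact PF2_nocarry hp.two_le hij

end W09h1
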