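import Pool.Agent.W_09e4ca_h1.PC

/-!
# The special boxes

`p` odd, `t ≥ 1`, `d = p ^ t`, `h = p`, `m = p + d`, `N = (p - 1) d + e`, `e = d - p + 1`.
-/

namespace W09h1

open Finset MvPolynomial W_MP_09e4ca_co

theorem PS2_expand {F : Type} [CommRing F] (d l : ℕ) : ∃ g : Polynomial F,
    (1 + Polynomial.X ^ d : Polynomial F) ^ l =
      1 + Polynomial.C (l : F) * Polynomial.X ^ d + g * Polynomial.X ^ (2 * d) := by
  induction l with
  | zero => exact ⟨0, by simp⟩
  | succ l ih =>
    obtain ⟨g, hg⟩ := ih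
    refine ⟨Polynomial.C (l : F) + g + g * Polynomial.X ^ d, ?_⟩
    rw [pow_succ, hg]
    push_cast
    rw [Polynomial.C_add, Polynomial.C_1]
    ring

theorem PS2_coeff {F : Type} [CommRing F] {d k l n : ℕ} (hn : n < 2 * d) :
    ((1 + Polynomial.X) ^ k * (1 + Polynomial.X ^ d) ^ l : Polynomial F).coeff n =
      (k.choose n : F) + (if d ≤ n then (l : F) * (k.choose (n - d) : F) else 0) := by
  obtain ⟨g, hg⟩ := PS2_expand (F := F) d l
  rw [hg]
  have e1 : ((1 + Polynomial.X) ^ k * (1 + Polynomial.C (l : F) * Polynomial.X ^ d +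
      g * Polynomial.X ^ (2 * d)) : Polynomial F) =
      (1 + Polynomial.X) ^ k + Polynomial.C (l : F) * (1 + Polynomial.X) ^ k * Polynomial.X ^ d +
      ((1 + Polynomial.X) ^ k * g) * Polynomial.X ^ (2 * d) := by ring
  rw [e1, Polynomial.coeff_add, Polynomial.coeff_add, Polynomial.coeff_mul_X_pow',
    Polynomial.coeff_mul_X_pow', Polynomial.coeff_one_add_X_pow,
    if_neg (show ¬ 2 * d ≤ n by omega), add_zero]
  congr 1
  split_ifs
  · rw [Polynomial.coeff_C_mul, Polynomial.coeff_one_add_X_pow]
  · rfl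

/-- For `f = (1 + y) ^ k * (1 + y ^ d) ^ l`, `c i = d + i`, `k ≤ e = d - p + 1`, the matrix of
`coeff_prod_VV` has the entries `l * choose k (i - j)` (`0` if `i < j`) plus `1` if `k = e`, `i = 0`,
`j = p - 1`. -/
theorem entry_special {F : Type} [CommRing F] {p d k l : ℕ} (hp : 2 ≤ p) (hd : p ≤ d)
    (hk : k ≤ d - p + 1) (i j : Fin p) :
    (if (j : ℕ) ≤ d + i then
      (((1 + Polynomial.X) ^ k * (1 + Polynomial.X ^ d) ^ l : Polynomial F).coeff (d + i - j))
      else 0) =
    (if (j : ℕ) ≤ i then (l : F) * (k.choose (i - j) : F) else 0) +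
      (if k = d - p + 1 ∧ (i : ℕ) = 0 ∧ (j : ℕ) + 1 = p then 1 else 0) := by
  have hi := i.2
  have hj := j.2
  rw [if_pos (by omega), PS2_coeff (by omega)]
  by_cases hji : (j : ℕ) ≤ i
  · rw [if_pos (by omega), if_pos hji, if_neg (by omega), Nat.choose_eq_zero_of_lt (by omega),
      show d + (i : ℕ) - j - d = i - j by omega]
    simp
  · rw [if_neg (by omega), if_neg hji]
    by_cases h : k = d - p + 1 ∧ (i : ℕ) = 0 ∧ (j : ℕ) + 1 = p
    · rw [if_pos h, show d + (i : ℕ) - j = k by omega, Nat.choose_self]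
      simp
    · rw [if_neg h, Nat.choose_eq_zero_of_lt (by omega)]
      simp

/-- For `k < e` the matrix is lower triangular with `l` on the diagonal. -/
theorem det_small {F : Type} [CommRing F] {p k l : ℕ} :
    (Matrix.of fun i j : Fin p => if (j : ℕ) ≤ i then (l : F) * (k.choose (i - j) : F) else 0).det =
      (l : F) ^ p := by
  rw [Matrix.det_of_lowerTriangular]
  · simp
  · intro i j hij
    have hlt : i < j := by simpa using hij
    have hlt' : (i : ℕ) < j := hlt
    simp only [Matrix.of_apply]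
    rw [if_neg (by omega)]

theorem PS2_det_aux {R : Type} [CommRing R] {n e l : ℕ} (hn : 2 ≤ n) (h1 : (e : R) = 1)
    (h2 : ∀ r, 2 ≤ r → r < n + 1 → (e.choose r : R) = 0) :
    (Matrix.of fun i j : Fin (n + 1) => (if (j : ℕ) ≤ i then (l : R) * (e.choose (i - j) : R)
      else 0) + (if (i : ℕ) = 0 ∧ (j : ℕ) + 1 = n + 1 then (1 : R) else 0)).det =
      (l : R) ^ (n + 1) + (-1) ^ n * (l : R) ^ n := by
  rw [Matrix.det_succ_row_zero]
  rw [Finset.sum_eq_add (0 : Fin (n + 1)) (Fin.last n)]
  · have hA : (Matrix.submatrix (Matrix.of fun i j : Fin (n + 1) =>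
        (if (j : ℕ) ≤ i then (l : R) * (e.choose (i - j) : R)
        else 0) + (if (i : ℕ) = 0 ∧ (j : ℕ) + 1 = n + 1 then (1 : R) else 0)) Fin.succ
        (Fin.succAbove 0)).det = (l : R) ^ n := by
      rw [Matrix.det_of_lowerTriangular]
      · rw [Finset.prod_congr rfl (g := fun _ => (l : R))]
        · simp
        · intro i _
          simp
      · intro i j hij
        have hlt : i < j := by simpa using hij
        have hlt' : (i : ℕ) < j := hlt
        simp only [Matrix.submatrix_apply, Matrix.of_apply, Fin.succAbove_zero, Fin.val_succ]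
        rw [if_neg (by omega), if_neg (by omega), add_zero]
    have hB : (Matrix.submatrix (Matrix.of fun i j : Fin (n + 1) =>
        (if (j : ℕ) ≤ i then (l : R) * (e.choose (i - j) : R)
        else 0) + (if (i : ℕ) = 0 ∧ (j : ℕ) + 1 = n + 1 then (1 : R) else 0)) Fin.succ
        (Fin.succAbove (Fin.last n))).det = (l : R) ^ n := by
      rw [Matrix.det_of_upperTriangular]
      · rw [Finset.prod_congr rfl (g := fun _ => (l : R))]
        · simp
        · intro i _
          simp only [Matrix.submatrix_apply, Matrix.of_apply, Fin.succAbove_last, Fin.val_succ,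
            Fin.val_castSucc]
          rw [if_pos (by omega), if_neg (by omega), add_zero,
            show (i : ℕ) + 1 - i = 1 by omega, Nat.choose_one_right, h1, mul_one]
      · intro i j hij
        have hlt : j < i := by simpa using hij
        have hlt' : (j : ℕ) < i := hlt
        have hi := i.2
        simp only [Matrix.submatrix_apply, Matrix.of_apply, Fin.succAbove_last, Fin.val_succ,
          Fin.val_castSucc]
        rw [if_pos (by omega), if_neg (by omega), add_zero, h2 _ (by omega) (by omega), mul_zero]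
    rw [hA, hB]
    simp only [Matrix.of_apply, Fin.val_zero, Fin.val_last]
    rw [if_pos (by omega), if_neg (by omega), if_neg (by omega), if_pos (by simp)]
    simp
    ring
  · intro h
    have := congrArg Fin.val h
    simp at this
    omega
  · intro j _ hj
    have hj0 : (j : ℕ) ≠ 0 := fun h => hj.1 (Fin.ext (by simpa using h))
    have hjn : (j : ℕ) ≠ n := fun h => hj.2 (Fin.ext (by simpa using h))
    simp only [Matrix.of_apply, Fin.val_zero]
    rw [if_neg (by omega), if_neg (by omega)]
    simp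
  · intro h
    exact absurd (Finset.mem_univ _) h
  · intro h
    exact absurd (Finset.mem_univ _) h

/-- For `k = e`, `e ≡ 1` modulo `p` (so that `choose e r = 0` in `ZMod p` for `2 ≤ r < p` and
`choose e 1 = 1`): the matrix has `l` on the diagonal, `l` just below the diagonal, `1` at
`(0, p - 1)`, and zeros elsewhere; its determinant is `l ^ p + (-1) ^ (p - 1) * l ^ (p - 1)`. -/
theorem det_top {p e l : ℕ} (hp : p.Prime) (hp2 : 3 ≤ p) (he : e % p = 1) :
    (Matrix.of fun i j : Fin p => (if (j : ℕ) ≤ i then (l : ZMod p) * (e.choose (i - j) : ZMod p)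
      else 0) + (if (i : ℕ) = 0 ∧ (j : ℕ) + 1 = p then 1 else 0)).det =
      (l : ZMod p) ^ p + (l : ZMod p) ^ (p - 1) := by
  have hodd : Odd p := hp.odd_of_ne_two (by omega)
  have h1 : (e : ZMod p) = 1 := by
    have := (ZMod.natCast_eq_natCast_iff' e 1 p).2 (by rw [he, Nat.mod_eq_of_lt (by omega)])
    simpa using this
  have h2 : ∀ r, 2 ≤ r → r < p → (e.choose r : ZMod p) = 0 := by
    intro r hr hrp
    have : Fact p.Prime := ⟨hp⟩
    have h4 := Choose.choose_modEq_choose_mod_mul_choose_div_nat (p := p) (n := e) (k := r)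
    rw [he, Nat.mod_eq_of_lt hrp, Nat.choose_eq_zero_of_lt (show 1 < r by omega), zero_mul] at h4
    have h3 := (ZMod.natCast_eq_natCast_iff _ _ p).2 h4
    simpa using h3
  obtain ⟨n, rfl⟩ : ∃ n, p = n + 1 := ⟨p - 1, by omega⟩
  have h := PS2_det_aux (R := ZMod (n + 1)) (n := n) (e := e) (l := l) (by omega) h1 h2
  have hev : Even n := by
    obtain ⟨w, hw⟩ := hodd
    exact ⟨w, by omega⟩
  rw [h, hev.neg_one_pow, one_mul, Nat.add_sub_cancel]

end W09h1
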