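import Pool.Agent.W_09e4ca_h1.PS1
import Pool.Agent.W_09e4ca_h1.PS2

/-!
# The special boxes

`p` odd, `t ≥ 1`, `d = p ^ t`, `h = p`, `m = p + d`, `N = (p - 1) d + e`, `e = d - p + 1`.
-/

namespace W09h1

open Finset MvPolynomial W_MP_09e4ca_co

theorem PS3_expand {F : Type} [CommRing F] {h : ℕ} (d e r : ℕ) :
    ((∏ i, (1 + (X i : MvPolynomial (Fin h) F) ^ d)) - 1) ^ r *
      ((∏ i, (1 + (X i : MvPolynomial (Fin h) F))) - 1) ^ e =
    ∑ k ∈ range (e + 1), ∑ l ∈ range (r + 1),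
      C (((-1 : F) ^ (k + e) * (e.choose k : F)) * ((-1 : F) ^ (l + r) * (r.choose l : F))) *
      ∏ i, Polynomial.aeval (X i : MvPolynomial (Fin h) F)
        ((1 + Polynomial.X) ^ k * (1 + Polynomial.X ^ d) ^ l : Polynomial F) := by
  rw [sub_pow, sub_pow, sum_mul_sum, sum_comm]
  refine sum_congr rfl fun k _ => sum_congr rfl fun l _ => ?_
  have h1 : (∏ i, Polynomial.aeval (X i : MvPolynomial (Fin h) F)
        ((1 + Polynomial.X) ^ k * (1 + Polynomial.X ^ d) ^ l : Polynomial F)) =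
      (∏ i, (1 + (X i : MvPolynomial (Fin h) F))) ^ k *
        (∏ i, (1 + (X i : MvPolynomial (Fin h) F) ^ d)) ^ l := by
    rw [← prod_pow, ← prod_pow, ← prod_mul_distrib]
    refine prod_congr rfl fun i _ => ?_
    simp only [map_mul, map_pow, map_add, map_one, Polynomial.aeval_X]
  rw [h1]
  simp only [map_mul, map_pow, map_neg, map_one, map_natCast, one_pow, mul_one]
  ring

/-- `QQ ^ N * VV` with `N = (p - 1) d + e`: over `ZMod p`, `QQ ^ d = ∏ (1 + y i ^ d) - 1`, so
`QQ ^ N = ∑_{k ≤ e, l ≤ p - 1} (-1) ^ (e - k) choose e k (-1) ^ (p - 1 - l) choose (p - 1) l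
∏ (1 + y i) ^ k (1 + y i ^ d) ^ l`. The coefficient at `c i = d + i` is by the lemmas above
`∑_{k, l} (...) (l ^ p + [k = e] l ^ (p - 1))`; the sum over `k` of `(-1) ^ (e - k) choose e k` is
zero (`e ≥ 1`), and there remains `∑_l (-1) ^ (p - 1 - l) choose (p - 1) l * l ^ (p - 1) =
∑_{1 ≤ l ≤ p - 1} (-1) ^ (p - 1 - l) choose (p - 1) l = 0 - (-1) ^ (p - 1) = -1`. -/
theorem coeff_special {p t : ℕ} (hp : p.Prime) (hp2 : p ≠ 2) (ht : 1 ≤ t) :
    coeff (Finsupp.equivFunOnFinite.symm fun i : Fin p => p ^ t + i)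
      (QQ (ZMod p) p ^ (p ^ (t + 1) - p + 1) * VV (ZMod p) p) ≠ 0 := by
  haveI : Fact p.Prime := ⟨hp⟩
  have hp3 : 3 ≤ p := by
    have := hp.two_le
    omega
  have hpd : p ≤ p ^ t := by
    calc p = p ^ 1 := (pow_one p).symm
      _ ≤ p ^ t := Nat.pow_le_pow_right hp.pos ht
  set e := p ^ t - p + 1 with he
  have hN : p ^ (t + 1) - p + 1 = p ^ t * (p - 1) + e := by
    obtain ⟨q, hq⟩ : ∃ q, p = q + 1 := ⟨p - 1, by omega⟩
    have h8 : p ^ (t + 1) = p ^ t * (p - 1) + p ^ t := by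
      rw [pow_succ]
      nth_rewrite 2 [hq]
      rw [hq, Nat.add_sub_cancel]
      ring
    rw [h8]
    omega
  have hemod : e % p = 1 := by
    obtain ⟨s, rfl⟩ : ∃ s, t = s + 1 := ⟨t - 1, by omega⟩
    have h9 : e = p * (p ^ s - 1) + 1 := by
      rw [he, pow_succ, Nat.mul_sub, Nat.mul_one, Nat.mul_comm]
    rw [h9, Nat.mul_add_mod, Nat.mod_eq_of_lt (by omega)]
  have hfrob : QQ (ZMod p) p ^ (p ^ t) =
      (∏ i, (1 + (X i : MvPolynomial (Fin p) (ZMod p)) ^ (p ^ t))) - 1 := by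
    unfold QQ
    rw [sub_pow_char_pow, one_pow, ← prod_pow]
    congr 1
    refine prod_congr rfl fun i _ => ?_
    rw [add_pow_char_pow, one_pow]
  have hQ : QQ (ZMod p) p ^ (p ^ (t + 1) - p + 1) =
      ∑ k ∈ range (e + 1), ∑ l ∈ range (p - 1 + 1),
      C (((-1 : ZMod p) ^ (k + e) * (e.choose k : ZMod p)) *
        ((-1 : ZMod p) ^ (l + (p - 1)) * ((p - 1).choose l : ZMod p))) *
      ∏ i, Polynomial.aeval (X i : MvPolynomial (Fin p) (ZMod p))
        ((1 + Polynomial.X) ^ k * (1 + Polynomial.X ^ (p ^ t)) ^ l : Polynomial (ZMod p)) := by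
    rw [← PS3_expand, hN, pow_add, pow_mul, hfrob]
    rfl
  rw [hQ, sum_mul, coeff_sum]
  have hterm : ∀ k ∈ range (e + 1), ∀ l ∈ range (p - 1 + 1),
      coeff (Finsupp.equivFunOnFinite.symm fun i : Fin p => p ^ t + i)
        ((C (((-1 : ZMod p) ^ (k + e) * (e.choose k : ZMod p)) *
        ((-1 : ZMod p) ^ (l + (p - 1)) * ((p - 1).choose l : ZMod p))) *
      ∏ i, Polynomial.aeval (X i : MvPolynomial (Fin p) (ZMod p))
        ((1 + Polynomial.X) ^ k * (1 + Polynomial.X ^ (p ^ t)) ^ l : Polynomial (ZMod p))) *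
        VV (ZMod p) p) =
      ((-1 : ZMod p) ^ (k + e) * (e.choose k : ZMod p)) *
        (((-1 : ZMod p) ^ (l + (p - 1)) * ((p - 1).choose l : ZMod p)) * (l : ZMod p) ^ p) +
      (if k = e then ((-1 : ZMod p) ^ (l + (p - 1)) * ((p - 1).choose l : ZMod p)) *
        (l : ZMod p) ^ (p - 1) else 0) := by
    intro k hk l _
    have hk' : k ≤ e := by
      have := mem_range.1 hk
      omega
    rw [mul_assoc, coeff_C_mul, coeff_prod_VV]
    have hm : (Matrix.of fun i j : Fin p => if (j : ℕ) ≤ p ^ t + i then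
        ((1 + Polynomial.X) ^ k * (1 + Polynomial.X ^ (p ^ t)) ^ l : Polynomial (ZMod p)).coeff
          (p ^ t + i - j) else 0) =
        Matrix.of fun i j : Fin p =>
          (if (j : ℕ) ≤ i then (l : ZMod p) * (k.choose (i - j) : ZMod p) else 0) +
          (if k = p ^ t - p + 1 ∧ (i : ℕ) = 0 ∧ (j : ℕ) + 1 = p then 1 else 0) := by
      ext i j
      simp only [Matrix.of_apply]
      exact entry_special (by omega) hpd hk' i j
    rw [hm]
    rcases Nat.lt_or_ge k e with h | h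
    · have hm2 : (Matrix.of fun i j : Fin p =>
          (if (j : ℕ) ≤ i then (l : ZMod p) * (k.choose (i - j) : ZMod p) else 0) +
          (if k = p ^ t - p + 1 ∧ (i : ℕ) = 0 ∧ (j : ℕ) + 1 = p then (1 : ZMod p) else 0)) =
          Matrix.of fun i j : Fin p =>
          (if (j : ℕ) ≤ i then (l : ZMod p) * (k.choose (i - j) : ZMod p) else 0) := by
        ext i j
        simp only [Matrix.of_apply]
        have hne : ¬ (k = p ^ t - p + 1 ∧ (i : ℕ) = 0 ∧ (j : ℕ) + 1 = p) := by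
          rintro ⟨hh, -, -⟩
          omega
        simp only [hne, if_false, add_zero]
      rw [hm2, det_small, if_neg (by omega)]
      ring
    · have hke : k = e := le_antisymm hk' h
      have hm2 : (Matrix.of fun i j : Fin p =>
          (if (j : ℕ) ≤ i then (l : ZMod p) * (k.choose (i - j) : ZMod p) else 0) +
          (if k = p ^ t - p + 1 ∧ (i : ℕ) = 0 ∧ (j : ℕ) + 1 = p then (1 : ZMod p) else 0)) =
          Matrix.of fun i j : Fin p =>
          (if (j : ℕ) ≤ i then (l : ZMod p) * (e.choose (i - j) : ZMod p) else 0) +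
          (if (i : ℕ) = 0 ∧ (j : ℕ) + 1 = p then 1 else 0) := by
        ext i j
        simp only [Matrix.of_apply]
        rw [hke]
        simp only [← he, true_and]
      rw [hm2, det_top hp hp3 hemod, if_pos hke, hke, Nat.choose_self]
      have h1 : (-1 : ZMod p) ^ (e + e) = 1 := by
        rw [← two_mul, pow_mul]; simp
      rw [h1]
      push_cast
      ring
  have hsum : ∀ k ∈ range (e + 1),
      coeff (Finsupp.equivFunOnFinite.symm fun i : Fin p => p ^ t + i)
        ((∑ l ∈ range (p - 1 + 1), C (((-1 : ZMod p) ^ (k + e) * (e.choose k : ZMod p)) *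
        ((-1 : ZMod p) ^ (l + (p - 1)) * ((p - 1).choose l : ZMod p))) *
      ∏ i, Polynomial.aeval (X i : MvPolynomial (Fin p) (ZMod p))
        ((1 + Polynomial.X) ^ k * (1 + Polynomial.X ^ (p ^ t)) ^ l : Polynomial (ZMod p))) *
        VV (ZMod p) p) =
      ((-1 : ZMod p) ^ (k + e) * (e.choose k : ZMod p)) *
        (∑ l ∈ range (p - 1 + 1), ((-1 : ZMod p) ^ (l + (p - 1)) * ((p - 1).choose l : ZMod p)) *
          (l : ZMod p) ^ p) +
      (if k = e then ∑ l ∈ range (p - 1 + 1), ((-1 : ZMod p) ^ (l + (p - 1)) *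
        ((p - 1).choose l : ZMod p)) * (l : ZMod p) ^ (p - 1) else 0) := by
    intro k hk
    rw [sum_mul, coeff_sum, sum_congr rfl (hterm k hk), sum_add_distrib, mul_sum]
    congr 1
    split_ifs with h
    · rfl
    · exact sum_const_zero
  rw [sum_congr rfl hsum, sum_add_distrib, ← sum_mul, sum_ite_eq' (range (e + 1)) e,
    if_pos (mem_range.2 (Nat.lt_succ_self e))]
  have halt : ∀ n : ℕ, 1 ≤ n →
      ∑ k ∈ range (n + 1), (-1 : ZMod p) ^ (k + n) * (n.choose k : ZMod p) = 0 := by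
    intro n hn
    have h1 : ((1 : ZMod p) - 1) ^ n = 0 := by
      rw [sub_self, zero_pow (by omega)]
    rw [sub_pow] at h1
    simpa using h1
  rw [halt e (by omega), zero_mul, zero_add]
  have hlast : ∑ l ∈ range (p - 1 + 1), ((-1 : ZMod p) ^ (l + (p - 1)) *
        ((p - 1).choose l : ZMod p)) * (l : ZMod p) ^ (p - 1) = - (-1) ^ (p - 1) := by
    have h0 := halt (p - 1) (by omega)
    rw [sum_range_succ'] at h0 ⊢
    have h2 : ∀ l ∈ range (p - 1), ((-1 : ZMod p) ^ (l + 1 + (p - 1)) *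
        ((p - 1).choose (l + 1) : ZMod p)) * ((l + 1 : ℕ) : ZMod p) ^ (p - 1) =
        (-1 : ZMod p) ^ (l + 1 + (p - 1)) * ((p - 1).choose (l + 1) : ZMod p) := by
      intro l hl
      have hl' := mem_range.1 hl
      have h3 : ((l + 1 : ℕ) : ZMod p) ≠ 0 := by
        intro h4
        rw [ZMod.natCast_eq_zero_iff] at h4
        have := Nat.le_of_dvd (by omega) h4
        omega
      rw [ZMod.pow_card_sub_one_eq_one h3, mul_one]
    rw [sum_congr rfl h2]
    rw [Nat.cast_zero, zero_pow (by omega), mul_zero, add_zero]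
    rw [Nat.choose_zero_right, Nat.cast_one, mul_one, Nat.zero_add] at h0
    exact eq_neg_of_add_eq_zero_left h0
  rw [hlast]
  exact neg_ne_zero.2 (pow_ne_zero _ (neg_ne_zero.2 one_ne_zero))

/-- `coeff_restr` and `coeff_special`. -/
theorem card_restr_special {p k t : ℕ} (hp : p.Prime) (hp2 : p ≠ 2) (ht : 1 ≤ t)
    (A : Finset (ZMod (p ^ k))) (hA : #A = p + p ^ t) :
    p ^ (t + 1) - p + 2 ≤ #(restr A p) := by
  by_contra hcon
  refine coeff_special hp hp2 ht (coeff_restr hp A (by omega) _ ?_)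
  intro i
  have := i.2
  simp only [Finsupp.equivFunOnFinite_symm_apply_apply]
  omega

end W09h1
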