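import Pool.Agent.W_09e4ca_h1.TwoB

/-!
# Two-groups: the induction step for `3 ≤ h ≤ m - 3`
-/

namespace W09h1

open Finset W_MP_09e4ca_co

private theorem TwoD2_even {k t h j : ℕ} (hk : Two k) (A : Finset (ZMod (2 ^ (k + 1))))
    (hA : 2 ^ t < #A) (hj1 : 1 ≤ 2 * j) (hj2 : 2 * j < #(od k A)) (hj3 : 2 * j < h)
    (hj4 : h < 2 * j + #(ev k A)) : 2 ^ t ≤ #(ev k (restr A h)) := by
  have hc := card_ev_add_od k A
  have h1 := card_le_restr hk (od k A) hj1 hj2
  have h2 := card_le_restr hk (ev k A) (h := h - 2 * j) (by omega) (by omega)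
  have h3 := ev_ge (t := t) A (i := h - 2 * j) (j := j) (by omega) (by omega) (by omega)
  rwa [Nat.sub_add_cancel hj3.le] at h3

private theorem TwoD2_odd {k t h j : ℕ} (hk : Two k) (A : Finset (ZMod (2 ^ (k + 1))))
    (hA : 2 ^ t < #A) (hj2 : 2 * j + 1 < #(od k A)) (hj3 : 2 * j + 1 < h)
    (hj4 : h < 2 * j + 1 + #(ev k A)) : 2 ^ t ≤ #(od k (restr A h)) := by
  have hc := card_ev_add_od k A
  have h1 := card_le_restr hk (od k A) (h := 2 * j + 1) (by omega) hj2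
  have h2 := card_le_restr hk (ev k A) (h := h - (2 * j + 1)) (by omega) (by omega)
  have h3 := od_ge (t := t) A (i := h - (2 * j + 1)) (j := j) (by omega) (by omega) (by omega)
  rwa [Nat.sub_add_cancel hj3.le] at h3

/-- `#O ≥ 3`, `#E ≥ 3`. Two consecutive numbers `j` with `1 ≤ j ≤ #O - 1`, `1 ≤ h - j ≤ #E - 1`:
`j = max 1 (h - #E + 1)` and `j + 1`. For both `#(restr E (h - j)) + #(restr O j) ≥ #E + #O > 2 ^ t`
(`card_le_restr`), so `ev_ge` and `od_ge` give `2 ^ t` elements in each class. -/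
theorem mid_three {k t h : ℕ} (hk : Two k) (A : Finset (ZMod (2 ^ (k + 1)))) (hA : 2 ^ t < #A)
    (h3 : 3 ≤ h) (h4 : h + 3 ≤ #A) (hO : 3 ≤ #(od k A)) (hE : 3 ≤ #(ev k A)) :
    2 ^ (t + 1) ≤ #(restr A h) := by
  have hc := card_ev_add_od k A
  have hr := card_ev_add_od k (restr A h)
  obtain ⟨j0, hj0⟩ : ∃ j0, j0 = max 1 (h + 1 - #(ev k A)) := ⟨_, rfl⟩
  have hj1 : 1 ≤ j0 := hj0 ▸ le_max_left _ _
  have hj2 : h + 1 - #(ev k A) ≤ j0 := hj0 ▸ le_max_right _ _
  have hj3 : j0 + 1 < #(od k A) := by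
    rcases max_cases 1 (h + 1 - #(ev k A)) with h5 | h5 <;> omega
  have hj4 : j0 + 1 < h := by
    rcases max_cases 1 (h + 1 - #(ev k A)) with h5 | h5 <;> omega
  have h6 : 2 ^ t ≤ #(ev k (restr A h)) := by
    rcases Nat.even_or_odd' j0 with ⟨c, hc' | hc'⟩
    · exact TwoD2_even (j := c) hk A hA (by omega) (by omega) (by omega) (by omega)
    · exact TwoD2_even (j := c + 1) hk A hA (by omega) (by omega) (by omega) (by omega)
  have h7 : 2 ^ t ≤ #(od k (restr A h)) := by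
    rcases Nat.even_or_odd' j0 with ⟨c, hc' | hc'⟩
    · exact TwoD2_odd (j := c) hk A hA (by omega) (by omega) (by omega)
    · exact TwoD2_odd (j := c) hk A hA (by omega) (by omega) (by omega)
  rw [pow_succ]
  omega

end W09h1
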