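import Pool.Agent.W_09e4ca_h1.TwoC
import Pool.Agent.W_09e4ca_h1.TwoD

/-!
# Two-groups
-/

namespace W09h1

open Finset W_MP_09e4ca_co

private theorem Two_aux {k : ℕ} (hk : Two k) (A : Finset (ZMod (2 ^ (k + 1)))) (h t : ℕ)
    (h2 : 2 ≤ h) (hh : h + 2 ≤ #A) (hh2 : h = 2 ∨ h + 3 ≤ #A ∧ 3 ≤ h) (hA : 2 ^ t < #A)
    (hEO : #(od k A) ≤ #(ev k A)) :
    min (2 ^ (t + 1)) (h * (#A - h) + 1) ≤ #(restr A h) := by
  have hc := card_ev_add_od k A
  rcases hh2 with rfl | ⟨h4, h3⟩
  · exact two_step hk A hA (by omega) hEO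
  · refine (min_le_left _ _).trans ?_
    rcases Nat.lt_or_ge (#(od k A)) 3 with hO | hO
    · interval_cases hx : #(od k A)
      · exact mid_zero hk A hA h3 h4 hx
      · exact mid_one hk A hA h3 h4 hx
      · exact mid_two hk A hA h3 h4 hx
    · exact mid_three hk A hA h3 h4 hO (by omega)

private theorem Two_aux2 {k : ℕ} (hk : Two k) (A : Finset (ZMod (2 ^ (k + 1)))) (h t : ℕ)
    (h2 : 2 ≤ h) (hh : h + 2 ≤ #A) (hh2 : h = 2 ∨ h + 3 ≤ #A ∧ 3 ≤ h) (hA : 2 ^ t < #A) :
    min (2 ^ (t + 1)) (h * (#A - h) + 1) ≤ #(restr A h) := by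
  rcases le_total (#(od k A)) (#(ev k A)) with hEO | hEO
  · exact Two_aux hk A h t h2 hh hh2 hA hEO
  · obtain ⟨e1, e2⟩ := ev_translate k A
    have hcA : #(A.image fun x => x + 1) = #A :=
      card_image_of_injective _ (add_left_injective 1)
    have := Two_aux hk (A.image fun x => x + 1) h t h2 (by rw [hcA]; exact hh)
      (by rw [hcA]; exact hh2) (by rw [hcA]; exact hA) (by rw [e1, e2]; exact hEO)
    rwa [hcA, restr_translate] at this

/-- Induction on `k`. `k = 0`: `#A ≤ 1`. Step: `h = 0`, `h = #A`: the right side is `1`. `h = 1`,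
`h = #A - 1`: `restr_one`, `card_restr_compl`. `h = 2`, `h = #A - 2`: `two_step` (for `A` or its
translate by `1`, `ev_translate`, `restr_translate`; the case `#A - 2` by `card_restr_compl`).
`3 ≤ h ≤ #A - 3`: `mid_zero`, ..., `mid_three` (again for `A` or its translate). -/
theorem two_all (k : ℕ) : Two k := by
  induction k with
  | zero =>
    intro A h t _ hA
    exfalso
    have h1 : #A ≤ 1 := by
      have := card_le_univ A
      rwa [ZMod.card] at this
    have h2 : 1 ≤ 2 ^ t := Nat.one_le_two_pow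
    omega
  | succ k hk =>
    intro A h t hh hA
    have hpos : 1 ≤ #(restr A h) := card_pos.2 (restr_nonempty hh)
    rcases Nat.lt_or_ge h 1 with h0 | h1
    · have : h = 0 := by omega
      subst this
      rw [zero_mul, zero_add]
      exact (min_le_right _ _).trans hpos
    rcases Nat.eq_or_lt_of_le hh with hm | hm
    · rw [hm, Nat.sub_self, mul_zero, zero_add]
      refine (min_le_right _ _).trans ?_
      rw [← hm]
      exact hpos
    rcases Nat.lt_or_ge h 2 with h2 | h2
    · have : h = 1 := by omega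
      subst this
      rw [restr_one]
      refine (min_le_right _ _).trans ?_
      omega
    rcases Nat.lt_or_ge (#A) (h + 2) with hm1 | hm2
    · have hcA := card_restr_compl A (h := 1) (k := h) (by omega)
      rw [hcA, restr_one]
      refine (min_le_right _ _).trans ?_
      have : #A - h = 1 := by omega
      rw [this]
      omega
    rcases Nat.lt_or_ge (#A) (h + 3) with hm3 | hm3
    · -- `#A = h + 2`
      have hAh : #A = h + 2 := by omega
      have hcA := card_restr_compl A (h := 2) (k := h) (by omega)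
      rw [hcA]
      have := Two_aux2 hk A 2 t le_rfl (by omega) (Or.inl rfl) hA
      refine le_trans (le_of_eq ?_) this
      rw [hAh]
      congr 2
      have e1 : h + 2 - h = 2 := by omega
      have e2 : h + 2 - 2 = h := by omega
      rw [e1, e2, mul_comm]
    · refine Two_aux2 hk A h t h2 hm2 ?_ hA
      rcases Nat.eq_or_lt_of_le h2 with h5 | h5
      · exact Or.inl h5.symm
      · exact Or.inr ⟨hm3, h5⟩

end W09h1
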