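import Pool.Agent.W_09e4ca_h1.Full
import Pool.Agent.W_09e4ca_h1.PF
import Pool.Agent.W_09e4ca_h1.PS
import Pool.Agent.W_09e4ca_h1.Two

/-!
# The lower bound for restricted sumsets in `ZMod (p ^ k)`
-/

namespace W09h1

open Finset W_MP_09e4ca_co W09h33

theorem Low_delta {p t : ℕ} (ht : 1 ≤ t) : delta (p ^ 1) (p + p ^ t) p = p - 1 ∧
    delta (p ^ 1) (p + p ^ t) (p ^ t) = p - 1 := by
  have h1 : p ^ t % p = 0 := Nat.mod_eq_zero_of_dvd (dvd_pow_self p (by omega))
  have h2 : (p + p ^ t) % p = 0 := by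
    rw [Nat.add_mod_left]; exact h1
  constructor
  · unfold delta
    rw [if_pos]
    · rw [pow_one]
    · rw [pow_one]; exact ⟨h2, Nat.mod_self p⟩
  · unfold delta
    rw [if_pos]
    · rw [pow_one]
    · rw [pow_one]; exact ⟨h2, h1⟩

/-- `p = 2`: let `2 ^ t < #A ≤ 2 ^ (t + 1)`, so `t + 1 ≤ k`; `two_all` and `delta_big` with
`s = t + 1` or `s = 0`. Odd `p`: `comb_main` with `T = k`, `a = h`, `b = #A - h`; if the box is not
special, `card_restr_of_R`. If it is special, `#A = p + p ^ t`, `t + 1 ≤ k`, `h = p` or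
`#A - h = p` (`card_restr_compl`), `s = 1`: `delta p (p + p ^ t) h = p - 1`, and
`card_restr_special`. -/
theorem restr_lower {p k h : ℕ} (hp : p.Prime) (A : Finset (ZMod (p ^ k))) (h1 : 1 ≤ h)
    (h2 : h < #A) :
    ∃ s ≤ k, h * (#A - h) + 1 ≤ #(restr A h) + delta (p ^ s) #A h := by
  have hne : NeZero (p ^ k) := ⟨pow_ne_zero k hp.ne_zero⟩
  have hcard : #A ≤ p ^ k := by
    have h3 := Finset.card_le_univ A
    rwa [ZMod.card] at h3
  obtain ⟨b, hb⟩ : ∃ b, #A = h + b := ⟨#A - h, by omega⟩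
  have hb1 : 1 ≤ b := by omega
  have hsub : #A - h = b := by omega
  have hpow : ∀ t, p ^ t < #A → t < k := fun t ht =>
    (Nat.pow_lt_pow_iff_right hp.one_lt).1 (lt_of_lt_of_le ht hcard)
  rw [hsub]
  by_cases hp2 : p = 2
  · subst hp2
    have h3 : 2 ^ Nat.log 2 (#A - 1) ≤ #A - 1 := Nat.pow_log_le_self 2 (by omega)
    have h4 : #A - 1 < 2 ^ (Nat.log 2 (#A - 1) + 1) := Nat.lt_pow_succ_log_self (by norm_num) _
    obtain ⟨t, ht⟩ : ∃ t, t = Nat.log 2 (#A - 1) := ⟨_, rfl⟩
    rw [← ht] at h3 h4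
    have h5 : 2 ^ t < #A := by omega
    have h6 := two_all k A h t h2.le h5
    have h7 := hpow t h5
    rw [hsub] at h6
    rcases min_le_iff.1 h6 with h8 | h8
    · refine ⟨t + 1, by omega, ?_⟩
      have h9 : h + b ≤ 2 ^ (t + 1) := by omega
      rw [hb, delta_big h1 hb1 h9]
      have h10 : 1 ≤ 2 ^ (t + 1) := Nat.one_le_two_pow
      omega
    · exact ⟨0, Nat.zero_le k, by omega⟩
  · rcases comb_main hp hp2 k h b h1 hb1 (by omega) with ⟨t, ht, h3 | h3⟩ | ⟨s, hs, N, hR, hN⟩
    · obtain ⟨h4, h5⟩ := h3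
      subst h4
      subst h5
      have h6 := hpow t (by have := hp.pos; omega)
      have h7 := card_restr_special hp hp2 ht A hb
      refine ⟨1, by omega, ?_⟩
      rw [hb, (Low_delta ht).1]
      have h8 : h * h ^ t = h ^ (t + 1) := by ring
      have h9 : h ≤ h ^ (t + 1) := Nat.le_self_pow (by omega) h
      have h10 := hp.pos
      rw [h8]
      omega
    · obtain ⟨h4, h5⟩ := h3
      subst h5
      subst h4
      have h6 := hpow t (by have := hp.pos; omega)
      have hb' : #A = b + b ^ t := by omega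
      have h7 := card_restr_special hp hp2 ht A hb'
      rw [card_restr_compl A (h := b ^ t) (k := b) (by omega)] at h7
      refine ⟨1, by omega, ?_⟩
      rw [hb', (Low_delta ht).2]
      have h8 : b ^ t * b = b ^ (t + 1) := by ring
      have h9 : b ≤ b ^ (t + 1) := Nat.le_self_pow (by omega) b
      have h10 := hp.pos
      rw [h8]
      omega
    · refine ⟨s, hs, ?_⟩
      have h3 := card_restr_of_R hp hR A hb
      rw [hb]
      omega

end W09h1
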