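import Pool.Agent.W_09e4ca_h1.OpA1
import Pool.Agent.W_MP_09e4ca_h33.DA

/-!
# Operations on the sets `S`: reflection, enlarging the box
-/

namespace W09h1

open Finset

/-- Enlarging the box: for `b` the same `S`; for `a` take `range (a' - a) ∪ (S + (a' - a))` (the
elements below `a' - a` contribute nothing) or use `R_symm`. -/
theorem R_mono {p a b a' b' N : ℕ} (h : R p a b N) (ha : a ≤ a') (hb : b ≤ b') :
    R p a' b' N := by
  have key : ∀ {a b b' : ℕ}, R p a b N → b ≤ b' → R p a b' N := by
    intro a b b' h hb
    obtain ⟨S, h1, h2, h3⟩ := h
    exact ⟨S, h1.trans (range_subset_range.2 (by omega)), h2, h3⟩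
  exact R_symm (key (R_symm (key h hb)) ha)

/-- `S = range a`. -/
theorem R_zero (p a b : ℕ) : R p a b 0 := by
  refine ⟨range a, range_subset_range.2 (by omega), card_range a, fun s => ?_⟩
  rw [Nat.zero_div]
  unfold inv
  apply sum_eq_zero
  intro x hx
  rw [card_eq_zero, filter_eq_empty_iff]
  intro y hy h
  rw [mem_range] at hx hy
  exact h.1 (mem_range.2 (by omega))

private theorem OpA2_card_dvd (b P : ℕ) : #{y ∈ range b | P ∣ b - y} = b / P := by
  rw [← Nat.Ioc_filter_dvd_card_eq_div b P]
  apply card_nbij' (fun y => b - y) (fun y => b - y)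
  · intro y hy
    simp only [coe_filter, mem_range, Set.mem_ofPred_eq, mem_Ioc] at hy ⊢
    exact ⟨⟨by omega, by omega⟩, hy.2⟩
  · intro y hy
    simp only [coe_filter, mem_range, Set.mem_ofPred_eq, mem_Ioc] at hy ⊢
    have e : b - (b - y) = y := by omega
    rw [e]
    exact ⟨by omega, hy.2⟩
  · intro y hy
    simp only [coe_filter, mem_range, Set.mem_ofPred_eq] at hy
    change b - (b - y) = y
    omega
  · intro y hy
    simp only [coe_filter, mem_Ioc, Set.mem_ofPred_eq] at hy
    change b - (b - y) = y
    omega

/-- `S = {b}`: `inv P {b}` is the number of `y < b` with `P ∣ b - y`, i.e. `⌊b / P⌋`. -/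
theorem R_one {p : ℕ} (hp : 0 < p) (b : ℕ) : R p 1 b b := by
  refine ⟨{b}, ?_, card_singleton b, fun s => ?_⟩
  · rw [singleton_subset_iff, mem_range]
    omega
  · unfold inv
    rw [sum_singleton, ← OpA2_card_dvd b (p ^ s)]
    congr 1
    apply filter_congr
    intro y hy
    rw [mem_range] at hy
    rw [notMem_singleton]
    constructor
    · intro h
      exact h.2
    · intro h
      exact ⟨by omega, h⟩

private theorem OpA2_inv_insert {P x0 : ℕ} {S : Finset ℕ} (hS : S ⊆ range x0) :
    inv P (insert x0 S) = #{y ∈ range x0 | y ∉ S ∧ P ∣ x0 - y} + inv P S := by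
  have hx : x0 ∉ S := fun h => by
    have := mem_range.1 (hS h)
    omega
  unfold inv
  rw [sum_insert hx]
  congr 1
  · congr 1
    apply filter_congr
    intro y hy
    rw [mem_range] at hy
    rw [mem_insert]
    have : y ≠ x0 := by omega
    tauto
  · apply sum_congr rfl
    intro x hxS
    congr 1
    apply filter_congr
    intro y hy
    have h1 := mem_range.1 (hS hxS)
    rw [mem_range] at hy
    rw [mem_insert]
    have : y ≠ x0 := by omega
    tauto

/-- For `a + b ≤ p`, `N ≤ a b`, `N < p`: any `S` with `inv 1 S = N` works, since
`inv (p ^ s) S = 0 = N / p ^ s` for `s ≥ 1` (differences are smaller than `p`). Such an `S`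
exists: `inv 1 S = ∑_{x ∈ S} x - a (a - 1) / 2` (the `i`-th element of `S`, counted from `0`, has
`x - i` elements of the complement below it), and `W09h33.exists_exponents` (file
`W_MP_09e4ca_h33/DA.lean`) gives `a` distinct numbers in `[0, a + b)` with sum
`N + a (a - 1) / 2`; or argue directly: `N = s b + r`, `S` consists of `0, ..., a - s - 2`, then
`a - s - 1 + r`, and the top `s` numbers. -/
theorem R_any {p a b N : ℕ} (hp : 0 < p) (hab : a + b ≤ p) (hN : N ≤ a * b) (hNp : N < p) :
    R p a b N := by
  induction a generalizing N with
  | zero =>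
    have : N = 0 := by simpa using hN
    subst this
    exact R_zero p 0 b
  | succ a ih =>
    by_cases h1 : N ≤ a * b
    · exact R_mono (ih (by omega) h1 hNp) (by omega) le_rfl
    · by_cases h2 : b ≤ N
      · have h3 : N - b ≤ a * b := by
          have : (a + 1) * b = a * b + b := by ring
          omega
        obtain ⟨S, hS1, hS2, hS3⟩ := ih (by omega) h3 (by omega)
        have hx : a + b ∉ S := fun h => by
          have := mem_range.1 (hS1 h)
          omega
        refine ⟨insert (a + b) S, ?_, ?_, fun s => ?_⟩
        · intro x hx
          rw [mem_insert] at hx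
          rw [mem_range]
          rcases hx with rfl | hx
          · omega
          · have := mem_range.1 (hS1 hx)
            omega
        · rw [card_insert_of_notMem hx, hS2]
        · rw [OpA2_inv_insert hS1, hS3]
          rcases Nat.eq_zero_or_pos s with rfl | hs
          · rw [pow_zero, Nat.div_one, Nat.div_one]
            have e : #{y ∈ range (a + b) | y ∉ S ∧ 1 ∣ a + b - y} = b := by
              have e1 : ({y ∈ range (a + b) | y ∉ S ∧ 1 ∣ a + b - y} : Finset ℕ) =
                  range (a + b) \ S := by
                ext y
                simp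
              rw [e1, card_sdiff_of_subset hS1, card_range, hS2]
              omega
            rw [e]
            omega
          · have hps : p ≤ p ^ s := Nat.le_self_pow (by omega) p
            rw [Nat.div_eq_of_lt (show N - b < p ^ s by omega),
              Nat.div_eq_of_lt (show N < p ^ s by omega), add_zero, card_eq_zero,
              filter_eq_empty_iff]
            intro y hy h
            rw [mem_range] at hy
            have h4 := Nat.le_of_dvd (by omega) h.2
            omega
      · rcases Nat.eq_zero_or_pos a with rfl | ha
        · exact R_mono (R_one hp N) (by omega) (by omega)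
        · exfalso
          apply h1
          have : b ≤ a * b := Nat.le_mul_of_pos_left b ha
          omega

end W09h1
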