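import Pool.Agent.W_09e4ca_h1.Defs

/-!
# Operations on the sets `S`: reflection, enlarging the box
-/

namespace W09h1

open Finset

/-- `inv P S` as the number of pairs. (Group the pairs by `x`; `S ⊆ range m`.) -/
theorem inv_eq_card {P m : ℕ} {S : Finset ℕ} (hS : S ⊆ range m) :
    inv P S = #{z ∈ range m ×ˢ range m | z.2 < z.1 ∧ z.1 ∈ S ∧ z.2 ∉ S ∧ P ∣ z.1 - z.2} := by
  unfold inv
  rw [Finset.card_eq_sum_card_fiberwise (f := Prod.fst) (t := S)]
  · refine Finset.sum_congr rfl fun x hx => ?_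
    have hxm := mem_range.1 (hS hx)
    refine Finset.card_nbij' (fun y => (x, y)) (fun z => z.2) ?_ ?_ ?_ ?_
    · intro y hy
      simp only [coe_filter, mem_range, Set.mem_setOf_eq] at hy
      simp only [coe_filter, mem_filter, mem_product, mem_range, Set.mem_setOf_eq]
      exact ⟨⟨⟨hxm, by omega⟩, hy.1, hx, hy.2.1, hy.2.2⟩, trivial⟩
    · rintro ⟨u, v⟩ hz
      simp only [coe_filter, mem_filter, mem_product, mem_range, Set.mem_setOf_eq] at hz
      simp only [coe_filter, mem_range, Set.mem_setOf_eq]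
      obtain ⟨⟨-, h1, -, h2, h3⟩, rfl⟩ := hz
      exact ⟨h1, h2, h3⟩
    · intro y _
      rfl
    · rintro ⟨u, v⟩ hz
      simp only [coe_filter, mem_filter, mem_product, mem_range, Set.mem_setOf_eq] at hz
      obtain ⟨-, rfl⟩ := hz
      rfl
  · intro z hz
    simp only [coe_filter, mem_product, mem_range, Set.mem_setOf_eq] at hz
    exact hz.2.2.1

theorem OpA1_mem_reflect {m x : ℕ} {S : Finset ℕ} (hx : x < m) :
    x ∈ (range m \ S).image (fun x => m - 1 - x) ↔ m - 1 - x ∉ S := by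
  simp only [mem_image, mem_sdiff, mem_range]
  constructor
  · rintro ⟨y, ⟨h1, h2⟩, rfl⟩
    rwa [show m - 1 - (m - 1 - y) = y by omega]
  · intro h
    exact ⟨m - 1 - x, ⟨by omega, h⟩, by omega⟩

theorem OpA1_reflect_sub {m : ℕ} {S : Finset ℕ} :
    (range m \ S).image (fun x => m - 1 - x) ⊆ range m := by
  intro x hx
  simp only [mem_image, mem_sdiff, mem_range] at hx ⊢
  obtain ⟨y, ⟨h1, h2⟩, rfl⟩ := hx
  omega

/-- The reflected complement has the same `inv`: the pair `y < x` goes to `m - 1 - x < m - 1 - y`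
(`inv_eq_card` and a bijection of the pairs). -/
theorem inv_reflect {P m : ℕ} {S : Finset ℕ} (hS : S ⊆ range m) :
    inv P ((range m \ S).image fun x => m - 1 - x) = inv P S := by
  rw [inv_eq_card (OpA1_reflect_sub (m := m) (S := S)), inv_eq_card hS]
  refine Finset.card_nbij' (fun z => (m - 1 - z.2, m - 1 - z.1))
    (fun z => (m - 1 - z.2, m - 1 - z.1)) ?_ ?_ ?_ ?_
  · rintro ⟨x, y⟩ hz
    simp only [coe_filter, mem_product, mem_range, Set.mem_setOf_eq] at hz ⊢
    obtain ⟨⟨hx, hy⟩, h1, h2, h3, h4⟩ := hz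
    rw [OpA1_mem_reflect hx] at h2
    rw [OpA1_mem_reflect hy, not_not] at h3
    refine ⟨⟨by omega, by omega⟩, by omega, h3, h2, ?_⟩
    rwa [show m - 1 - y - (m - 1 - x) = x - y by omega]
  · rintro ⟨x, y⟩ hz
    simp only [coe_filter, mem_product, mem_range, Set.mem_setOf_eq] at hz ⊢
    obtain ⟨⟨hx, hy⟩, h1, h2, h3, h4⟩ := hz
    refine ⟨⟨by omega, by omega⟩, by omega, ?_, ?_, ?_⟩
    · rw [OpA1_mem_reflect (by omega), show m - 1 - (m - 1 - y) = y by omega]
      exact h3
    · rw [OpA1_mem_reflect (by omega), show m - 1 - (m - 1 - x) = x by omega, not_not]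
      exact h2
    · rwa [show m - 1 - y - (m - 1 - x) = x - y by omega]
  · rintro ⟨x, y⟩ hz
    simp only [coe_filter, mem_product, mem_range, Set.mem_setOf_eq] at hz
    obtain ⟨⟨hx, hy⟩, -⟩ := hz
    simp only [Prod.mk.injEq]
    omega
  · rintro ⟨x, y⟩ hz
    simp only [coe_filter, mem_product, mem_range, Set.mem_setOf_eq] at hz
    obtain ⟨⟨hx, hy⟩, -⟩ := hz
    simp only [Prod.mk.injEq]
    omega

theorem OpA1_card_reflect {m : ℕ} {S : Finset ℕ} (hS : S ⊆ range m) :
    #((range m \ S).image fun x => m - 1 - x) = m - #S := by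
  rw [Finset.card_image_of_injOn, Finset.card_sdiff_of_subset hS, card_range]
  intro x hx y hy h
  simp only [coe_sdiff, coe_range, Set.mem_diff, Set.mem_Iio] at hx hy h
  omega

theorem G_symm {p t a b N : ℕ} (h : G p t a b N) : G p t b a N := by
  obtain ⟨S, hS, hc, hi⟩ := h
  refine ⟨(range (a + b) \ S).image fun x => a + b - 1 - x, ?_, ?_, ?_⟩
  · rw [add_comm b a]
    exact OpA1_reflect_sub
  · rw [OpA1_card_reflect hS, hc]
    omega
  · intro s hs
    rw [inv_reflect hS]
    exact hi s hs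

theorem R_symm {p a b N : ℕ} (h : R p a b N) : R p b a N := by
  obtain ⟨S, hS, hc, hi⟩ := h
  refine ⟨(range (a + b) \ S).image fun x => a + b - 1 - x, ?_, ?_, ?_⟩
  · rw [add_comm b a]
    exact OpA1_reflect_sub
  · rw [OpA1_card_reflect hS, hc]
    omega
  · intro s
    rw [inv_reflect hS]
    exact hi s

end W09h1
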