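import Pool.Agent.W_09e4ca_h1.Defs

/-!
# Operations on the sets `S`: the two moves by `d = p ^ t`
-/

namespace W09h1

open Finset

private theorem OpB2_count {P d z : ℕ} (hP : 0 < P) (hd : P ∣ d) :
    #{y ∈ range d | y ≡ z [MOD P]} = d / P := by
  have h := Nat.count_modEq_card d hP z
  rw [Nat.count_eq_card_filter_range] at h
  rw [h, Nat.mod_eq_zero_of_dvd hd]
  simp

private theorem OpB2_dvd {P x y : ℕ} (h : y ≤ x) : P ∣ x - y ↔ x ≡ y [MOD P] :=
  ⟨fun h' => ((Nat.modEq_iff_dvd' h).mpr h').symm, fun h' => (Nat.modEq_iff_dvd' h).mp h'.symm⟩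

private theorem OpB2_c1 {P d m L : ℕ} (hm : m + L = d) {S : Finset ℕ}
    (hS : S ⊆ range m) {x : ℕ} (hx : x ∈ S) :
    #{y ∈ range (x + L) | y ∉ (S.image fun x => x + L) ∪ Ico d (d + L) ∧ P ∣ x + L - y}
      = #{y ∈ range x | y ∉ S ∧ P ∣ x - y} + #{z ∈ range L | x + L ≡ z [MOD P]} := by
  have hxm : x < m := mem_range.mp (hS hx)
  have h1 : ({y ∈ range (x + L) | y ∉ (S.image fun x => x + L) ∪ Ico d (d + L) ∧ P ∣ x + L - y}
      : Finset ℕ) = ({y ∈ range x | y ∉ S ∧ P ∣ x - y} : Finset ℕ).image (fun y => y + L)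
        ∪ {z ∈ range L | x + L ≡ z [MOD P]} := by
    ext y
    simp only [mem_filter, mem_range, mem_union, mem_image, mem_Ico, not_or, not_exists, not_and]
    constructor
    · rintro ⟨h1, ⟨h2, h3⟩, h4⟩
      by_cases hy : y < L
      · right
        exact ⟨hy, (OpB2_dvd (by omega)).mp h4⟩
      · left
        refine ⟨y - L, ⟨by omega, ?_, ?_⟩, by omega⟩
        · intro h
          exact h2 _ h (by omega)
        · have : x - (y - L) = x + L - y := by omega
          rw [this]; exact h4
    · rintro (⟨y', ⟨h1, h2, h3⟩, rfl⟩ | ⟨h1, h2⟩)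
      · refine ⟨by omega, ⟨?_, ?_⟩, ?_⟩
        · intro a ha hh
          have : a = y' := by omega
          exact h2 (this ▸ ha)
        · intro h; omega
        · have : x + L - (y' + L) = x - y' := by omega
          rw [this]; exact h3
      · refine ⟨by omega, ⟨?_, ?_⟩, (OpB2_dvd (by omega)).mpr h2⟩
        · intro a ha hh; omega
        · intro h; omega
  rw [h1, card_union_of_disjoint, card_image_of_injective]
  · intro a b h
    simpa using h
  · rw [disjoint_left]
    intro y hy hy'
    simp only [mem_filter, mem_range, mem_image] at hy hy'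
    obtain ⟨y', _, rfl⟩ := hy
    omega

private theorem OpB2_c2 {P d m L : ℕ} (hP : 0 < P) (hd : P ∣ d) (hm : m + L = d) {S : Finset ℕ}
    (hS : S ⊆ range m) {z : ℕ} (hz : z < L) :
    #{y ∈ range (d + z) | y ∉ (S.image fun x => x + L) ∪ Ico d (d + L) ∧ P ∣ d + z - y}
      + #{x ∈ S | x + L ≡ z [MOD P]} = d / P := by
  rw [← OpB2_count (z := z) hP hd]
  have hdz : d + z ≡ z [MOD P] := by
    have := (Nat.modEq_zero_iff_dvd.mpr hd).add_right z
    simpa using this
  have h1 : ({y ∈ range d | y ≡ z [MOD P]} : Finset ℕ) =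
      {y ∈ range (d + z) | y ∉ (S.image fun x => x + L) ∪ Ico d (d + L) ∧ P ∣ d + z - y} ∪
      ({x ∈ S | x + L ≡ z [MOD P]} : Finset ℕ).image (fun x => x + L) := by
    ext y
    simp only [mem_filter, mem_range, mem_union, mem_image, mem_Ico, not_or, not_exists, not_and]
    constructor
    · rintro ⟨h1, h2⟩
      by_cases hy : ∃ x ∈ S, x + L = y
      · obtain ⟨x, hx, rfl⟩ := hy
        right
        exact ⟨x, ⟨hx, h2⟩, rfl⟩
      · left
        push Not at hy
        refine ⟨by omega, ⟨hy, by omega⟩, (OpB2_dvd (by omega)).mpr (hdz.trans h2.symm)⟩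
    · rintro (⟨h1, ⟨h2, h3⟩, h4⟩ | ⟨x, ⟨h1, h2⟩, rfl⟩)
      · have hyd : y < d := by
          by_contra hh
          exact h3 (by omega) (by omega)
        exact ⟨hyd, (((OpB2_dvd (by omega)).mp h4).symm.trans hdz)⟩
      · have := mem_range.mp (hS h1)
        exact ⟨by omega, h2⟩
  rw [h1, card_union_of_disjoint, card_image_of_injective]
  · intro a b h
    simpa using h
  · rw [disjoint_left]
    intro y hy hy'
    simp only [mem_filter, mem_range, mem_union, mem_image, mem_Ico, not_or, not_exists,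
      not_and] at hy hy'
    obtain ⟨x, ⟨hx, _⟩, hxy⟩ := hy'
    exact hy.2.1.1 x hx hxy

/-- The move `S ↦ (S + L) ∪ [d, d + L)` for `S ⊆ [0, m)`, `m + L = d`, `P ∣ d`.
For `x ∈ S + L` the `y < x` outside the new set are those in `[0, L)` and those in
`L + ([0, m) \ S)`; for `x ∈ [d, d + L)` they are the elements of `[0, d) \ (S + L)`. With
`u(z) = #{y ∈ [0, d) : y ≡ z mod P} = d / P`, the total is
`inv P S + #{(x, y) : x ∈ S + L, y ∈ [0, L), P ∣ x - y}
  + ∑_{x ∈ [d, d + L)} (d / P - #{y ∈ S + L : P ∣ x - y})`, and `x - d` runs over `[0, L)`, so the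
second and the fourth term cancel. -/
theorem inv_move {P d m L : ℕ} (hP : 0 < P) (hd : P ∣ d) (hm : m + L = d) {S : Finset ℕ}
    (hS : S ⊆ range m) :
    inv P ((S.image fun x => x + L) ∪ Ico d (d + L)) = inv P S + L * (d / P) := by
  have hdisj : Disjoint (S.image fun x => x + L) (Ico d (d + L)) := by
    rw [disjoint_left]
    intro y hy hy'
    simp only [mem_image, mem_Ico] at hy hy'
    obtain ⟨x, hx, rfl⟩ := hy
    have := mem_range.mp (hS hx)
    omega
  unfold inv
  rw [sum_union hdisj, sum_image (by intro a _ b _ h; simpa using h), sum_Ico_eq_sum_range]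
  have e : d + L - d = L := by omega
  rw [e, sum_congr rfl fun x hx => OpB2_c1 (P := P) hm hS hx, sum_add_distrib, add_assoc]
  congr 1
  have hcomm : ∑ x ∈ S, #{z ∈ range L | x + L ≡ z [MOD P]}
      = ∑ z ∈ range L, #{x ∈ S | x + L ≡ z [MOD P]} := by
    simp only [card_filter]
    exact sum_comm
  rw [hcomm, add_comm, ← sum_add_distrib,
    sum_congr rfl fun z hz => OpB2_c2 hP hd hm hS (mem_range.mp hz)]
  simp

/-- From `inv_move` with `m = x + y`. The new set has `x + L` elements in
`[0, d + L) = [0, (x + L) + (y + L))`. -/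
theorem G_move {p t x y L N : ℕ} (hp : 0 < p) (h : G p t x y N) (hL : x + y + L = p ^ t) :
    G p t (x + L) (y + L) (N + L * p ^ t) := by
  obtain ⟨S, hS, hc, hi⟩ := h
  refine ⟨(S.image fun x => x + L) ∪ Ico (p ^ t) (p ^ t + L), ?_, ?_, ?_⟩
  · intro z hz
    simp only [mem_union, mem_image, mem_Ico] at hz
    rw [mem_range]
    rcases hz with ⟨w, hw, rfl⟩ | ⟨h1, h2⟩
    · have := mem_range.mp (hS hw)
      omega
    · omega
  · rw [card_union_of_disjoint, card_image_of_injective, hc]
    · simp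
    · intro a b h
      simpa using h
    · rw [disjoint_left]
      intro z hz hz'
      simp only [mem_image, mem_Ico] at hz hz'
      obtain ⟨w, hw, rfl⟩ := hz
      have := mem_range.mp (hS hw)
      omega
  · intro s hs
    have hps : 0 < p ^ s := pow_pos hp s
    rw [inv_move hps (pow_dvd_pow p hs) hL hS, hi s hs]
    obtain ⟨k, hk⟩ := pow_dvd_pow p hs
    rw [hk, Nat.mul_div_cancel_left _ hps, show L * (p ^ s * k) = p ^ s * (L * k) by ring,
      Nat.add_mul_div_left _ _ hps]

end W09h1
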