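import Pool.Agent.W_09e4ca_h1.Defs

/-!
# Operations on the sets `S`: the two moves by `d = p ^ t`
-/

namespace W09h1

open Finset

private lemma OpB1_split (q : ℕ → Prop) [DecidablePred q] (d x : ℕ) :
    #{y ∈ range (x + d) | q y} = #{y ∈ range d | q y} + #{y ∈ range x | q (d + y)} := by
  rw [card_filter, card_filter, card_filter, add_comm x d]
  exact Finset.sum_range_add _ _ _

private lemma OpB1_count {P d x : ℕ} (hP : 0 < P) (hd : P ∣ d) :
    #{y ∈ range d | P ∣ x + d - y} = d / P := by
  have h1 : #{y ∈ range d | P ∣ x + d - y} = #{y ∈ range d | y ≡ x [MOD P]} := by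
    congr 1
    refine filter_congr fun y hy => ?_
    have hy' := mem_range.1 hy
    obtain ⟨c, rfl⟩ := hd
    constructor
    · intro h
      have h2 : y ≡ x + P * c [MOD P] := (Nat.modEq_iff_dvd' (by omega)).2 h
      have h3 : x + P * c ≡ x [MOD P] := by
        unfold Nat.ModEq
        rw [Nat.add_mul_mod_self_left]
      exact h2.trans h3
    · intro h
      have h3 : x ≡ x + P * c [MOD P] := by
        unfold Nat.ModEq
        rw [Nat.add_mul_mod_self_left]
      exact (Nat.modEq_iff_dvd' (by omega)).1 (h.trans h3)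
  rw [h1, ← Nat.count_eq_card_filter_range, Nat.count_modEq_card _ hP]
  obtain ⟨c, rfl⟩ := hd
  simp

/-- Shift by `d`, `P ∣ d`. For `x ∈ S` the `y < x + d` outside `S + d` with `P ∣ x + d - y` are the
`d / P` numbers `y < d` congruent to `x` modulo `P`, and the `y' + d` with `y' < x`, `y' ∉ S`,
`P ∣ x - y'`. -/
theorem inv_shift {P d : ℕ} (hP : 0 < P) (hd : P ∣ d) (S : Finset ℕ) :
    inv P (S.image fun x => x + d) = inv P S + #S * (d / P) := by
  unfold inv
  rw [sum_image (fun x _ y _ h => Nat.add_right_cancel h)]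
  have key : ∀ x ∈ S, #{y ∈ range (x + d) | y ∉ S.image (fun x => x + d) ∧ P ∣ x + d - y} =
      #{y ∈ range x | y ∉ S ∧ P ∣ x - y} + d / P := by
    intro x _
    rw [OpB1_split]
    have h1 : #{y ∈ range d | y ∉ S.image (fun x => x + d) ∧ P ∣ x + d - y} = d / P := by
      rw [← OpB1_count (x := x) hP hd]
      congr 1
      refine filter_congr fun y hy => ?_
      have hy' := mem_range.1 hy
      refine and_iff_right fun h => ?_
      obtain ⟨z, _, hz⟩ := mem_image.1 h
      omega
    have h2 : #{y ∈ range x | d + y ∉ S.image (fun x => x + d) ∧ P ∣ x + d - (d + y)} =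
        #{y ∈ range x | y ∉ S ∧ P ∣ x - y} := by
      congr 1
      refine filter_congr fun y hy => ?_
      have h3 : x + d - (d + y) = x - y := by omega
      have h4 : d + y ∈ S.image (fun x => x + d) ↔ y ∈ S := by
        rw [mem_image]
        constructor
        · rintro ⟨z, hz, h⟩
          have : z = y := by omega
          rwa [← this]
        · intro h
          exact ⟨y, h, Nat.add_comm _ _⟩
      rw [h3, h4]
    rw [h1, h2, add_comm]
  rw [sum_congr rfl key, sum_add_distrib, sum_const, smul_eq_mul]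

/-- From `inv_shift`; `(N + a * p ^ t) / p ^ s = N / p ^ s + a * (p ^ t / p ^ s)`. -/
theorem G_shift {p t a b N : ℕ} (hp : 0 < p) (h : G p t a b N) :
    G p t a (b + p ^ t) (N + a * p ^ t) := by
  obtain ⟨S, hS, hc, hi⟩ := h
  refine ⟨S.image fun x => x + p ^ t, ?_, ?_, ?_⟩
  · intro y hy
    obtain ⟨x, hx, rfl⟩ := mem_image.1 hy
    have := mem_range.1 (hS hx)
    rw [mem_range]
    omega
  · rw [card_image_of_injective _ (add_left_injective (p ^ t)), hc]
  · intro s hs
    have hps : 0 < p ^ s := pow_pos hp s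
    rw [inv_shift hps (pow_dvd_pow p hs), hi s hs, hc]
    have h1 : p ^ t = p ^ s * p ^ (t - s) := by
      rw [← pow_add]
      congr 1
      omega
    rw [h1, Nat.mul_div_cancel_left _ hps]
    have h2 : N + a * (p ^ s * p ^ (t - s)) = N + p ^ s * (a * p ^ (t - s)) := by ring
    rw [h2, Nat.add_mul_div_left _ _ hps]

end W09h1
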