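import Pool.Agent.W_09e4ca_h1.Defs

/-!
# The core and the lift
-/

namespace W09h1

open Finset

theorem Mf_eq {d : ℕ} (hd : 0 < d) (a b : ℕ) :
    a * b = Mf d a b * d + cx d a b * cy d a b := by
  have ha := Nat.div_add_mod a d
  have hb := Nat.div_add_mod b d
  have hα := Nat.mod_lt a hd
  have hβ := Nat.mod_lt b hd
  unfold Mf cx cy
  generalize a / d = q at *
  generalize b / d = Q at *
  generalize a % d = α at *
  generalize b % d = β at *
  subst ha hb
  by_cases h : α + β < d
  · rw [if_pos h, if_pos h, Nat.sub_eq_zero_of_le h.le]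
    ring
  · rw [if_neg h, if_neg h]
    obtain ⟨u, hu⟩ := Nat.exists_eq_add_of_lt hα
    obtain ⟨v, hv⟩ := Nat.exists_eq_add_of_lt hβ
    have h1 : d - β = v + 1 := by omega
    have h2 : d - α = u + 1 := by omega
    obtain ⟨w, hw⟩ := Nat.exists_eq_add_of_le (not_lt.mp h)
    have h3 : α + β - d = w := by omega
    rw [h1, h2, h3]
    have h4 : α * β = w * d + (v + 1) * (u + 1) := by
      have e1 : α = w + (v + 1) := by omega
      have e2 : β = w + (u + 1) := by omega
      have e3 : d = w + (v + 1) + (u + 1) := by omega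
      rw [e1, e2, e3]
      ring
    calc (d * q + α) * (d * Q + β) = (q * Q * d + q * β + Q * α) * d + α * β := by ring
      _ = _ := by rw [h4]; ring

theorem cx_add_cy_le {d : ℕ} (hd : 0 < d) (a b : ℕ) : cx d a b + cy d a b ≤ d := by
  have hα := Nat.mod_lt a hd
  have hβ := Nat.mod_lt b hd
  unfold cx cy
  split_ifs <;> omega

/-- For fixed `a` the quotient is monotone in `b`. (Step `b → b + 1`: if `b % d + 1 < d` then
`b / d` does not change; otherwise `b % d` goes from `d - 1` to `0` and `b / d` increases by one.) -/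
theorem Mf_mono {d a b b' : ℕ} (hd : 0 < d) (h : b ≤ b') : Mf d a b ≤ Mf d a b' := by
  have hb := Nat.div_add_mod b d
  have hb' := Nat.div_add_mod b' d
  have hβ := Nat.mod_lt b hd
  have hβ' := Nat.mod_lt b' hd
  have hα := Nat.mod_lt a hd
  have hQ : b / d ≤ b' / d := Nat.div_le_div_right h
  unfold Mf
  generalize a / d = q at *
  generalize b / d = Q at *
  generalize a % d = α at *
  generalize b % d = β at *
  generalize b' / d = Q' at *
  generalize b' % d = β' at *
  rcases hQ.eq_or_lt with e | hlt
  · subst e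
    have hββ : β ≤ β' := by omega
    have h1 : q * β ≤ q * β' := Nat.mul_le_mul_left _ hββ
    have h2 : α + β - d ≤ α + β' - d := by omega
    omega
  · obtain ⟨r, rfl⟩ := Nat.exists_eq_add_of_lt hlt
    have h1 : q * β ≤ q * d := Nat.mul_le_mul_left _ hβ.le
    have h2 : α + β - d ≤ α := by omega
    have h3 : q * (Q + r + 1) * d + (Q + r + 1) * α =
        q * Q * d + q * d + Q * α + α + (q * r * d + r * α) := by ring
    have h4 : 0 ≤ q * β' := Nat.zero_le _
    omega

theorem Mf_symm (d a b : ℕ) : Mf d a b = Mf d b a := by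
  unfold Mf
  rw [add_comm (a % d) (b % d)]
  ring

end W09h1
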