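import Pool.Agent.W_09e4ca_h1.OpA
import Pool.Agent.W_09e4ca_h1.OpB
import Pool.Agent.W_09e4ca_h1.OpC1

/-!
# The core and the lift
-/

namespace W09h1

open Finset

theorem OpC2_inv_zero {P m : ℕ} {S : Finset ℕ} (hS : S ⊆ range m) (hm : m ≤ P) : inv P S = 0 := by
  unfold inv
  refine sum_eq_zero fun x hx => ?_
  rw [card_eq_zero, filter_eq_empty_iff]
  rintro y hy ⟨-, hd⟩
  have h1 := mem_range.1 hy
  have h2 := mem_range.1 (hS hx)
  have h3 := Nat.le_of_dvd (by omega) hd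
  omega

theorem OpC2_shifts {p t a b N : ℕ} (hp : 0 < p) (h : G p t a b N) (Q : ℕ) :
    G p t a (b + Q * p ^ t) (N + Q * a * p ^ t) := by
  induction Q with
  | zero => simpa using h
  | succ Q ih =>
    have := G_shift hp ih
    have e1 : b + (Q + 1) * p ^ t = b + Q * p ^ t + p ^ t := by ring
    have e2 : N + (Q + 1) * a * p ^ t = N + Q * a * p ^ t + a * p ^ t := by ring
    rw [e1, e2]
    exact this

/-- Lift from the core `(x, y)`, `d = p ^ t`, `a = q d + α`, `b = Q d + β`: if `α + β < d`, then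
`(x, y) = (α, β)`; otherwise apply `G_move` with `L = α + β - d` to get to `(α, β)`. Then apply
`G_shift` `Q` times to get to `(α, b)`, and after `G_symm` `q` times. The total increase of `N` is
`(L + Q α + q b) d`, and `L + Q α + q b = Mf d a b`. (First prove by induction
`G p t a b N → G p t a (b + Q * p ^ t) (N + Q * a * p ^ t)`.) -/
theorem G_lift {p t a b N : ℕ} (hp : 0 < p) (h : G p t (cx (p ^ t) a b) (cy (p ^ t) a b) N) :
    G p t a b (N + Mf (p ^ t) a b * p ^ t) := by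
  have hd : 0 < p ^ t := pow_pos hp t
  have hα := Nat.mod_lt a hd
  have hβ := Nat.mod_lt b hd
  have ha : a % p ^ t + a / p ^ t * p ^ t = a := Nat.mod_add_div' a (p ^ t)
  have hb : b % p ^ t + b / p ^ t * p ^ t = b := Nat.mod_add_div' b (p ^ t)
  have h1 : G p t (a % p ^ t) (b % p ^ t) (N + (a % p ^ t + b % p ^ t - p ^ t) * p ^ t) := by
    unfold cx cy at h
    by_cases hc : a % p ^ t + b % p ^ t < p ^ t
    · rw [if_pos hc, if_pos hc] at h
      rw [Nat.sub_eq_zero_of_le hc.le, zero_mul, add_zero]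
      exact h
    · rw [if_neg hc, if_neg hc] at h
      have h2 := G_move (L := a % p ^ t + b % p ^ t - p ^ t) hp h (by omega)
      have e1 : p ^ t - b % p ^ t + (a % p ^ t + b % p ^ t - p ^ t) = a % p ^ t := by omega
      have e2 : p ^ t - a % p ^ t + (a % p ^ t + b % p ^ t - p ^ t) = b % p ^ t := by omega
      rw [e1, e2] at h2
      exact h2
  have h2 := OpC2_shifts hp h1 (b / p ^ t)
  rw [hb] at h2
  have h3 := OpC2_shifts hp (G_symm h2) (a / p ^ t)
  rw [ha] at h3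
  have h4 := G_symm h3
  have e : N + (a % p ^ t + b % p ^ t - p ^ t) * p ^ t + b / p ^ t * (a % p ^ t) * p ^ t +
      a / p ^ t * b * p ^ t = N + Mf (p ^ t) a b * p ^ t := by
    have hq : a / p ^ t * b = a / p ^ t * (b / p ^ t) * p ^ t + a / p ^ t * (b % p ^ t) := by
      calc a / p ^ t * b = a / p ^ t * (b % p ^ t + b / p ^ t * p ^ t) := by rw [hb]
        _ = _ := by ring
    rw [hq]
    unfold Mf
    ring
  rw [e] at h4
  exact h4

/-- For `s > t` all differences are smaller than `p ^ s`, so `inv (p ^ s) S = 0`, and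
`N / p ^ s = 0`. -/
theorem R_of_G {p t a b N : ℕ} (hp : 2 ≤ p) (h : G p t a b N) (hab : a + b ≤ p ^ (t + 1))
    (hN : N < p ^ (t + 1)) : R p a b N := by
  obtain ⟨S, hS, hc, hi⟩ := h
  refine ⟨S, hS, hc, fun s => ?_⟩
  by_cases hs : s ≤ t
  · exact hi s hs
  · have h1 : p ^ (t + 1) ≤ p ^ s := Nat.pow_le_pow_right (by omega) (by omega)
    rw [OpC2_inv_zero hS (hab.trans h1), Nat.div_eq_of_lt (hN.trans_le h1)]

theorem G_of_R {p t a b N : ℕ} (h : R p a b N) : G p t a b N := by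
  obtain ⟨S, hS, hc, hi⟩ := h
  exact ⟨S, hS, hc, fun s _ => hi s⟩

/-- `inv (p ^ t) S = 0` since `S ⊆ [0, p ^ t)`. -/
theorem lt_of_R {p t a b N : ℕ} (hp : 2 ≤ p) (h : R p a b N) (hab : a + b ≤ p ^ t) :
    N < p ^ t := by
  obtain ⟨S, hS, hc, hi⟩ := h
  have h1 := hi t
  rw [OpC2_inv_zero hS hab] at h1
  have hd : 0 < p ^ t := pow_pos (by omega) t
  rcases (Nat.div_eq_zero_iff.1 h1.symm) with h2 | h2
  · omega
  · exact h2

/-- `e + Mf d a b * d < p d`. -/
theorem R_lift {p t a b e : ℕ} (hp : 2 ≤ p) (h : R p (cx (p ^ t) a b) (cy (p ^ t) a b) e)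
    (he : e < p ^ t) (hM : Mf (p ^ t) a b < p) (hab : a + b ≤ p ^ (t + 1)) :
    R p a b (e + Mf (p ^ t) a b * p ^ t) := by
  refine R_of_G hp (G_lift (by omega) (G_of_R h)) hab ?_
  have h1 : (Mf (p ^ t) a b + 1) * p ^ t ≤ p * p ^ t := Nat.mul_le_mul_right _ hM
  have h2 : p * p ^ t = p ^ (t + 1) := by ring
  rw [h2, add_mul, one_mul] at h1
  omega

end W09h1
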