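import Pool.Agent.W_09e4ca_h1.Defs

/-!
# The polynomial method over a ring with a homomorphism sending all elements to 1
-/

namespace W09h1

open Finset MvPolynomial

private lemma PA_coeff_X_pow {F : Type*} [CommRing F] {h : ℕ} (i : Fin h) (n : ℕ)
    (Q : MvPolynomial (Fin h) F) (lam : Fin h →₀ ℕ) (hl : lam i < n) :
    coeff lam ((X i) ^ n * Q) = 0 := by
  classical
  rw [mul_comm, X_pow_eq_monomial, coeff_mul_monomial']
  rw [if_neg]
  intro hle
  have := hle i
  simp at this
  omega

/-- Let `P` vanish on `∏ S i`, where `φ s = 1` for all `s ∈ S i`. Then after reduction by `φ` and the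
substitution `x i = 1 + y i` all monomials `y ^ lam` with `lam i < #(S i)` have coefficient `0`.

Proof. If some `S i` is empty nothing is claimed (`lam i < 0`). Otherwise
`MvPolynomial.combinatorial_nullstellensatz_exists_linearCombination` writes `P` as
`∑ g i * ∏_{s ∈ S i} (X i - C s)`. Applying `map φ` gives `∑ φ(g i) * (X i - 1) ^ #(S i)`, the
substitution gives `∑ g' i * X i ^ #(S i)`, and the coefficient at `lam` of each summand is zero
(`coeff_mul_monomial'`, `X i ^ n = monomial (single i n) 1`). -/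
theorem null_coeff {A F : Type*} [CommRing A] [IsDomain A] [CommRing F] (φ : A →+* F) {h : ℕ}
    (S : Fin h → Finset A) (hS : ∀ i, ∀ s ∈ S i, φ s = 1) (P : MvPolynomial (Fin h) A)
    (hP : ∀ x : Fin h → A, (∀ i, x i ∈ S i) → eval x P = 0)
    (lam : Fin h →₀ ℕ) (hl : ∀ i, lam i < #(S i)) :
    coeff lam (aeval (fun i => 1 + (X i : MvPolynomial (Fin h) F)) (map φ P)) = 0 := by
  classical
  have Sne : ∀ i, (S i).Nonempty := fun i =>
    Finset.card_pos.mp (lt_of_le_of_lt (Nat.zero_le _) (hl i))
  obtain ⟨g, -, hg⟩ := combinatorial_nullstellensatz_exists_linearCombination S Sne P hP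
  rw [hg, Finsupp.linearCombination_apply, Finsupp.sum, map_sum, map_sum, coeff_sum]
  refine Finset.sum_eq_zero fun i _ => ?_
  have h1 : aeval (fun i => 1 + (X i : MvPolynomial (Fin h) F))
      (map φ (∏ r ∈ S i, (X i - C r))) = (X i) ^ #(S i) := by
    rw [map_prod, map_prod]
    rw [Finset.prod_congr rfl (g := fun _ => (X i : MvPolynomial (Fin h) F)), Finset.prod_const]
    intro r hr
    rw [map_sub, map_X, map_C, map_sub, aeval_X, aeval_C, hS i r hr]
    simp
  rw [smul_eq_mul, map_mul, map_mul, h1, mul_comm]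
  exact PA_coeff_X_pow i _ _ lam (hl i)

/-- If all coefficients of `P` below `c` vanish, so do those of `P * Q`.
(`MvPolynomial.coeff_mul`, a sum over the antidiagonal.) -/
theorem coeff_mul_zero {F : Type*} [CommRing F] {h : ℕ} (c : Fin h → ℕ)
    (P Q : MvPolynomial (Fin h) F) (hP : ∀ lam : Fin h →₀ ℕ, (∀ i, lam i < c i) → coeff lam P = 0)
    (lam : Fin h →₀ ℕ) (hl : ∀ i, lam i < c i) : coeff lam (P * Q) = 0 := by
  classical
  rw [coeff_mul]
  refine Finset.sum_eq_zero fun x hx => ?_
  rw [Finset.HasAntidiagonal.mem_antidiagonal] at hx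
  rw [hP x.1, zero_mul]
  intro i
  have : x.1 i + x.2 i = lam i := by rw [← hx]; rfl
  have := hl i
  omega

end W09h1
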