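import Pool.Agent.W_09e4ca_h1.PB1

/-!
# Sumsets in the cyclic group of order `p ^ k`
-/

namespace W09h1

open Finset MvPolynomial

/-- Let `C ⊆ ZMod (p ^ k)` be finite and `W` an integer polynomial vanishing at all
`(g (a i))_i` for which `a i ∈ A i` and `∑ a i ∉ C`. Then for `lam i < #(A i)` the coefficient of
`y ^ lam` in `W(1 + y) * (∏ (1 + y i) - 1) ^ #C` is zero modulo `p`.

Proof. `null_coeff` with `S i = {z ^ a.val : a ∈ A i}` (with `#(A i)` elements) and
`P = map W * ∏_{c ∈ C} (∏ X i - C (z ^ c.val))`; `z ^ (∑ a i).val = ∏ z ^ (a i).val` since `z` has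
order `p ^ k`, and `φ (z ^ c.val) = 1`. -/
theorem coeff_zero_of_sums {p k h : ℕ} (hp : p.Prime) (A : Fin h → Finset (ZMod (p ^ k)))
    (C : Finset (ZMod (p ^ k))) (W : MvPolynomial (Fin h) ℤ)
    (hW : ∀ a : Fin h → ZMod (p ^ k), (∀ i, a i ∈ A i) → ∑ i, a i ∉ C →
      ∀ (B : Type) [CommRing B] (g : ZMod (p ^ k) → B), aeval (fun i => g (a i)) W = 0)
    (lam : Fin h →₀ ℕ) (hl : ∀ i, lam i < #(A i)) :
    coeff lam (aeval (fun i => 1 + (X i : MvPolynomial (Fin h) (ZMod p))) W *
      ((∏ i, (1 + (X i : MvPolynomial (Fin h) (ZMod p)))) - 1) ^ #C) = 0 := by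
  classical
  obtain ⟨D, _, _, z, φ, hz, hφ⟩ := exists_ring p k hp
  have hn0 : p ^ k ≠ 0 := pow_ne_zero k hp.pos.ne'
  have hne : NeZero (p ^ k) := ⟨hn0⟩
  let g : ZMod (p ^ k) → D := fun x => z ^ x.val
  have hg : ∀ x, g x = z ^ x.val := fun x => rfl
  have hg0 : g 0 = 1 := by rw [hg, ZMod.val_zero, pow_zero]
  have hgadd : ∀ x y, g (x + y) = g x * g y := fun x y => by
    rw [hg, hg, hg, ZMod.val_add, ← pow_eq_pow_mod _ hz.pow_eq_one, pow_add]
  have hgsum : ∀ a : Fin h → ZMod (p ^ k), g (∑ i, a i) = ∏ i, g (a i) := by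
    intro a
    have key : ∀ s : Finset (Fin h), g (∑ i ∈ s, a i) = ∏ i ∈ s, g (a i) := by
      intro s
      induction s using Finset.induction_on with
      | empty => simpa using hg0
      | insert i s hi ih => rw [Finset.sum_insert hi, Finset.prod_insert hi, hgadd, ih]
    exact key univ
  have hginj : Function.Injective g := by
    intro x y hxy
    exact ZMod.val_injective _ (hz.pow_inj (ZMod.val_lt x) (ZMod.val_lt y) hxy)
  have hφg : ∀ x, φ (g x) = 1 := fun x => by rw [hg, map_pow, hφ, one_pow]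
  have hcard : ∀ i, #((A i).image g) = #(A i) := fun i => Finset.card_image_of_injective _ hginj
  set P : MvPolynomial (Fin h) D :=
    map (Int.castRingHom D) W * ∏ c ∈ C, ((∏ i, X i) - MvPolynomial.C (g c)) with hPdef
  have key := null_coeff φ (fun i => (A i).image g)
    (fun i s hs => by
      obtain ⟨x, _, rfl⟩ := Finset.mem_image.1 hs
      exact hφg x) P
    (fun x hx => by
      choose a ha hax using fun i => Finset.mem_image.1 (hx i)
      have hx' : x = fun i => g (a i) := funext fun i => (hax i).symm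
      rw [hPdef, map_mul, map_prod]
      by_cases hc : ∑ i, a i ∈ C
      · have h1 : ∏ c ∈ C, eval x ((∏ i, X i) - MvPolynomial.C (g c)) = 0 := by
          refine Finset.prod_eq_zero hc ?_
          rw [map_sub, map_prod, eval_C, hgsum, hx']
          simp
        rw [h1, mul_zero]
      · have h1 : eval x (map (Int.castRingHom D) W) = 0 := by
          have h2 := hW a ha hc D g
          rw [eval_map, hx']
          rw [aeval_def] at h2
          rw [← h2]
          congr 1
        rw [h1, zero_mul])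
    lam (fun i => by rw [hcard]; exact hl i)
  have e : aeval (fun i => 1 + (X i : MvPolynomial (Fin h) (ZMod p))) (map φ P) =
      aeval (fun i => 1 + (X i : MvPolynomial (Fin h) (ZMod p))) W *
      ((∏ i, (1 + (X i : MvPolynomial (Fin h) (ZMod p)))) - 1) ^ #C := by
    rw [hPdef, map_mul, map_mul, MvPolynomial.map_map]
    congr 1
    · rw [aeval_def, aeval_def, eval₂_map]
      congr 1
      exact RingHom.ext_int _ _
    · rw [map_prod, map_prod]
      rw [Finset.prod_congr rfl fun c _ => ?_, Finset.prod_const]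
      rw [map_sub, map_prod, map_C, hφg, map_sub, map_prod]
      simp
  rw [e] at key
  exact key

end W09h1
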