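import Pool.Agent.W_09e4ca_h1.PA

/-!
# Sumsets in the cyclic group of order `p ^ k`
-/

namespace W09h1

open Finset MvPolynomial

/-- A domain with a primitive root of unity of order `p ^ k` which is congruent to `1`: let
`A = AdjoinRoot (cyclotomic (p ^ k) ℤ)` (a domain, `Polynomial.cyclotomic.irreducible` and
`AdjoinRoot.isDomain_of_prime`), `ζ` the root, a primitive root of unity
(`Polynomial.isRoot_cyclotomic_iff`, characteristic zero), and `φ` the homomorphism with `φ ζ = 1`
(`AdjoinRoot.lift`), which exists as `cyclotomic (p ^ k)` is zero at `1` modulo `p`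
(`Polynomial.eval_one_cyclotomic_prime_pow` if `k ≥ 1`, and `X - 1` if `k = 0`). -/
theorem exists_ring (p k : ℕ) (hp : p.Prime) :
    ∃ (A : Type) (_ : CommRing A) (_ : IsDomain A) (z : A) (φ : A →+* ZMod p),
      IsPrimitiveRoot z (p ^ k) ∧ φ z = 1 := by
  have : Fact p.Prime := ⟨hp⟩
  have hpos : 0 < p ^ k := pow_pos hp.pos k
  set f : Polynomial ℤ := Polynomial.cyclotomic (p ^ k) ℤ with hf
  have hirr : Irreducible f := Polynomial.cyclotomic.irreducible hpos
  have hdom : IsDomain (AdjoinRoot f) := AdjoinRoot.isDomain_of_prime hirr.prime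
  have hdeg : f.degree ≠ 0 := by
    rw [hf, Polynomial.degree_cyclotomic]
    have := Nat.totient_pos.2 hpos
    intro h
    have h' : Nat.totient (p ^ k) = 0 := by exact_mod_cast h
    omega
  have hinj : Function.Injective (AdjoinRoot.of f) :=
    AdjoinRoot.of.injective_of_degree_ne_zero hdeg
  have hne : NeZero ((p ^ k : ℕ) : AdjoinRoot f) := by
    refine ⟨fun h => ?_⟩
    have h1 : AdjoinRoot.of f ((p ^ k : ℕ) : ℤ) = AdjoinRoot.of f 0 := by
      rw [map_zero, map_natCast]
      exact h
    have h2 := hinj h1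
    have h3 : (p ^ k : ℕ) = 0 := by exact_mod_cast h2
    omega
  have h0 : Polynomial.eval₂ (Int.castRingHom (ZMod p)) 1 f = 0 := by
    rw [Polynomial.eval₂_at_one]
    cases k with
    | zero => simp [hf]
    | succ k =>
      rw [hf, Polynomial.eval_one_cyclotomic_prime_pow]
      simp
  refine ⟨AdjoinRoot f, inferInstance, hdom, AdjoinRoot.root f,
    AdjoinRoot.lift (Int.castRingHom (ZMod p)) 1 h0, ?_, AdjoinRoot.lift_root h0⟩
  rw [← Polynomial.isRoot_cyclotomic_iff, Polynomial.IsRoot.def,
    ← Polynomial.map_cyclotomic (p ^ k) (AdjoinRoot.of f), Polynomial.eval_map]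
  exact AdjoinRoot.eval₂_root f

end W09h1
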