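import Pool.Agent.W_09e4ca_h1.PB

/-!
# Vanishing coefficients for small sumsets
-/

namespace W09h1

open Finset MvPolynomial W_MP_09e4ca_co

/-- The Vandermonde polynomial. -/
noncomputable def VV (F : Type) [CommRing F] (h : ℕ) : MvPolynomial (Fin h) F :=
  (Matrix.vandermonde fun i : Fin h => (X i : MvPolynomial (Fin h) F)).det

/-- `∏ (1 + y i) - 1`. -/
noncomputable def QQ (F : Type) [CommRing F] (h : ℕ) : MvPolynomial (Fin h) F :=
  (∏ i, (1 + (X i : MvPolynomial (Fin h) F))) - 1

private theorem PC_map_VV {R : Type} [CommRing R] [Algebra ℤ R] (h : ℕ) (v : Fin h → R) :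
    aeval v (VV ℤ h) = (Matrix.vandermonde v).det := by
  unfold VV
  have e := RingHom.map_det (aeval v : MvPolynomial (Fin h) ℤ →ₐ[ℤ] R).toRingHom
    (Matrix.vandermonde fun i : Fin h => (X i : MvPolynomial (Fin h) ℤ))
  refine e.trans ?_
  congr 1
  ext i j
  simp [Matrix.vandermonde_apply]

/-- Translation invariance: `Matrix.det_vandermonde`, the differences do not change. -/
theorem aeval_VV (F : Type) [CommRing F] (h : ℕ) :
    aeval (fun i => 1 + (X i : MvPolynomial (Fin h) F)) (VV ℤ h) = VV F h := by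
  rw [PC_map_VV]
  have e : (fun i : Fin h => 1 + (X i : MvPolynomial (Fin h) F)) = fun i => X i + 1 := by
    funext i
    exact add_comm _ _
  rw [e, Matrix.det_vandermonde_add]
  rfl

/-- `coeff_zero_of_sums` with `W = VV ℤ h`, `A i = A`, `C = restr A h`: if `∑ a i ∉ C`, then the `a i`
are not distinct and `VV` vanishes (two equal rows). Then `coeff_mul_zero` with
`QQ ^ (N - #C)`. -/
theorem coeff_restr {p k h N : ℕ} (hp : p.Prime) (A : Finset (ZMod (p ^ k)))
    (hN : #(restr A h) ≤ N) (lam : Fin h →₀ ℕ) (hl : ∀ i, lam i < #A) :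
    coeff lam (QQ (ZMod p) h ^ N * VV (ZMod p) h) = 0 := by
  have key : ∀ mu : Fin h →₀ ℕ, (∀ i, mu i < #A) →
      coeff mu (VV (ZMod p) h * QQ (ZMod p) h ^ #(restr A h)) = 0 := by
    intro mu hmu
    have := coeff_zero_of_sums hp (fun _ : Fin h => A) (restr A h) (VV ℤ h) (fun a ha hs B _ g => by
      have hni : ¬ Function.Injective a := by
        intro hinj
        apply hs
        rw [mem_restr]
        refine ⟨univ.image a, ?_, ?_, ?_⟩
        · intro x hx
          rw [mem_image] at hx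
          obtain ⟨i, _, rfl⟩ := hx
          exact ha i
        · rw [card_image_of_injective _ hinj, card_univ, Fintype.card_fin]
        · rw [sum_image fun i _ j _ hij => hinj hij]
      rw [Function.not_injective_iff] at hni
      obtain ⟨i, j, hij, hne⟩ := hni
      rw [PC_map_VV]
      apply Matrix.det_zero_of_row_eq hne
      funext l
      rw [Matrix.vandermonde_apply, Matrix.vandermonde_apply, hij]) mu hmu
    rw [aeval_VV] at this
    exact this
  have e : QQ (ZMod p) h ^ N * VV (ZMod p) h =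
      (VV (ZMod p) h * QQ (ZMod p) h ^ #(restr A h)) * QQ (ZMod p) h ^ (N - #(restr A h)) := by
    rw [mul_assoc, ← pow_add, Nat.add_sub_cancel' hN, mul_comm]
  rw [e]
  exact coeff_mul_zero (fun _ => #A) _ _ key lam hl

/-- `coeff_zero_of_sums` with `W = 1`, `C = hfold A h` (the sum is always in `C`). -/
theorem coeff_hfold {p k h N : ℕ} (hp : p.Prime) (A : Finset (ZMod (p ^ k)))
    (hN : #(hfold A h) ≤ N) (lam : Fin h →₀ ℕ) (hl : ∀ i, lam i < #A) :
    coeff lam (QQ (ZMod p) h ^ N) = 0 := by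
  have key : ∀ mu : Fin h →₀ ℕ, (∀ i, mu i < #A) →
      coeff mu (QQ (ZMod p) h ^ #(hfold A h)) = 0 := by
    intro mu hmu
    have := coeff_zero_of_sums hp (fun _ : Fin h => A) (hfold A h) 1 (fun a ha hs B _ g => by
      exfalso
      apply hs
      rw [mem_hfold]
      exact ⟨a, ha, rfl⟩) mu hmu
    rw [map_one, one_mul] at this
    exact this
  have e : QQ (ZMod p) h ^ N =
      QQ (ZMod p) h ^ #(hfold A h) * QQ (ZMod p) h ^ (N - #(hfold A h)) := by
    rw [← pow_add, Nat.add_sub_cancel' hN]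
  rw [e]
  exact coeff_mul_zero (fun _ => #A) _ _ key lam hl

open scoped Pointwise in
/-- `coeff_zero_of_sums` with `h = 2`, `W = 1`, `C = X + Y`. -/
theorem coeff_pair {p k N : ℕ} (hp : p.Prime) (A B : Finset (ZMod (p ^ k)))
    (hN : #(A + B) ≤ N) (lam : Fin 2 →₀ ℕ) (h0 : lam 0 < #A) (h1 : lam 1 < #B) :
    coeff lam (QQ (ZMod p) 2 ^ N) = 0 := by
  have key : ∀ mu : Fin 2 →₀ ℕ, (∀ i, mu i < ![#A, #B] i) →
      coeff mu (QQ (ZMod p) 2 ^ #(A + B)) = 0 := by
    intro mu hmu
    have := coeff_zero_of_sums hp ![A, B] (A + B) 1 (fun a ha hs R _ g => by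
      exfalso
      apply hs
      rw [Fin.sum_univ_two]
      exact Finset.add_mem_add (ha 0) (ha 1)) mu (fun i => by
        have := hmu i
        fin_cases i
        · exact this
        · exact this)
    rw [map_one, one_mul] at this
    exact this
  have e : QQ (ZMod p) 2 ^ N =
      QQ (ZMod p) 2 ^ #(A + B) * QQ (ZMod p) 2 ^ (N - #(A + B)) := by
    rw [← pow_add, Nat.add_sub_cancel' hN]
  rw [e]
  apply coeff_mul_zero ![#A, #B] _ _ key lam
  intro i
  fin_cases i
  · exact h0
  · exact h1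

end W09h1
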