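import Pool.Agent.W_09e4ca_h1.PC
import Pool.Agent.W_MP_09e4ca_h33.DB
import Pool.Agent.W_MP_09e4ca_h33.DC
import Pool.Agent.W_MP_09e4ca_h33.DE

/-!
# The lowest homogeneous part
-/

namespace W09h1

open Finset MvPolynomial

theorem PD_X_mem {F : Type} [CommRing F] {h : ℕ} (i : Fin h) :
    (X i : MvPolynomial (Fin h) F) ∈ idealOfVars (Fin h) F :=
  Ideal.subset_span ⟨i, rfl⟩

theorem PD_sum_mem {F : Type} [CommRing F] {h : ℕ} (s : Finset (Fin h)) :
    (∑ i ∈ s, (X i : MvPolynomial (Fin h) F)) ∈ idealOfVars (Fin h) F :=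
  Ideal.sum_mem _ fun i _ => PD_X_mem i

theorem PD_prod {F : Type} [CommRing F] {h : ℕ} (s : Finset (Fin h)) :
    (∏ i ∈ s, (1 + (X i : MvPolynomial (Fin h) F))) - 1 - ∑ i ∈ s, (X i : MvPolynomial (Fin h) F) ∈
      idealOfVars (Fin h) F ^ 2 := by
  classical
  induction s using Finset.induction_on with
  | empty => simp
  | insert a s ha ih =>
    rw [Finset.prod_insert ha, Finset.sum_insert ha]
    have h1 : (∏ i ∈ s, (1 + (X i : MvPolynomial (Fin h) F))) - 1 ∈ idealOfVars (Fin h) F := by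
      have h2 := Ideal.pow_le_self (I := idealOfVars (Fin h) F) (n := 2) (by norm_num) ih
      have h3 := Ideal.add_mem _ h2 (PD_sum_mem (F := F) s)
      rwa [sub_add_cancel] at h3
    have h4 : X a * ((∏ i ∈ s, (1 + (X i : MvPolynomial (Fin h) F))) - 1) ∈
        idealOfVars (Fin h) F ^ 2 := by
      rw [pow_two]
      exact Ideal.mul_mem_mul (PD_X_mem a) h1
    have h5 := Ideal.add_mem _ ih h4
    convert h5 using 1
    ring

theorem PD_pow {F : Type} [CommRing F] {h : ℕ} (N : ℕ) :
    QQ F h ^ N - (∑ i : Fin h, (X i : MvPolynomial (Fin h) F)) ^ N ∈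
      idealOfVars (Fin h) F ^ (N + 1) := by
  have hQ2 : QQ F h - (∑ i : Fin h, (X i : MvPolynomial (Fin h) F)) ∈
      idealOfVars (Fin h) F ^ 2 := PD_prod univ
  have hS : (∑ i : Fin h, (X i : MvPolynomial (Fin h) F)) ∈ idealOfVars (Fin h) F :=
    PD_sum_mem univ
  have hQ : QQ F h ∈ idealOfVars (Fin h) F := by
    have h2 := Ideal.pow_le_self (I := idealOfVars (Fin h) F) (n := 2) (by norm_num) hQ2
    have h3 := Ideal.add_mem _ h2 hS
    rwa [sub_add_cancel] at h3
  induction N with
  | zero => simp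
  | succ N ih =>
    have h1 : QQ F h ^ N * (QQ F h - (∑ i : Fin h, (X i : MvPolynomial (Fin h) F))) ∈
        idealOfVars (Fin h) F ^ (N + 1 + 1) := by
      rw [show N + 1 + 1 = N + 2 by ring, pow_add]
      exact Ideal.mul_mem_mul (Ideal.pow_mem_pow hQ N) hQ2
    have h2 : (QQ F h ^ N - (∑ i : Fin h, (X i : MvPolynomial (Fin h) F)) ^ N) *
        (∑ i : Fin h, (X i : MvPolynomial (Fin h) F)) ∈
        idealOfVars (Fin h) F ^ (N + 1 + 1) := by
      rw [pow_succ (idealOfVars (Fin h) F) (N + 1)]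
      exact Ideal.mul_mem_mul ih hS
    have h3 := Ideal.add_mem _ h1 h2
    convert h3 using 1
    ring

/-- `QQ F h - ∑ X i` is a polynomial all of whose monomials have degree at least `2`; so for `W`
homogeneous of degree `w` the coefficient of a monomial of degree `N + w` in `QQ ^ N * W` is that in
`(∑ X i) ^ N * W`.

Proof (one possibility). Induction on `N`, with `W` arbitrary polynomial all of whose monomials have
degree at least `w` (`∀ mu ∈ W.support, w ≤ ∑ i, mu i`): `QQ ^ (N + 1) * W = QQ ^ N * (QQ * W)`, and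
`QQ * W - (∑ X i) * W` only has monomials of degree `≥ w + 2`. Put differently: if all monomials of
`P` have degree `≥ u` and those of `P'` degree `≥ v`, those of `P P'` have degree `≥ u + v`. -/
theorem coeff_graded {F : Type} [CommRing F] {h N w : ℕ} (W : MvPolynomial (Fin h) F)
    (hW : W.IsHomogeneous w) (lam : Fin h →₀ ℕ) (hl : ∑ i, lam i = N + w) :
    coeff lam (QQ F h ^ N * W) =
      coeff lam ((∑ i : Fin h, (X i : MvPolynomial (Fin h) F)) ^ N * W) := by
  have hWm : W ∈ idealOfVars (Fin h) F ^ w := by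
    rw [mem_pow_idealOfVars_iff']
    intro x hx
    exact hW.coeff_eq_zero (by omega)
  have h1 := Ideal.mul_mem_mul (PD_pow (F := F) (h := h) N) hWm
  rw [← pow_add] at h1
  have h2 := (mem_pow_idealOfVars_iff' _ _).1 h1 lam
    (by rw [Finsupp.degree_eq_sum, hl]; omega)
  rw [sub_mul, coeff_sub, sub_eq_zero] at h2
  exact h2

end W09h1
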