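import Pool.Agent.W_09e4ca_h1.PE1

/-!
# Coefficients which are not divisible by `p`
-/

namespace W09h1

open Finset MvPolynomial

/-- The valuation of a product. -/
theorem PE2_prod {p : ℕ} [Fact p.Prime] {ι : Type} (s : Finset ι) (f : ι → ℕ)
    (hf : ∀ i ∈ s, f i ≠ 0) : padicValNat p (∏ i ∈ s, f i) = ∑ i ∈ s, padicValNat p (f i) := by
  classical
  induction s using Finset.induction_on with
  | empty => simp
  | insert i s hi ih =>
    rw [Finset.prod_insert hi, Finset.sum_insert hi, padicValNat.mul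
      (hf i (Finset.mem_insert_self i s))
      (Finset.prod_ne_zero_iff.2 fun j hj => hf j (Finset.mem_insert_of_mem hj)),
      ih fun j hj => hf j (Finset.mem_insert_of_mem hj)]

/-- The valuation as the number of the powers which divide. -/
theorem PE2_card {p n b : ℕ} [hp : Fact p.Prime] (hn : 0 < n) (hb : n < b) :
    padicValNat p n = #{i ∈ Ico 1 b | p ^ i ∣ n} := by
  have h1 : Nat.log p n < b := (Nat.log_le_self p n).trans_lt hb
  have h2 := Nat.emultiplicity_eq_card_pow_dvd hp.out.ne_one hn h1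
  rw [← padicValNat_eq_emultiplicity hn.ne'] at h2
  exact_mod_cast h2

/-- `v_p(N! ∏_{i<j} (c j - c i)) = v_p(∏ (c i)!)` under the condition on `inv`: all valuations are
sums over the powers `p ^ s`, `s ≥ 1`, of the numbers `⌊N / p ^ s⌋`,
`#{i < j : p ^ s ∣ c j - c i}` and `∑ ⌊c i / p ^ s⌋` (`padicValNat_factorial`,
`padicValNat_eq_card...` or `Nat.Prime.emultiplicity_factorial`), and `inv_add`. -/
theorem val_eq {p h N : ℕ} (hp : p.Prime) (c : Fin h → ℕ) (hc : StrictMono c)
    (hinv : ∀ s, inv (p ^ s) (univ.image c) = N / p ^ s) :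
    padicValNat p (N.factorial * ∏ z : Fin h × Fin h with z.1 < z.2, (c z.2 - c z.1)) =
      padicValNat p (∏ i, (c i).factorial) := by
  have hfact : Fact p.Prime := ⟨hp⟩
  set b : ℕ := N + ∑ i, c i + 1 with hb
  have hci : ∀ i, c i < b := fun i => by
    have := Finset.single_le_sum (f := c) (fun j _ => Nat.zero_le _) (Finset.mem_univ i)
    omega
  have hpos : ∀ z ∈ (univ.filter fun z : Fin h × Fin h => z.1 < z.2), c z.2 - c z.1 ≠ 0 := by
    intro z hz
    have h1 := hc (Finset.mem_filter.1 hz).2
    omega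
  rw [padicValNat.mul (Nat.factorial_ne_zero N) (Finset.prod_ne_zero_iff.2 hpos),
    PE2_prod _ _ hpos, PE2_prod _ _ fun i _ => Nat.factorial_ne_zero _,
    padicValNat_factorial (b := b) ((Nat.log_le_self p N).trans_lt (by omega))]
  have h1 : ∀ i ∈ (univ : Finset (Fin h)), padicValNat p (c i).factorial =
      ∑ s ∈ Ico 1 b, c i / p ^ s := fun i _ =>
    padicValNat_factorial ((Nat.log_le_self p (c i)).trans_lt (hci i))
  have h2 : ∀ z ∈ (univ.filter fun z : Fin h × Fin h => z.1 < z.2),
      padicValNat p (c z.2 - c z.1) = ∑ s ∈ Ico 1 b, if p ^ s ∣ c z.2 - c z.1 then 1 else 0 := by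
    intro z hz
    have h3 := hpos z hz
    have h4 := hci z.2
    rw [PE2_card (b := b) (by omega) (by omega), Finset.card_filter]
  rw [Finset.sum_congr rfl h1, Finset.sum_congr rfl h2, Finset.sum_comm (s := univ),
    Finset.sum_comm (s := univ.filter fun z : Fin h × Fin h => z.1 < z.2), ← Finset.sum_add_distrib]
  refine Finset.sum_congr rfl fun s _ => ?_
  rw [← inv_add (pow_pos hp.pos s) c hc, hinv s, ← Finset.card_filter, Finset.filter_filter]

end W09h1
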