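import Pool.Agent.W_09e4ca_h1.PE2

/-!
# Coefficients which are not divisible by `p`
-/

namespace W09h1

open Finset MvPolynomial

/-- By `W09h33.coeff_vandermonde_pow` over `ℤ` (`∏ (c i)!` times the coefficient is
`N! ∏_{i<j} (c j - c i)`, `Matrix.det_vandermonde`) and `val_eq` the coefficient over `ℤ` is not
divisible by `p`; the coefficient over `ZMod p` is its reduction (`coeff_map`). `inv 1 S = N` and
`inv_add` with `P = 1` give `∑ c i = N + h (h - 1) / 2`. -/
theorem coeff_ne_zero {p h N : ℕ} (hp : p.Prime) (c : Fin h → ℕ) (hc : StrictMono c)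
    (hinv : ∀ s, inv (p ^ s) (univ.image c) = N / p ^ s) :
    ∑ i, c i = N + h * (h - 1) / 2 ∧
    coeff (Finsupp.equivFunOnFinite.symm c)
      ((∑ i : Fin h, (X i : MvPolynomial (Fin h) (ZMod p))) ^ N * VV (ZMod p) h) ≠ 0 := by
  have : Fact p.Prime := ⟨hp⟩
  have hsum : ∑ i, c i = N + h * (h - 1) / 2 := by
    have h1 := inv_add (P := 1) one_pos c hc
    have h2 := hinv 0
    rw [pow_zero] at h2
    rw [h2] at h1
    simp only [Nat.div_one, one_dvd, and_true] at h1
    have h3 : #{z : Fin h × Fin h | z.1 < z.2} = h * (h - 1) / 2 := by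
      rw [card_filter, Fintype.sum_prod_type_right, ← Finset.sum_range_id,
        ← Fin.sum_univ_eq_sum_range (fun i => i) h]
      refine sum_congr rfl fun j _ => ?_
      rw [← card_filter]
      have h4 : (univ.filter fun i : Fin h => i < j) = Iio j := by
        ext i
        simp
      rw [h4, Fin.card_Iio]
    rw [h3] at h1
    exact h1.symm
  refine ⟨hsum, ?_⟩
  set u : MvPolynomial (Fin h) ℤ := (∑ i : Fin h, (X i : MvPolynomial (Fin h) ℤ)) ^ N *
    (Matrix.vandermonde fun i : Fin h => (X i : MvPolynomial (Fin h) ℤ)).det with hu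
  set e : Fin h →₀ ℕ := Finsupp.equivFunOnFinite.symm c with he
  have hec : ∀ i, e i = c i := fun i => rfl
  have h1 := W09h33.coeff_vandermonde_pow (R := ℤ) h N e (by
    simp only [hec]
    exact hsum)
  rw [← hu] at h1
  simp only [hec] at h1
  have hmap : coeff e ((∑ i : Fin h, (X i : MvPolynomial (Fin h) (ZMod p))) ^ N *
      VV (ZMod p) h) = ((coeff e u : ℤ) : ZMod p) := by
    have h2 : (∑ i : Fin h, (X i : MvPolynomial (Fin h) (ZMod p))) ^ N * VV (ZMod p) h =
        map (Int.castRingHom (ZMod p)) u := by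
      rw [hu, map_mul, map_pow, map_sum]
      simp only [map_X]
      congr 1
      rw [VV, Matrix.det_vandermonde, Matrix.det_vandermonde, map_prod]
      refine prod_congr rfl fun i _ => ?_
      rw [map_prod]
      refine prod_congr rfl fun j _ => ?_
      rw [map_sub, map_X, map_X]
    rw [h2, coeff_map]
    rfl
  rw [hmap]
  intro h0
  rw [ZMod.intCast_zmod_eq_zero_iff_dvd] at h0
  have hdet : (Matrix.vandermonde fun i : Fin h => ((c i : ℕ) : ℤ)).det =
      ((∏ z : Fin h × Fin h with z.1 < z.2, (c z.2 - c z.1) : ℕ) : ℤ) := by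
    rw [Matrix.det_vandermonde, prod_filter, Fintype.prod_prod_type, Nat.cast_prod]
    refine prod_congr rfl fun i _ => ?_
    rw [← prod_filter, Nat.cast_prod]
    have h4 : (univ.filter fun j : Fin h => i < j) = Ioi i := by
      ext j
      simp
    rw [h4]
    refine prod_congr rfl fun j hj => ?_
    rw [mem_Ioi] at hj
    have := hc hj
    push_cast [this.le]
    ring
  rw [hdet] at h1
  have hD : (∏ z : Fin h × Fin h with z.1 < z.2, (c z.2 - c z.1)) ≠ 0 := by
    rw [prod_ne_zero_iff]
    intro z hz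
    rw [mem_filter] at hz
    have := hc hz.2
    omega
  have hne : (coeff e u).natAbs ≠ 0 := by
    intro h3
    rw [Int.natAbs_eq_zero] at h3
    rw [h3, mul_zero] at h1
    have h4 : (N.factorial : ℤ) *
        ((∏ z : Fin h × Fin h with z.1 < z.2, (c z.2 - c z.1) : ℕ) : ℤ) ≠ 0 :=
      mul_ne_zero (by exact_mod_cast Nat.factorial_ne_zero N) (by exact_mod_cast hD)
    exact h4 h1.symm
  have hprod : (∏ i, (c i).factorial) ≠ 0 :=
    prod_ne_zero_iff.2 fun i _ => Nat.factorial_ne_zero _
  have h4 : (∏ i, (c i).factorial) * (coeff e u).natAbs =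
      N.factorial * ∏ z : Fin h × Fin h with z.1 < z.2, (c z.2 - c z.1) := by
    have h5 := congrArg Int.natAbs h1
    rw [Int.natAbs_mul, Int.natAbs_mul, Int.natAbs_natCast, Int.natAbs_natCast,
      Int.natAbs_natCast] at h5
    exact h5
  have h6 := val_eq hp c hc hinv
  have h11 := congrArg (padicValNat p) h4
  rw [padicValNat.mul hprod hne, h6] at h11
  have h12 : padicValNat p (coeff e u).natAbs = 0 := by omega
  have h13 : p ∣ (coeff e u).natAbs := Int.natCast_dvd.1 h0
  have h14 := one_le_padicValNat_of_dvd hne h13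
  omega

end W09h1
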