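import Pool.Agent.W_09e4ca_h1.PD

/-!
# Coefficients which are not divisible by `p`
-/

namespace W09h1

open Finset MvPolynomial

/-- Number of `y < x` congruent to `x` modulo `P`. -/
theorem card_dvd_sub {P : ℕ} (hP : 0 < P) (x : ℕ) : #{y ∈ range x | P ∣ x - y} = x / P := by
  rw [card_filter, ← Finset.sum_range_reflect, ← Nat.card_multiples x P, card_filter]
  refine sum_congr rfl fun j hj => ?_
  rw [mem_range] at hj
  rw [show x - (x - 1 - j) = j + 1 by omega]

/-- For `S = {c 0, c 1, ...}` (`c` strictly monotone): `inv P S + #{i < j : P ∣ c j - c i} =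
∑ ⌊c i / P⌋`. -/
theorem inv_add {P h : ℕ} (hP : 0 < P) (c : Fin h → ℕ) (hc : StrictMono c) :
    inv P (univ.image c) + #{z : Fin h × Fin h | z.1 < z.2 ∧ P ∣ c z.2 - c z.1} =
      ∑ i, c i / P := by
  have hinj := hc.injective
  have h1 : inv P (univ.image c) =
      ∑ j, #{y ∈ range (c j) | y ∉ univ.image c ∧ P ∣ c j - y} := by
    unfold inv
    rw [sum_image (fun a _ b _ h => hinj h)]
  have h2 : #{z : Fin h × Fin h | z.1 < z.2 ∧ P ∣ c z.2 - c z.1} =
      ∑ j, #{i : Fin h | i < j ∧ P ∣ c j - c i} := by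
    rw [card_filter, Fintype.sum_prod_type_right]
    refine sum_congr rfl fun j _ => ?_
    rw [card_filter]
  rw [h1, h2, ← sum_add_distrib]
  refine sum_congr rfl fun j _ => ?_
  rw [← card_dvd_sub hP (c j)]
  have h3 : #{i : Fin h | i < j ∧ P ∣ c j - c i} =
      #{y ∈ range (c j) | y ∈ univ.image c ∧ P ∣ c j - y} := by
    rw [← card_image_of_injective _ hinj]
    congr 1
    ext y
    simp only [mem_image, mem_filter, mem_univ, true_and, mem_range]
    constructor
    · rintro ⟨i, ⟨hij, hd⟩, rfl⟩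
      exact ⟨hc hij, ⟨i, rfl⟩, hd⟩
    · rintro ⟨hlt, ⟨i, rfl⟩, hd⟩
      exact ⟨i, ⟨hc.lt_iff_lt.1 hlt, hd⟩, rfl⟩
  rw [h3, ← card_union_of_disjoint]
  · congr 1
    ext y
    simp only [mem_union, mem_filter]
    tauto
  · rw [disjoint_left]
    intro y hy hy'
    rw [mem_filter] at hy hy'
    exact hy.2.1 hy'.2.1

end W09h1
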