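import Pool.Agent.W_09e4ca_h1.PE

/-!
# The lower bound for restricted sumsets from the combinatorial data
-/

namespace W09h1

open Finset MvPolynomial W_MP_09e4ca_co

/-- `coeff_restr`, `coeff_graded` (the Vandermonde polynomial is homogeneous,
`W09h33.homogeneous_vandermonde`) and `coeff_ne_zero` with `c` the increasing enumeration of `S`
(`Finset.orderEmbOfFin`). -/
theorem card_restr_of_R {p k a b N : ℕ} (hp : p.Prime) (h : R p a b N)
    (A : Finset (ZMod (p ^ k))) (hA : #A = a + b) : N + 1 ≤ #(restr A a) := by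
  obtain ⟨S, h1, h2, h3⟩ := h
  by_contra hcon
  have hN : #(restr A a) ≤ N := by omega
  have hc : StrictMono (S.orderEmbOfFin h2) := (S.orderEmbOfFin h2).strictMono
  have him : univ.image (S.orderEmbOfFin h2) = S := by
    ext x
    rw [mem_image]
    constructor
    · rintro ⟨i, _, rfl⟩
      exact S.orderEmbOfFin_mem h2 i
    · intro hx
      have : x ∈ Set.range (S.orderEmbOfFin h2) := by
        rw [range_orderEmbOfFin]
        exact hx
      obtain ⟨i, rfl⟩ := this
      exact ⟨i, mem_univ i, rfl⟩
  obtain ⟨k1, k2⟩ := coeff_ne_zero (N := N) hp (S.orderEmbOfFin h2) hc (by rw [him]; exact h3)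
  apply k2
  have e1 := coeff_restr hp A hN (Finsupp.equivFunOnFinite.symm (S.orderEmbOfFin h2)) (fun i => by
    rw [Finsupp.coe_equivFunOnFinite_symm, hA]
    exact mem_range.1 (h1 (S.orderEmbOfFin_mem h2 i)))
  rw [← e1]
  symm
  apply coeff_graded (w := a * (a - 1) / 2)
  · haveI : Fact p.Prime := ⟨hp⟩
    exact W09h33.homogeneous_vandermonde (F := ZMod p) a
  · rw [Finsupp.coe_equivFunOnFinite_symm]
    exact k1

end W09h1
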