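import Pool.Agent.W_09e4ca_h1.PC

/-!
# The special boxes

`p` odd, `t ≥ 1`, `d = p ^ t`, `h = p`, `m = p + d`, `N = (p - 1) d + e`, `e = d - p + 1`.
-/

namespace W09h1

open Finset MvPolynomial W_MP_09e4ca_co

theorem PS1_coeff_prod {F : Type} [CommRing F] {h : ℕ} (g : Fin h → Polynomial F)
    (c : Fin h → ℕ) :
    coeff (Finsupp.equivFunOnFinite.symm c)
      (∏ i, Polynomial.aeval (X i : MvPolynomial (Fin h) F) (g i)) = ∏ i, (g i).coeff (c i) := by
  classical
  obtain ⟨N, hN⟩ : ∃ N : ℕ, ∀ i, (g i).natDegree < N ∧ c i < N := by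
    refine ⟨(univ.sup fun i => max (g i).natDegree (c i)) + 1, fun i => ?_⟩
    have h1 := Finset.le_sup (f := fun i => max (g i).natDegree (c i)) (mem_univ i)
    have h2 : max (g i).natDegree (c i) ≤ univ.sup fun i => max (g i).natDegree (c i) := h1
    constructor
    · have := le_max_left (g i).natDegree (c i)
      omega
    · have := le_max_right (g i).natDegree (c i)
      omega
  have h1 : ∀ i, Polynomial.aeval (X i : MvPolynomial (Fin h) F) (g i) =
      ∑ j ∈ range N, monomial (Finsupp.single i j) ((g i).coeff j) := by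
    intro i
    conv_lhs => rw [(g i).as_sum_range' N (hN i).1]
    rw [map_sum]
    refine sum_congr rfl fun j _ => ?_
    rw [Polynomial.aeval_monomial, algebraMap_eq, X_pow_eq_monomial, C_mul_monomial, mul_one]
  have h2 : ∀ p : Fin h → ℕ,
      ∏ i, (monomial (Finsupp.single i (p i)) ((g i).coeff (p i)) : MvPolynomial (Fin h) F) =
        monomial (Finsupp.equivFunOnFinite.symm p) (∏ i, (g i).coeff (p i)) := by
    intro p
    rw [Finsupp.equivFunOnFinite_symm_eq_sum, monomial_sum_index, map_prod, ← prod_mul_distrib]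
    refine prod_congr rfl fun i _ => ?_
    rw [C_mul_monomial, mul_one]
  rw [prod_congr rfl fun i _ => h1 i, prod_univ_sum, coeff_sum, sum_congr rfl fun p _ => by rw [h2 p]]
  rw [sum_eq_single c]
  · simp
  · intro b _ hb
    rw [coeff_monomial, if_neg]
    intro h
    exact hb (Finsupp.equivFunOnFinite.symm.injective h)
  · intro hc
    exact absurd (Fintype.mem_piFinset.2 fun i => mem_range.2 (hN i).2) hc

/-- The coefficient of `∏ y i ^ (c i)` in `(∏ f(y i)) * VV` is the determinant of the matrix with the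
entries `[y ^ (c i - j)] f` (zero if `c i < j`). (`Matrix.det_apply` for `VV`, each term is a product
of one variable polynomials; the coefficient of `∏ y i ^ (c i)` in `∏ g i (y i)` is
`∏ (g i).coeff (c i)`.) -/
theorem coeff_prod_VV {F : Type} [CommRing F] {h : ℕ} (f : Polynomial F) (c : Fin h → ℕ) :
    coeff (Finsupp.equivFunOnFinite.symm c)
      ((∏ i, Polynomial.aeval (X i : MvPolynomial (Fin h) F) f) * VV F h) =
    (Matrix.of fun i j : Fin h => if (j : ℕ) ≤ c i then f.coeff (c i - j) else 0).det := by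
  classical
  rw [VV, Matrix.det_apply', Matrix.det_apply', Finset.mul_sum, coeff_sum]
  refine sum_congr rfl fun s _ => ?_
  have h1 : (∏ i, Polynomial.aeval (X i : MvPolynomial (Fin h) F) f) *
      (((Equiv.Perm.sign s : ℤ) : MvPolynomial (Fin h) F) *
        ∏ i, Matrix.vandermonde (fun i : Fin h => (X i : MvPolynomial (Fin h) F)) (s i) i) =
      C ((Equiv.Perm.sign s : ℤ) : F) *
        ∏ i, Polynomial.aeval (X i : MvPolynomial (Fin h) F)
          (f * Polynomial.X ^ ((s.symm i : Fin h) : ℕ)) := by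
    have h2 : ∏ i, Polynomial.aeval (X i : MvPolynomial (Fin h) F)
          (f * Polynomial.X ^ ((s.symm i : Fin h) : ℕ)) =
        (∏ i, Polynomial.aeval (X i : MvPolynomial (Fin h) F) f) *
          ∏ i, (X i : MvPolynomial (Fin h) F) ^ ((s.symm i : Fin h) : ℕ) := by
      rw [← prod_mul_distrib]
      refine prod_congr rfl fun i _ => ?_
      rw [map_mul, map_pow, Polynomial.aeval_X]
    have h3 : ∏ i, Matrix.vandermonde (fun i : Fin h => (X i : MvPolynomial (Fin h) F)) (s i) i =
        ∏ i, (X i : MvPolynomial (Fin h) F) ^ ((s.symm i : Fin h) : ℕ) := by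
      rw [← Equiv.prod_comp s
        (fun i => (X i : MvPolynomial (Fin h) F) ^ ((s.symm i : Fin h) : ℕ))]
      refine prod_congr rfl fun i _ => ?_
      rw [Matrix.vandermonde_apply, Equiv.symm_apply_apply]
    rw [h2, h3]
    have h4 : (((Equiv.Perm.sign s : ℤ) : MvPolynomial (Fin h) F)) =
        C ((Equiv.Perm.sign s : ℤ) : F) := by
      rw [map_intCast]
    rw [h4]
    ring
  rw [h1, coeff_C_mul, PS1_coeff_prod]
  congr 1
  refine (Equiv.prod_comp s
    (fun i => (f * Polynomial.X ^ ((s.symm i : Fin h) : ℕ)).coeff (c i))).symm.trans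
    (prod_congr rfl fun i _ => ?_)
  rw [Equiv.symm_apply_apply, Polynomial.coeff_mul_X_pow', Matrix.of_apply]

end W09h1
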