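import Pool.Agent.W_09e4ca_h1.TwoA1

/-!
# The parity split of `ZMod (2 ^ (k + 1))`
-/

namespace W09h1

open Finset W_MP_09e4ca_co

/-- the union of the two images is a set of the wanted size and sum -/
theorem TwoA2_mem {k i j : ℕ} {A : Finset (ZMod (2 ^ (k + 1)))} {x y : ZMod (2 ^ k)}
    (hx : x ∈ restr (ev k A) i) (hy : y ∈ restr (od k A) j) :
    dbl k x + dbl k y + (j : ZMod (2 ^ (k + 1))) ∈ restr A (i + j) := by
  obtain ⟨s, hs, hsc, rfl⟩ := mem_restr.1 hx
  obtain ⟨t, ht, htc, rfl⟩ := mem_restr.1 hy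
  refine mem_restr.2 ⟨s.image (dbl k) ∪ t.image (fun x => dbl k x + 1), ?_, ?_, ?_⟩
  · intro z hz
    rw [mem_union, mem_image, mem_image] at hz
    rcases hz with ⟨x, hx, rfl⟩ | ⟨x, hx, rfl⟩
    · exact mem_ev.1 (hs hx)
    · exact mem_od.1 (ht hx)
  · rw [card_union_of_disjoint (TwoA1_disj k _ _), card_image_of_injective _ (dbl_inj k),
      card_image_of_injective _ (fun x y hxy => dbl_inj k (add_right_cancel hxy)), hsc, htc]
  · rw [sum_union (TwoA1_disj k _ _), sum_image (fun x _ y _ hxy => dbl_inj k hxy),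
      sum_image (fun x _ y _ hxy => dbl_inj k (add_right_cancel hxy)), sum_add_distrib,
      dbl_sum, dbl_sum, sum_const, htc, nsmul_one]
    ring

/-- Sums of `i` even and `2 j` odd elements. -/
theorem mem_restr_even {k i j : ℕ} {A : Finset (ZMod (2 ^ (k + 1)))} {x y : ZMod (2 ^ k)}
    (hx : x ∈ restr (ev k A) i) (hy : y ∈ restr (od k A) (2 * j)) :
    x + y + j ∈ ev k (restr A (i + 2 * j)) := by
  rw [mem_ev, dbl_add, dbl_add, dbl_natCast]
  exact TwoA2_mem hx hy

/-- Sums of `i` even and `2 j + 1` odd elements. -/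
theorem mem_restr_odd {k i j : ℕ} {A : Finset (ZMod (2 ^ (k + 1)))} {x y : ZMod (2 ^ k)}
    (hx : x ∈ restr (ev k A) i) (hy : y ∈ restr (od k A) (2 * j + 1)) :
    x + y + j ∈ od k (restr A (i + (2 * j + 1))) := by
  rw [mem_od, dbl_add, dbl_add, dbl_natCast]
  have h := TwoA2_mem hx hy
  have e : ((2 * j + 1 : ℕ) : ZMod (2 ^ (k + 1))) = ((2 * j : ℕ) : ZMod (2 ^ (k + 1))) + 1 := by
    push_cast; rfl
  rw [add_assoc, ← e]
  exact h

theorem restr_translate {n : ℕ} (h : ℕ) (A : Finset (ZMod n)) (c : ZMod n) :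
    #(restr (A.image fun x => x + c) h) = #(restr A h) := by
  have inj : Function.Injective fun x : ZMod n => x + c := add_left_injective c
  have e : restr (A.image fun x => x + c) h = (restr A h).image fun x => x + h • c := by
    ext z
    rw [mem_restr, mem_image]
    constructor
    · rintro ⟨s, hs, hsc, rfl⟩
      obtain ⟨t, ht, rfl⟩ := subset_image_iff.1 hs
      refine ⟨∑ x ∈ t, x, mem_restr.2 ⟨t, ht, ?_, rfl⟩, ?_⟩
      · rwa [card_image_of_injective _ inj] at hsc
      · rw [card_image_of_injective _ inj] at hsc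
        rw [sum_image (fun x _ y _ hxy => inj hxy), sum_add_distrib, sum_const, hsc]
    · rintro ⟨x, hx, rfl⟩
      obtain ⟨t, ht, htc, rfl⟩ := mem_restr.1 hx
      refine ⟨t.image fun x => x + c, image_subset_image ht, ?_, ?_⟩
      · rw [card_image_of_injective _ inj, htc]
      · rw [sum_image (fun x _ y _ hxy => inj hxy), sum_add_distrib, sum_const, htc]
  rw [e, card_image_of_injective _ (add_left_injective _)]

theorem restr_zero {n : ℕ} (A : Finset (ZMod n)) : restr A 0 = {0} := by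
  simp [restr]

theorem restr_one {n : ℕ} (A : Finset (ZMod n)) : restr A 1 = A := by
  ext z
  rw [mem_restr]
  constructor
  · rintro ⟨s, hs, hsc, rfl⟩
    obtain ⟨a, rfl⟩ := card_eq_one.1 hsc
    rw [sum_singleton]
    exact hs (mem_singleton_self a)
  · intro hz
    exact ⟨{z}, singleton_subset_iff.2 hz, card_singleton z, sum_singleton _ _⟩

theorem restr_nonempty {n : ℕ} {A : Finset (ZMod n)} {h : ℕ} (hh : h ≤ #A) :
    (restr A h).Nonempty := by
  obtain ⟨s, hs, hsc⟩ := exists_subset_card_eq hh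
  exact ⟨_, mem_restr.2 ⟨s, hs, hsc, rfl⟩⟩

end W09h1
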