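import Pool.Agent.W_09e4ca_h1.Defs

/-!
# The parity split of `ZMod (2 ^ (k + 1))`
-/

namespace W09h1

open Finset W_MP_09e4ca_co

/-- `x ↦ 2 x`. -/
def dbl (k : ℕ) (x : ZMod (2 ^ k)) : ZMod (2 ^ (k + 1)) := ((2 * x.val : ℕ) : ZMod (2 ^ (k + 1)))

theorem dbl_natCast (k j : ℕ) : dbl k (j : ZMod (2 ^ k)) = ((2 * j : ℕ) : ZMod (2 ^ (k + 1))) := by
  unfold dbl
  rw [ZMod.val_natCast, ZMod.natCast_eq_natCast_iff, pow_succ']
  exact Nat.ModEq.mul_left' 2 (Nat.mod_modEq j (2 ^ k))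

theorem dbl_add (k : ℕ) (x y : ZMod (2 ^ k)) : dbl k (x + y) = dbl k x + dbl k y := by
  have h : x + y = ((x.val + y.val : ℕ) : ZMod (2 ^ k)) := by
    push_cast [ZMod.natCast_zmod_val]
    rfl
  rw [h, dbl_natCast]
  unfold dbl
  rw [mul_add]
  push_cast
  rfl

theorem dbl_inj (k : ℕ) : Function.Injective (dbl k) := by
  intro x y h
  unfold dbl at h
  rw [ZMod.natCast_eq_natCast_iff, pow_succ'] at h
  have h2 := Nat.ModEq.mul_left_cancel' two_ne_zero h
  rw [← ZMod.natCast_eq_natCast_iff] at h2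
  rwa [ZMod.natCast_zmod_val, ZMod.natCast_zmod_val] at h2

/-- `dbl` as a homomorphism. -/
def TwoA1_hom (k : ℕ) : ZMod (2 ^ k) →+ ZMod (2 ^ (k + 1)) := AddMonoidHom.mk' (dbl k) (dbl_add k)

theorem dbl_sum (k : ℕ) (s : Finset (ZMod (2 ^ k))) : dbl k (∑ x ∈ s, x) = ∑ x ∈ s, dbl k x :=
  map_sum (TwoA1_hom k) (fun x => x) s

theorem dbl_ne (k : ℕ) (x y : ZMod (2 ^ k)) : dbl k x ≠ dbl k y + 1 := by
  intro h
  unfold dbl at h
  have h2 : ((2 * x.val : ℕ) : ZMod (2 ^ (k + 1))) = ((2 * y.val + 1 : ℕ) : ZMod (2 ^ (k + 1))) := by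
    rw [h]; push_cast; rfl
  rw [ZMod.natCast_eq_natCast_iff, pow_succ'] at h2
  have h3 := Nat.ModEq.of_mul_right (2 ^ k) h2
  unfold Nat.ModEq at h3
  omega

theorem dbl_or (k : ℕ) (z : ZMod (2 ^ (k + 1))) : ∃ x, z = dbl k x ∨ z = dbl k x + 1 := by
  refine ⟨((z.val / 2 : ℕ) : ZMod (2 ^ k)), ?_⟩
  rw [dbl_natCast]
  have h0 : z = (z.val : ZMod (2 ^ (k + 1))) := (ZMod.natCast_zmod_val z).symm
  rcases Nat.mod_two_eq_zero_or_one z.val with h | h
  · left
    have h1 : z.val = 2 * (z.val / 2) := by omega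
    rw [← h1]; exact h0
  · right
    have h1 : z.val = 2 * (z.val / 2) + 1 := by omega
    have h2 : ((2 * (z.val / 2) : ℕ) : ZMod (2 ^ (k + 1))) + 1 =
        ((2 * (z.val / 2) + 1 : ℕ) : ZMod (2 ^ (k + 1))) := by push_cast; rfl
    rw [h2, ← h1]; exact h0

/-- The even part. -/
def ev (k : ℕ) (A : Finset (ZMod (2 ^ (k + 1)))) : Finset (ZMod (2 ^ k)) :=
  univ.filter fun x => dbl k x ∈ A

/-- The odd part. -/
def od (k : ℕ) (A : Finset (ZMod (2 ^ (k + 1)))) : Finset (ZMod (2 ^ k)) :=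
  univ.filter fun x => dbl k x + 1 ∈ A

theorem mem_ev {k : ℕ} {A : Finset (ZMod (2 ^ (k + 1)))} {x : ZMod (2 ^ k)} :
    x ∈ ev k A ↔ dbl k x ∈ A := by
  simp [ev]

theorem mem_od {k : ℕ} {A : Finset (ZMod (2 ^ (k + 1)))} {x : ZMod (2 ^ k)} :
    x ∈ od k A ↔ dbl k x + 1 ∈ A := by
  simp [od]

theorem TwoA1_split (k : ℕ) (A : Finset (ZMod (2 ^ (k + 1)))) :
    (ev k A).image (dbl k) ∪ (od k A).image (fun x => dbl k x + 1) = A := by
  ext z
  rw [mem_union, mem_image, mem_image]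
  constructor
  · rintro (⟨x, hx, rfl⟩ | ⟨x, hx, rfl⟩)
    · exact mem_ev.1 hx
    · exact mem_od.1 hx
  · intro hz
    obtain ⟨x, hx | hx⟩ := dbl_or k z
    · left; exact ⟨x, mem_ev.2 (hx ▸ hz), hx.symm⟩
    · right; exact ⟨x, mem_od.2 (hx ▸ hz), hx.symm⟩

theorem TwoA1_disj (k : ℕ) (E O : Finset (ZMod (2 ^ k))) :
    Disjoint (E.image (dbl k)) (O.image (fun x => dbl k x + 1)) := by
  rw [disjoint_left]
  intro z h1 h2
  obtain ⟨x, _, rfl⟩ := mem_image.1 h1
  obtain ⟨y, _, hy⟩ := mem_image.1 h2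
  exact dbl_ne k x y hy.symm

theorem card_ev_add_od (k : ℕ) (A : Finset (ZMod (2 ^ (k + 1)))) :
    #(ev k A) + #(od k A) = #A := by
  have h1 : #((ev k A).image (dbl k)) = #(ev k A) := card_image_of_injective _ (dbl_inj k)
  have h2 : #((od k A).image (fun x => dbl k x + 1)) = #(od k A) :=
    card_image_of_injective _ (fun x y hxy => dbl_inj k (add_right_cancel hxy))
  rw [← h1, ← h2, ← card_union_of_disjoint (TwoA1_disj k _ _), TwoA1_split]

/-- Translation by `1` exchanges the parts (up to a translation). -/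
theorem ev_translate (k : ℕ) (A : Finset (ZMod (2 ^ (k + 1)))) :
    #(ev k (A.image fun x => x + 1)) = #(od k A) ∧
      #(od k (A.image fun x => x + 1)) = #(ev k A) := by
  have hmem : ∀ z : ZMod (2 ^ (k + 1)), (z ∈ A.image fun x => x + 1) ↔ z - 1 ∈ A := by
    intro z
    rw [mem_image]
    constructor
    · rintro ⟨x, hx, rfl⟩; simpa using hx
    · intro h; exact ⟨z - 1, h, by ring⟩
  have h1 : dbl k 1 = 2 := by
    have := dbl_natCast k 1
    simpa using this
  constructor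
  · have : ev k (A.image fun x => x + 1) = (od k A).image fun x => x + 1 := by
      ext z
      rw [mem_ev, hmem, mem_image]
      constructor
      · intro h
        refine ⟨z - 1, mem_od.2 ?_, by ring⟩
        have h2 : dbl k z = dbl k (z - 1) + 2 := by
          rw [← h1, ← dbl_add, sub_add_cancel]
        rw [h2] at h
        have h3 : dbl k (z - 1) + 2 - 1 = dbl k (z - 1) + 1 := by ring
        rwa [h3] at h
      · rintro ⟨x, hx, rfl⟩
        rw [dbl_add, h1]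
        have h3 : dbl k x + 2 - 1 = dbl k x + 1 := by ring
        rw [h3]
        exact mem_od.1 hx
    rw [this]
    exact card_image_of_injective _ (add_left_injective _)
  · congr 1
    ext z
    rw [mem_od, hmem, mem_ev, add_sub_cancel_right]

end W09h1
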