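import Pool.Agent.W_09e4ca_h1.TwoA1
import Pool.Agent.W_09e4ca_h1.TwoA2
import Pool.Agent.W_09e4ca_h1.TwoA
import Pool.Agent.W_09e4ca_h1.PF

/-!
# Two-groups: common lemmas of the induction step
-/

namespace W09h1

open Finset W_MP_09e4ca_co

/-- The theorem for `ZMod (2 ^ k)`. -/
def Two (k : ℕ) : Prop := ∀ (A : Finset (ZMod (2 ^ k))) (h t : ℕ), h ≤ #A → 2 ^ t < #A →
  min (2 ^ (t + 1)) (h * (#A - h) + 1) ≤ #(restr A h)

/-- Take `t` with `2 ^ t < #A ≤ 2 ^ (t + 1)`; `h (m - h) + 1 ≥ m`. -/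
theorem card_le_restr {k : ℕ} (hk : Two k) (A : Finset (ZMod (2 ^ k))) {h : ℕ} (h1 : 1 ≤ h)
    (h2 : h < #A) : #A ≤ #(restr A h) := by
  have h3 : #A - 1 ≠ 0 := by omega
  have h4 : 2 ^ Nat.log 2 (#A - 1) ≤ #A - 1 := Nat.pow_log_le_self 2 h3
  have h5 : #A - 1 < 2 ^ (Nat.log 2 (#A - 1) + 1) := Nat.lt_pow_succ_log_self one_lt_two _
  have h6 := hk A h (Nat.log 2 (#A - 1)) h2.le (by omega)
  refine le_trans (le_min (by omega) ?_) h6
  obtain ⟨a, ha⟩ : ∃ a, h = a + 1 := ⟨h - 1, by omega⟩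
  obtain ⟨b, hb⟩ : ∃ b, #A = h + (b + 1) := ⟨#A - h - 1, by omega⟩
  rw [hb, Nat.add_sub_cancel_left, ha]
  nlinarith [Nat.zero_le (a * b)]

open scoped Pointwise in
theorem TwoB_ev {k i j : ℕ} (A : Finset (ZMod (2 ^ (k + 1)))) :
    #(restr (ev k A) i + restr (od k A) (2 * j)) ≤ #(ev k (restr A (i + 2 * j))) := by
  rw [← card_image_of_injective _ (add_left_injective (j : ZMod (2 ^ k)))]
  apply card_le_card
  intro z hz
  obtain ⟨w, hw, rfl⟩ := mem_image.1 hz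
  obtain ⟨x, hx, y, hy, rfl⟩ := mem_add.1 hw
  exact mem_restr_even hx hy

open scoped Pointwise in
theorem TwoB_od {k i j : ℕ} (A : Finset (ZMod (2 ^ (k + 1)))) :
    #(restr (ev k A) i + restr (od k A) (2 * j + 1)) ≤
      #(od k (restr A (i + (2 * j + 1)))) := by
  rw [← card_image_of_injective _ (add_left_injective (j : ZMod (2 ^ k)))]
  apply card_le_card
  intro z hz
  obtain ⟨w, hw, rfl⟩ := mem_image.1 hz
  obtain ⟨x, hx, y, hy, rfl⟩ := mem_add.1 hw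
  exact mem_restr_odd hx hy

open scoped Pointwise in
theorem TwoB_left {G : Type*} [AddGroup G] [DecidableEq G] (X Y : Finset G) (hY : Y.Nonempty) :
    #X ≤ #(X + Y) := by
  obtain ⟨y, hy⟩ := hY
  rw [← card_image_of_injective X (add_left_injective y)]
  apply card_le_card
  intro z hz
  obtain ⟨x, hx, rfl⟩ := mem_image.1 hz
  exact add_mem_add hx hy

/-- `i` even and `2 j` odd elements (`mem_restr_even`, `card_add_ge` for `p = 2`). -/
theorem ev_ge {k i j t : ℕ} (A : Finset (ZMod (2 ^ (k + 1)))) (hi : i ≤ #(ev k A))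
    (hj : 2 * j ≤ #(od k A))
    (h : 2 ^ t < #(restr (ev k A) i) + #(restr (od k A) (2 * j))) :
    2 ^ t ≤ #(ev k (restr A (i + 2 * j))) :=
  (card_add_ge Nat.prime_two _ _ (restr_nonempty hi) (restr_nonempty hj) h).trans (TwoB_ev A)

/-- `i` even and `2 j + 1` odd elements. -/
theorem od_ge {k i j t : ℕ} (A : Finset (ZMod (2 ^ (k + 1)))) (hi : i ≤ #(ev k A))
    (hj : 2 * j + 1 ≤ #(od k A))
    (h : 2 ^ t < #(restr (ev k A) i) + #(restr (od k A) (2 * j + 1))) :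
    2 ^ t ≤ #(od k (restr A (i + (2 * j + 1)))) :=
  (card_add_ge Nat.prime_two _ _ (restr_nonempty hi) (restr_nonempty hj) h).trans (TwoB_od A)

/-- The map `x ↦ x + y + j` for a fixed `y` is injective. -/
theorem ev_ge_left {k i j : ℕ} (A : Finset (ZMod (2 ^ (k + 1)))) (hj : 2 * j ≤ #(od k A)) :
    #(restr (ev k A) i) ≤ #(ev k (restr A (i + 2 * j))) :=
  (TwoB_left _ _ (restr_nonempty hj)).trans (TwoB_ev A)

theorem od_ge_left {k i j : ℕ} (A : Finset (ZMod (2 ^ (k + 1)))) (hj : 2 * j + 1 ≤ #(od k A)) :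
    #(restr (ev k A) i) ≤ #(od k (restr A (i + (2 * j + 1)))) :=
  (TwoB_left _ _ (restr_nonempty hj)).trans (TwoB_od A)

end W09h1
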