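import Pool.Agent.W_09e4ca_h1.TwoC1

/-!
# Two-groups: the induction step for `h = 2`
-/

namespace W09h1

open Finset W_MP_09e4ca_co

/-- The induction step for `h = 2`, `#O ≤ #E`. `#O = 0`: `Two k` for `E` (`ev_ge_left` with
`j = 0`). `#O ≥ 1`: the odd part has at least `2 ^ t` elements (`od_ge` with `i = 1`, `j = 0`) and the
even part at least `#(restr E 2)`. `t = 0`: `1 + 1`. `t ≥ 1`: `#E ≥ 2 ^ (t - 1) + 1`; if
`#E ≥ 2 ^ (t - 1) + 2`, then `#(restr E 2) ≥ 2 ^ t` by `Two k` with `t - 1`. If
`#E = 2 ^ (t - 1) + 1`, then `#(restr E 2) ≥ 2 ^ t - 1`, enough if `#A = 2 ^ t + 1`; otherwise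
`#O = #E` and `two_last` applies with `t - 1`. -/
theorem two_step {k t : ℕ} (hk : Two k) (A : Finset (ZMod (2 ^ (k + 1)))) (hA : 2 ^ t < #A)
    (h3 : 3 ≤ #A) (hEO : #(od k A) ≤ #(ev k A)) :
    min (2 ^ (t + 1)) (2 * (#A - 2) + 1) ≤ #(restr A 2) := by
  have hsum := card_ev_add_od k A
  have hsum2 := card_ev_add_od k (restr A 2)
  have hev : #(restr (ev k A) 2) ≤ #(ev k (restr A 2)) := by
    have h := ev_ge_left (i := 2) (j := 0) A (by omega)
    simpa using h
  rcases Nat.eq_zero_or_pos (#(od k A)) with hO | hO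
  · have hEA : #(ev k A) = #A := by omega
    have h1 := hk (ev k A) 2 t (by omega) (by omega)
    rw [hEA] at h1
    omega
  · have hod : 2 ^ t ≤ #(od k (restr A 2)) := by
      have h := od_ge (i := 1) (j := 0) (t := t) A (by omega) (by omega) (by
        have e1 : restr (ev k A) 1 = ev k A := restr_one _
        have e2 : restr (od k A) (2 * 0 + 1) = od k A := restr_one _
        rw [e1, e2, hsum]
        exact hA)
      simpa using h
    rcases Nat.eq_zero_or_pos t with ht | ht
    · subst ht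
      have h1 : 0 < #(restr (ev k A) 2) := Finset.card_pos.2 (restr_nonempty (by omega))
      have h2 : (2 : ℕ) ^ (0 + 1) = 2 := by norm_num
      have h3 : (2 : ℕ) ^ 0 = 1 := by norm_num
      rw [h2]
      rw [h3] at hod
      exact (min_le_left _ _).trans (by omega)
    · obtain ⟨s, rfl⟩ : ∃ s, t = s + 1 := ⟨t - 1, by omega⟩
      have e1 : (2 : ℕ) ^ (s + 1) = 2 * 2 ^ s := by rw [pow_succ]; ring
      have e2 : (2 : ℕ) ^ (s + 1 + 1) = 4 * 2 ^ s := by rw [pow_succ, pow_succ]; ring
      have hs : 0 < 2 ^ s := pow_pos (by norm_num) s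
      have h1 := hk (ev k A) 2 s (by omega) (by omega)
      rw [e1] at h1 hod hA
      rw [e2]
      by_cases hE : 2 ^ s + 2 ≤ #(ev k A)
      · have h2 : 2 * 2 ^ s ≤ #(restr (ev k A) 2) :=
          (le_min le_rfl (by omega)).trans h1
        exact (min_le_left _ _).trans (by omega)
      · have hE' : #(ev k A) = 2 ^ s + 1 := by omega
        by_cases hA' : #A = 2 * 2 ^ s + 1
        · have h2 : 2 * 2 ^ s - 1 ≤ #(restr (ev k A) 2) :=
            (le_min (by omega) (by omega)).trans h1
          exact (min_le_right _ _).trans (by omega)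
        · have h2 := two_last (t := s) hk A hE' (by omega)
          have e3 : (2 : ℕ) ^ (s + 2) = 4 * 2 ^ s := by rw [pow_add]; ring
          rw [e3] at h2
          exact (min_le_left _ _).trans h2

end W09h1
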