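import Pool.Agent.W_09e4ca_h1.TwoB

/-!
# Two-groups: the induction step for `h = 2`
-/

namespace W09h1

open Finset W_MP_09e4ca_co

open scoped Pointwise in
/-- `od (restr A 2) ⊇ E + O`. -/
theorem add_subset_od {k : ℕ} (A : Finset (ZMod (2 ^ (k + 1)))) :
    ev k A + od k A ⊆ od k (restr A 2) := by
  intro z hz
  obtain ⟨x, hx, y, hy, rfl⟩ := mem_add.1 hz
  have hx' : x ∈ restr (ev k A) 1 := by rw [restr_one]; exact hx
  have hy' : y ∈ restr (od k A) (2 * 0 + 1) := by rw [mul_zero, zero_add, restr_one]; exact hy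
  have h := mem_restr_odd hx' hy'
  rw [Nat.cast_zero, add_zero] at h
  exact h

theorem TwoC1_even {k : ℕ} (A : Finset (ZMod (2 ^ (k + 1)))) :
    restr (ev k A) 2 ⊆ ev k (restr A 2) := by
  intro z hz
  have hy : (0 : ZMod (2 ^ k)) ∈ restr (od k A) (2 * 0) := by
    rw [mul_zero, restr_zero]; exact mem_singleton_self 0
  have h := mem_restr_even hz hy
  rw [Nat.cast_zero, add_zero, add_zero] at h
  exact h

theorem TwoC1_odd {k : ℕ} (A : Finset (ZMod (2 ^ (k + 1)))) {z : ZMod (2 ^ k)}
    (hz : z ∈ restr (od k A) 2) : z + 1 ∈ ev k (restr A 2) := by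
  have hx : (0 : ZMod (2 ^ k)) ∈ restr (ev k A) 0 := by
    rw [restr_zero]; exact mem_singleton_self 0
  have hz' : z ∈ restr (od k A) (2 * 1) := hz
  have h := mem_restr_even hx hz'
  have e : 0 + z + ((1 : ℕ) : ZMod (2 ^ k)) = z + 1 := by rw [Nat.cast_one, zero_add]
  rw [e] at h
  exact h

/-- the parity -/
def TwoC1_par (k : ℕ) : ZMod (2 ^ (k + 1)) →+* ZMod 2 :=
  ZMod.castHom (dvd_pow_self 2 (Nat.succ_ne_zero k)) (ZMod 2)

theorem TwoC1_par_dbl (k : ℕ) (x : ZMod (2 ^ k)) : TwoC1_par k (dbl k x) = 0 := by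
  unfold dbl
  rw [map_natCast, Nat.cast_mul]
  have : ((2 : ℕ) : ZMod 2) = 0 := by decide
  rw [this, zero_mul]

theorem TwoC1_par_dbl' (k : ℕ) (x : ZMod (2 ^ k)) : TwoC1_par k (dbl k x + 1) = 1 := by
  rw [map_add, TwoC1_par_dbl, map_one, zero_add]

theorem TwoC1_two (c : ZMod 2) : c = 0 ∨ c = 1 := by
  revert c; decide

theorem TwoC1_add_self (c : ZMod 2) : c + c = 0 := by
  revert c; decide

/-- both classes or a single class -/
theorem TwoC1_cases {k : ℕ} (E : Finset (ZMod (2 ^ (k + 1)))) :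
    ((ev k E).Nonempty ∧ (od k E).Nonempty) ∨ ∃ c, ∀ x ∈ E, TwoC1_par k x = c := by
  by_cases h0 : (ev k E).Nonempty
  · by_cases h1 : (od k E).Nonempty
    · exact Or.inl ⟨h0, h1⟩
    · right
      refine ⟨0, fun x hx => ?_⟩
      rcases dbl_or k x with ⟨u, rfl | rfl⟩
      · exact TwoC1_par_dbl k u
      · exact absurd ⟨u, mem_od.2 hx⟩ h1
  · right
    refine ⟨1, fun x hx => ?_⟩
    rcases dbl_or k x with ⟨u, rfl | rfl⟩
    · exact absurd ⟨u, mem_ev.2 hx⟩ h0
    · exact TwoC1_par_dbl' k u

open scoped Pointwise in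
/-- a set in one class plus a set which meets both classes -/
theorem TwoC1_sum {k : ℕ} (X Y : Finset (ZMod (2 ^ (k + 1)))) (c : ZMod 2)
    (hX : ∀ x ∈ X, TwoC1_par k x = c) (h0 : (ev k Y).Nonempty) (h1 : (od k Y).Nonempty) :
    2 * #X ≤ #(X + Y) := by
  obtain ⟨u, hu⟩ := h0
  obtain ⟨v, hv⟩ := h1
  have hd : Disjoint (X.image fun x => x + dbl k u) (X.image fun x => x + (dbl k v + 1)) := by
    rw [disjoint_left]
    intro z hz1 hz2
    obtain ⟨x, hx, rfl⟩ := mem_image.1 hz1
    obtain ⟨y, hy, hxy⟩ := mem_image.1 hz2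
    have := congrArg (TwoC1_par k) hxy
    simp only [map_add, hX x hx, hX y hy, TwoC1_par_dbl, map_one] at this
    rw [zero_add] at this
    exact absurd (add_left_cancel this) (by decide)
  have hc1 : #(X.image fun x => x + dbl k u) = #X := card_image_of_injective _ (add_left_injective _)
  have hc2 : #(X.image fun x => x + (dbl k v + 1)) = #X :=
    card_image_of_injective _ (add_left_injective _)
  have hsub : (X.image fun x => x + dbl k u) ∪ (X.image fun x => x + (dbl k v + 1)) ⊆ X + Y := by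
    apply union_subset
    · intro z hz
      obtain ⟨x, hx, rfl⟩ := mem_image.1 hz
      exact add_mem_add hx (mem_ev.1 hu)
    · intro z hz
      obtain ⟨x, hx, rfl⟩ := mem_image.1 hz
      exact add_mem_add hx (mem_od.1 hv)
  have := card_le_card hsub
  rw [card_union_of_disjoint hd, hc1, hc2] at this
  omega

/-- sums of two elements of one class -/
theorem TwoC1_same {k : ℕ} (X : Finset (ZMod (2 ^ (k + 1)))) (c : ZMod 2)
    (hX : ∀ x ∈ X, TwoC1_par k x = c) {z : ZMod (2 ^ (k + 1))} (hz : z ∈ restr X 2) :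
    TwoC1_par k z = 0 := by
  obtain ⟨a, ha, b, hb, _, rfl⟩ := mem_restr_two.1 hz
  rw [map_add, hX a ha, hX b hb, TwoC1_add_self]

open scoped Pointwise in
/-- The last case: `#E = #O = q + 1`, `q = 2 ^ t`, `t + 1` in place of `t`; the goal is
`4 q ≤ #(restr A 2)`. As `#E ≥ 2` we have `k = k' + 1`. Let `E₀, E₁` and `O₀, O₁` be the even and
odd parts of `E = ev k A` and `O = od k A`, and `Z = ev k (restr A 2)`, which contains `restr E 2`
and `restr O 2 + 1`. Always `#(od k (restr A 2)) ≥ #(E + O) ≥ 2 q` (`card_add_ge`) and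
`#Z ≥ #(restr E 2) ≥ min (2 q) (2 (q - 1) + 1) = 2 q - 1` by `Two k`.
(a) `E₀, E₁, O₀, O₁` nonempty: the odd part of `Z` contains `E₀ + E₁` and the even part contains
`O₀ + O₁ + 1`; both have at least `q` elements, since `#E₀ + #E₁ = q + 1 > q`, so `#Z ≥ 2 q`.
(b) exactly one of `E`, `O` is in a single class, say `E` (`E₀ = ∅` or `E₁ = ∅`), `O₀, O₁ ≠ ∅`: the
sets `E + O₀`-part and `E + O₁`-part of `E + O` are in different classes and have at least `q + 1`
elements each, so `#(E + O) ≥ 2 q + 2`, total `≥ 4 q + 1`. The same if `O` is in a single class and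
`E` is not.
(c) both are in a single class: `restr E 2` is in the even class of `ZMod (2 ^ k)` and
`restr O 2 + 1` in the odd class, so `#Z ≥ 2 (2 q - 1)`, total `≥ 6 q - 2 ≥ 4 q`. -/
theorem two_last {k t : ℕ} (hk : Two k) (A : Finset (ZMod (2 ^ (k + 1))))
    (hE : #(ev k A) = 2 ^ t + 1) (hO : #(od k A) = 2 ^ t + 1) :
    2 ^ (t + 2) ≤ #(restr A 2) := by
  have hq : 1 ≤ 2 ^ t := Nat.one_le_two_pow
  have hp1 : 2 ^ (t + 1) = 2 * 2 ^ t := by rw [pow_succ']
  have hp2 : 2 ^ (t + 2) = 4 * 2 ^ t := by rw [pow_add]; ring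
  obtain ⟨k', rfl⟩ : ∃ k', k = k' + 1 := by
    rcases Nat.eq_zero_or_pos k with h | h
    · exfalso
      subst h
      have h1 := card_le_univ (ev 0 A)
      rw [ZMod.card] at h1
      omega
    · exact ⟨k - 1, by omega⟩
  have hsum := card_ev_add_od (k' + 1) (restr A 2)
  have hOd := card_le_card (add_subset_od A)
  set E := ev (k' + 1) A with hEdef
  set O := od (k' + 1) A with hOdef
  have hEne : E.Nonempty := by rw [← card_pos]; omega
  have hOne : O.Nonempty := by rw [← card_pos]; omega
  have hEO : 2 ^ (t + 1) ≤ #(E + O) := card_add_ge Nat.prime_two E O hEne hOne (by omega)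
  have hRE := hk E 2 t (by omega) (by omega)
  have hRO := hk O 2 t (by omega) (by omega)
  have hmin : min (2 ^ (t + 1)) (2 * (2 ^ t + 1 - 2) + 1) = 2 * 2 ^ t - 1 := by
    rw [min_eq_right (by omega)]; omega
  rw [hE, hmin] at hRE
  rw [hO, hmin] at hRO
  set Z := ev (k' + 1) (restr A 2) with hZdef
  have hZE : restr E 2 ⊆ Z := TwoC1_even A
  have hZE' := card_le_card hZE
  rcases TwoC1_cases E with ⟨e0, e1⟩ | ⟨c, hc⟩
  · rcases TwoC1_cases O with ⟨o0, o1⟩ | ⟨d, hd⟩
    · -- all four are nonempty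
      have hsE := card_ev_add_od k' E
      have hsO := card_ev_add_od k' O
      have g1 : 2 ^ t ≤ #(ev k' E + od k' E) := card_add_ge Nat.prime_two _ _ e0 e1 (by omega)
      have g2 : 2 ^ t ≤ #(ev k' O + od k' O) := card_add_ge Nat.prime_two _ _ o0 o1 (by omega)
      have g3 : ev k' E + od k' E ⊆ od k' Z := by
        intro z hz
        have := add_subset_od E hz
        rw [mem_od] at this ⊢
        exact hZE this
      have g4 : (ev k' O + od k' O).image (fun x => x + 1) ⊆ ev k' Z := by
        intro z hz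
        obtain ⟨x, hx, rfl⟩ := mem_image.1 hz
        have h1 := add_subset_od O hx
        rw [mem_od] at h1
        rw [mem_ev, dbl_add]
        have h2 := TwoC1_odd A h1
        have h3 : dbl k' 1 = 2 := by
          have := dbl_natCast k' 1
          simpa using this
        rw [h3]
        have h4 : dbl k' x + 1 + 1 = dbl k' x + 2 := by ring
        rwa [h4] at h2
      have g5 := card_le_card g3
      have g6 := card_le_card g4
      rw [card_image_of_injective _ (add_left_injective _)] at g6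
      have g7 := card_ev_add_od k' Z
      omega
    · have g := TwoC1_sum O E d hd e0 e1
      rw [add_comm O E] at g
      omega
  · rcases TwoC1_cases O with ⟨o0, o1⟩ | ⟨d, hd⟩
    · have g := TwoC1_sum E O c hc o0 o1
      omega
    · have g1 : (restr O 2).image (fun x => x + 1) ⊆ Z := by
        intro z hz
        obtain ⟨x, hx, rfl⟩ := mem_image.1 hz
        exact TwoC1_odd A hx
      have g2 : Disjoint (restr E 2) ((restr O 2).image (fun x => x + 1)) := by
        rw [disjoint_left]
        intro z hz1 hz2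
        obtain ⟨x, hx, rfl⟩ := mem_image.1 hz2
        have h1 := TwoC1_same E c hc hz1
        rw [map_add, TwoC1_same O d hd hx, map_one, zero_add] at h1
        exact absurd h1 (by decide)
      have g3 := card_le_card (union_subset hZE g1)
      rw [card_union_of_disjoint g2, card_image_of_injective _ (add_left_injective _)] at g3
      omega

end W09h1
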