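import Pool.Agent.W_09e4ca_h1.TwoB

/-!
# Two-groups: the induction step for `3 ≤ h ≤ m - 3`
-/

namespace W09h1

open Finset W_MP_09e4ca_co

/-- `#O = 0`. `Two k` for `E`: `h (m - h) + 1 ≥ 3 (m - 3) + 1 ≥ 2 (m - 1) ≥ 2 ^ (t + 1)` as
`m ≥ 6`. -/
theorem mid_zero {k t h : ℕ} (hk : Two k) (A : Finset (ZMod (2 ^ (k + 1)))) (hA : 2 ^ t < #A)
    (h3 : 3 ≤ h) (h4 : h + 3 ≤ #A) (hO : #(od k A) = 0) : 2 ^ (t + 1) ≤ #(restr A h) := by
  have hc := card_ev_add_od k A
  have hr := card_ev_add_od k (restr A h)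
  have hE : #(ev k A) = #A := by omega
  have h5 := hk (ev k A) h t (by omega) (by omega)
  have h6 := ev_ge_left (i := h) (j := 0) A (by omega)
  rw [mul_zero, add_zero] at h6
  rw [hE] at h5
  obtain ⟨a, ha⟩ := Nat.exists_eq_add_of_le h3
  obtain ⟨b, hb⟩ := Nat.exists_eq_add_of_le h4
  have h7 : #A - h = 3 + b := by omega
  have h8 : 2 ^ (t + 1) ≤ h * (#A - h) + 1 := by
    rw [h7, ha, pow_succ]
    have e : (3 + a) * (3 + b) = 9 + 3 * a + 3 * b + a * b := by ring
    rw [e]
    have : 2 ^ t + 1 ≤ 6 + a + b := by omega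
    have := Nat.zero_le (a * b)
    omega
  rw [min_eq_left h8] at h5
  omega

/-- `#O = 1`. `#E = m - 1 ≥ 2 ^ t`; the even part contains (a translate of) `restr E h` and the odd
part `restr E (h - 1)`; `card_le_restr`. -/
theorem mid_one {k t h : ℕ} (hk : Two k) (A : Finset (ZMod (2 ^ (k + 1)))) (hA : 2 ^ t < #A)
    (h3 : 3 ≤ h) (h4 : h + 3 ≤ #A) (hO : #(od k A) = 1) : 2 ^ (t + 1) ≤ #(restr A h) := by
  have hc := card_ev_add_od k A
  have hr := card_ev_add_od k (restr A h)
  have h6 := ev_ge_left (i := h) (j := 0) A (by omega)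
  rw [mul_zero, add_zero] at h6
  have h7 := od_ge_left (i := h - 1) (j := 0) A (by omega)
  rw [mul_zero, zero_add, Nat.sub_add_cancel (by omega)] at h7
  have h8 := card_le_restr hk (ev k A) (h := h) (by omega) (by omega)
  have h9 := card_le_restr hk (ev k A) (h := h - 1) (by omega) (by omega)
  rw [pow_succ]
  omega

/-- `#O = 2`. Odd part: `i = h - 1`, one odd element: `#(restr E (h - 1)) + 2 ≥ #E + 2 > 2 ^ t`,
`od_ge`. Even part: if `#E ≥ 2 ^ t`, then `#(restr E h) ≥ #E`. If `#E = 2 ^ t - 1`, then `m = 2 ^ t + 1 ≥ 6`,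
so `t ≥ 3`; if `h ≤ #E - 2`, use `Two k` for `E`, `h`, `t - 1`: `h (#E - h) + 1 ≥ 2 (#E - 2) + 1 ≥ 2 ^ t`;
if `h = #E - 1`, use `i = h - 2 = #E - 3` and both odd elements: `3 (#E - 3) + 1 ≥ 2 ^ t`. -/
theorem mid_two {k t h : ℕ} (hk : Two k) (A : Finset (ZMod (2 ^ (k + 1)))) (hA : 2 ^ t < #A)
    (h3 : 3 ≤ h) (h4 : h + 3 ≤ #A) (hO : #(od k A) = 2) : 2 ^ (t + 1) ≤ #(restr A h) := by
  have hc := card_ev_add_od k A
  have hr := card_ev_add_od k (restr A h)
  -- the odd part
  have h5 := card_le_restr hk (ev k A) (h := h - 1) (by omega) (by omega)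
  have h6 : #(restr (od k A) 1) = 2 := by rw [restr_one, hO]
  have h7 := od_ge (t := t) A (i := h - 1) (j := 0) (by omega) (by omega)
    (by rw [mul_zero, zero_add, h6]; omega)
  rw [mul_zero, zero_add, Nat.sub_add_cancel (by omega)] at h7
  -- the even part
  have h8 := ev_ge_left (i := h) (j := 0) A (by omega)
  rw [mul_zero, add_zero] at h8
  have h9 := card_le_restr hk (ev k A) (h := h) (by omega) (by omega)
  have h10 : 2 ^ t ≤ #(ev k (restr A h)) := by
    rcases Nat.lt_or_ge (#(ev k A)) (2 ^ t) with hlt | hge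
    · have hE : #(ev k A) + 1 = 2 ^ t := by omega
      obtain ⟨r, rfl⟩ : ∃ r, t = r + 3 := by
        refine ⟨t - 3, ?_⟩
        have : 3 ≤ t := by
          by_contra hcon
          have : 2 ^ t ≤ 2 ^ 2 := Nat.pow_le_pow_right (by norm_num) (by omega)
          omega
        omega
      have hpw : 2 ^ (r + 3) = 8 * 2 ^ r := by rw [pow_add]; ring
      have hpw2 : 2 ^ (r + 2) = 4 * 2 ^ r := by rw [pow_add]; ring
      have hr1 : 1 ≤ 2 ^ r := Nat.one_le_two_pow
      rcases Nat.lt_or_ge (h + 1) (#(ev k A)) with hh | hh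
      · have h11 := hk (ev k A) h (r + 2) (by omega) (by omega)
        have h12 : 2 ^ (r + 2 + 1) ≤ h * (#(ev k A) - h) + 1 := by
          obtain ⟨a, ha⟩ := Nat.exists_eq_add_of_le h3
          obtain ⟨b, hb⟩ : ∃ b, #(ev k A) = h + 2 + b := ⟨#(ev k A) - (h + 2), by omega⟩
          have e1 : #(ev k A) - h = 2 + b := by omega
          rw [e1, ha]
          have e : (3 + a) * (2 + b) = 6 + 2 * a + 3 * b + a * b := by ring
          rw [e]
          have := Nat.zero_le (a * b)
          show 2 ^ (r + 3) ≤ _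
          omega
        rw [min_eq_left h12] at h11
        exact h11.trans h8
      · have hh' : h + 1 = #(ev k A) := by omega
        have h11 := hk (ev k A) (h - 2) (r + 2) (by omega) (by omega)
        have h12 : 2 ^ (r + 2 + 1) ≤ (h - 2) * (#(ev k A) - (h - 2)) + 1 := by
          have e1 : #(ev k A) - (h - 2) = 3 := by omega
          rw [e1]
          show 2 ^ (r + 3) ≤ _
          omega
        rw [min_eq_left h12] at h11
        have h13 := ev_ge_left (i := h - 2) (j := 1) A (by omega)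
        rw [mul_one, Nat.sub_add_cancel (by omega)] at h13
        exact h11.trans h13
    · omega
  rw [pow_succ]
  omega

end W09h1
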